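import Pool.Agent.KneserPoly.Stab

set_option autoImplicit false
set_option linter.unusedSectionVars false

/-! # Balanced convex sets -/

namespace Pool.Agent.KneserPoly

open MeasureTheory Set Filter Topology
open scoped ENNReal InnerProductSpace

variable {d : ℕ}

theorem lint_exp (b : ℝ) (hb : 0 < b) (u : ℝ) :
    ∫⁻ t in Ioi u, ENNReal.ofReal (b * Real.exp (-b * t)) = ENNReal.ofReal (Real.exp (-b * u)) := by
  have h1 : IntegrableOn (fun t : ℝ => b * Real.exp (-b * t)) (Ioi u) :=
    (integrableOn_exp_mul_Ioi (by linarith : -b < 0) u).const_mul b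
  rw [← ofReal_integral_eq_lintegral_ofReal h1 (Eventually.of_forall fun t => by positivity),
    integral_const_mul, integral_exp_mul_Ioi (by linarith : -b < 0)]
  congr 1
  field_simp

theorem gauss_layer (b : ℝ) (hb : 0 < b) (c : Eu d) (S : Set (Eu d)) :
    ∫⁻ x in S, ENNReal.ofReal (Real.exp (-b * ‖x - c‖ ^ 2)) =
      ∫⁻ t in Ioi (0 : ℝ), ENNReal.ofReal (b * Real.exp (-b * t)) *
        volume (S ∩ {x | ‖x - c‖ ^ 2 < t}) := by
  have h1 : ∀ x : Eu d, ENNReal.ofReal (Real.exp (-b * ‖x - c‖ ^ 2)) =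
      ∫⁻ t in Ioi (0 : ℝ), {p : Eu d × ℝ | ‖p.1 - c‖ ^ 2 < p.2}.indicator
        (fun p => ENNReal.ofReal (b * Real.exp (-b * p.2))) (x, t) := by
    intro x
    rw [← lint_exp b hb]
    have h2 : ∀ t : ℝ, {p : Eu d × ℝ | ‖p.1 - c‖ ^ 2 < p.2}.indicator
        (fun p => ENNReal.ofReal (b * Real.exp (-b * p.2))) (x, t) =
        (Ioi (‖x - c‖ ^ 2)).indicator (fun t => ENNReal.ofReal (b * Real.exp (-b * t))) t := by
      intro t
      by_cases ht : ‖x - c‖ ^ 2 < t
      · rw [indicator_of_mem (by exact ht), indicator_of_mem (by exact ht)]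
      · rw [indicator_of_notMem (by exact ht), indicator_of_notMem (by exact ht)]
    simp_rw [h2]
    rw [lintegral_indicator measurableSet_Ioi, Measure.restrict_restrict measurableSet_Ioi]
    congr 2
    rw [Set.inter_eq_left.2]
    intro t ht
    have ht' : ‖x - c‖ ^ 2 < t := ht
    exact lt_of_le_of_lt (sq_nonneg ‖x - c‖) ht'
  have hm : MeasurableSet {p : Eu d × ℝ | ‖p.1 - c‖ ^ 2 < p.2} :=
    (isOpen_lt (by fun_prop) (by fun_prop)).measurableSet
  have hm2 : Measurable ({p : Eu d × ℝ | ‖p.1 - c‖ ^ 2 < p.2}.indicator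
        (fun p => ENNReal.ofReal (b * Real.exp (-b * p.2)))) := by
    apply Measurable.indicator _ hm
    fun_prop
  simp_rw [h1]
  rw [lintegral_lintegral_swap (f := fun (x : Eu d) (t : ℝ) =>
    {p : Eu d × ℝ | ‖p.1 - c‖ ^ 2 < p.2}.indicator
        (fun p => ENNReal.ofReal (b * Real.exp (-b * p.2))) (x, t)) hm2.aemeasurable]
  apply lintegral_congr
  intro t
  have h3 : ∀ x : Eu d, {p : Eu d × ℝ | ‖p.1 - c‖ ^ 2 < p.2}.indicator
        (fun p => ENNReal.ofReal (b * Real.exp (-b * p.2))) (x, t) =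
        {x : Eu d | ‖x - c‖ ^ 2 < t}.indicator
          (fun _ => ENNReal.ofReal (b * Real.exp (-b * t))) x := by
    intro x
    by_cases ht : ‖x - c‖ ^ 2 < t
    · rw [indicator_of_mem (by exact ht), indicator_of_mem (by exact ht)]
    · rw [indicator_of_notMem (by exact ht), indicator_of_notMem (by exact ht)]
  have hm3 : MeasurableSet {x : Eu d | ‖x - c‖ ^ 2 < t} :=
    (isOpen_lt (by fun_prop) (by fun_prop)).measurableSet
  simp_rw [h3]
  rw [lintegral_indicator hm3, setLIntegral_const, Measure.restrict_apply hm3, Set.inter_comm]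

/-- the volume of the part of `Q` at squared distance at most `t` from `c` -/
noncomputable def Vt (Q : Set (Eu d)) (c : Eu d) (t : ℝ) : ℝ≥0∞ :=
  volume (Q ∩ {x | ‖x - c‖ ^ 2 ≤ t})

theorem Vt_mono (Q : Set (Eu d)) (c : Eu d) {s t : ℝ} (h : s ≤ t) : Vt Q c s ≤ Vt Q c t := by
  apply measure_mono
  rintro x ⟨h1, h2⟩
  exact ⟨h1, le_trans h2 h⟩

theorem Vt_lt_top (Q : Set (Eu d)) (c : Eu d) (t : ℝ) : Vt Q c t < ⊤ := by
  refine (measure_mono (?_ : _ ⊆ Metric.closedBall c (Real.sqrt t))).trans_lt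
    measure_closedBall_lt_top
  rintro x ⟨-, h2⟩
  rw [mem_closedBall_iff_norm]
  exact Real.le_sqrt_of_sq_le h2

theorem Vt_logconcave {Q : Set (Eu d)} (hQ : Convex ℝ Q) (hQm : MeasurableSet Q) (c : Eu d)
    {s t l m : ℝ} (hl : 0 < l) (hm : 0 < m) (hlm : l + m = 1) :
    Vt Q c s ^ l * Vt Q c t ^ m ≤ Vt Q c (l * s + m * t) := by
  have hmeas : ∀ t, MeasurableSet (Q ∩ {x | ‖x - c‖ ^ 2 ≤ t}) := fun t =>
    hQm.inter (isClosed_le (by fun_prop) (by fun_prop)).measurableSet
  have key := pl (f := (Q ∩ {x | ‖x - c‖ ^ 2 ≤ s}).indicator 1)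
    (g := (Q ∩ {x | ‖x - c‖ ^ 2 ≤ t}).indicator 1)
    (h := (Q ∩ {x | ‖x - c‖ ^ 2 ≤ l * s + m * t}).indicator 1)
    (measurable_one.indicator (hmeas _)) (measurable_one.indicator (hmeas _))
    (measurable_one.indicator (hmeas _)) hl hm hlm (by
      intro x y
      by_cases hx : x ∈ Q ∩ {x | ‖x - c‖ ^ 2 ≤ s}
      · by_cases hy : y ∈ Q ∩ {x | ‖x - c‖ ^ 2 ≤ t}
        · have hz : l • x + m • y ∈ Q ∩ {x | ‖x - c‖ ^ 2 ≤ l * s + m * t} := by
            refine ⟨hQ hx.1 hy.1 hl.le hm.le hlm, ?_⟩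
            have h1 : ‖x - c‖ ^ 2 ≤ s := hx.2
            have h2 : ‖y - c‖ ^ 2 ≤ t := hy.2
            change ‖l • x + m • y - c‖ ^ 2 ≤ l * s + m * t
            rw [norm_interp x y c hlm]
            have h3 : 0 ≤ l * m * ‖x - y‖ ^ 2 := by positivity
            nlinarith
          rw [indicator_of_mem hx, indicator_of_mem hy, indicator_of_mem hz]
          simp
        · rw [indicator_of_notMem hy]
          simp [hm]
      · rw [indicator_of_notMem hx]
        simp [hl])
  rwa [lintegral_indicator_one (hmeas _), lintegral_indicator_one (hmeas _),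
    lintegral_indicator_one (hmeas _)] at key

theorem Vt_below {Q : Set (Eu d)} (hQ : Convex ℝ Q) (hQm : MeasurableSet Q) (c : Eu d)
    {k s t₀ t₁ : ℝ} (hs : s < t₀) (ht : t₀ < t₁)
    (h1 : Vt Q c t₀ * ENNReal.ofReal (Real.exp (k * (t₁ - t₀))) < Vt Q c t₁) :
    Vt Q c s ≤ Vt Q c t₀ * ENNReal.ofReal (Real.exp (-(k * (t₀ - s)))) := by
  have hf := fun t => (Vt_lt_top Q c t).ne
  set a := (Vt Q c s).toReal with ha
  set a₀ := (Vt Q c t₀).toReal with ha₀
  set a₁ := (Vt Q c t₁).toReal with ha₁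
  have ea : Vt Q c s = ENNReal.ofReal a := (ENNReal.ofReal_toReal (hf s)).symm
  have ea₀ : Vt Q c t₀ = ENNReal.ofReal a₀ := (ENNReal.ofReal_toReal (hf t₀)).symm
  have ea₁ : Vt Q c t₁ = ENNReal.ofReal a₁ := (ENNReal.ofReal_toReal (hf t₁)).symm
  have hmono : a ≤ a₀ := ENNReal.toReal_mono (hf t₀) (Vt_mono Q c hs.le)
  have ha0 : 0 ≤ a := ENNReal.toReal_nonneg
  rw [ea₀, ea₁, ← ENNReal.ofReal_mul (by positivity)] at h1
  have h1' : a₀ * Real.exp (k * (t₁ - t₀)) < a₁ := by
    by_contra hcon
    push Not at hcon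
    exact absurd h1 (not_lt.2 (ENNReal.ofReal_le_ofReal hcon))
  rw [ea, ea₀, ← ENNReal.ofReal_mul (by positivity)]
  apply ENNReal.ofReal_le_ofReal
  rcases ha0.eq_or_lt with h0 | hapos
  · rw [← h0]
    positivity
  have ha₀pos : 0 < a₀ := hapos.trans_le hmono
  have ha₁pos : 0 < a₁ := lt_of_le_of_lt (by positivity) h1'
  have hden : 0 < t₁ - s := by linarith
  set l := (t₁ - t₀) / (t₁ - s) with hl
  set m := (t₀ - s) / (t₁ - s) with hm
  have hl0 : 0 < l := div_pos (by linarith) hden
  have hm0 : 0 < m := div_pos (by linarith) hden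
  have hlm : l + m = 1 := by
    rw [hl, hm, ← add_div, div_eq_one_iff_eq hden.ne']
    ring
  have hmid : l * s + m * t₁ = t₀ := by
    rw [hl, hm]
    field_simp
    ring
  have key := Vt_logconcave hQ hQm c (s := s) (t := t₁) hl0 hm0 hlm
  rw [hmid, ea, ea₀, ea₁, ENNReal.ofReal_rpow_of_pos hapos, ENNReal.ofReal_rpow_of_pos ha₁pos,
    ← ENNReal.ofReal_mul (by positivity), ENNReal.ofReal_le_ofReal_iff ha₀pos.le] at key
  have key2 := Real.log_le_log (by positivity) key
  rw [Real.log_mul (by positivity) (by positivity), Real.log_rpow hapos,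
    Real.log_rpow ha₁pos] at key2
  have h3 := Real.log_lt_log (by positivity) h1'
  rw [Real.log_mul ha₀pos.ne' (Real.exp_pos _).ne', Real.log_exp] at h3
  have h4 : l * Real.log a ≤ l * (Real.log a₀ - k * (t₀ - s)) := by
    have h5 : m * (Real.log a₀ + k * (t₁ - t₀)) ≤ m * Real.log a₁ :=
      mul_le_mul_of_nonneg_left h3.le hm0.le
    have h6 : m * (t₁ - t₀) = l * (t₀ - s) := by
      rw [hl, hm]
      field_simp
    have h7 : m * (k * (t₁ - t₀)) = l * (k * (t₀ - s)) := by
      calc m * (k * (t₁ - t₀)) = k * (m * (t₁ - t₀)) := by ring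
        _ = l * (k * (t₀ - s)) := by rw [h6]; ring
    have h8 : m = 1 - l := by linarith
    have h9 : m * Real.log a₀ = Real.log a₀ - l * Real.log a₀ := by rw [h8]; ring
    linarith
  have h5 : Real.log a ≤ Real.log a₀ - k * (t₀ - s) := le_of_mul_le_mul_left h4 hl0
  have h6 := Real.exp_le_exp.2 h5
  rw [Real.exp_log hapos, sub_eq_add_neg, Real.exp_add, Real.exp_log ha₀pos] at h6
  exact h6

theorem balanced_lint {b x0 : ℝ} (hb : 1 ≤ b) (hx0 : 0 < x0) (hx1 : x0 ≤ 1 / 16)
    (hbx : 2 * b * x0 ≤ 1) {Q : Set (Eu d)} (hQ : Convex ℝ Q) (hQm : MeasurableSet Q) (c : Eu d) :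
    (∫⁻ x in Q ∩ {x | ‖x - c‖ ≤ 1 + x0}, ENNReal.ofReal (Real.exp (-b * ‖x - c‖ ^ 2)) ≤
      Vt Q c ((1 + x0) ^ 2) * ENNReal.ofReal (5 * b * Real.exp (-b))) ∨
    (∫⁻ x in Q ∩ {x | 1 - x0 ≤ ‖x - c‖}, ENNReal.ofReal (Real.exp (-b * ‖x - c‖ ^ 2)) ≤
      Vt Q c ((1 + x0) ^ 2) * ENNReal.ofReal (5 * b * Real.exp (-b))) := by
  have hb0 : 0 < b := by linarith
  set tp := (1 + x0) ^ 2 with htp
  set tm := (1 - x0) ^ 2 with htm
  have htp1 : 1 ≤ tp := by rw [htp]; nlinarith
  have htp2 : tp ≤ 6 / 5 := by rw [htp]; nlinarith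
  have hmt : tm ≤ tp := by rw [htp, htm]; nlinarith
  by_cases hcase : ∀ t, tp < t → Vt Q c t ≤ Vt Q c tp * ENNReal.ofReal (Real.exp ((b - 1) * (t - tp)))
  · right
    rw [gauss_layer b hb0 c]
    have hbound : ∀ t ∈ Ioi (0 : ℝ), ENNReal.ofReal (b * Real.exp (-b * t)) *
        volume (Q ∩ {x | 1 - x0 ≤ ‖x - c‖} ∩ {x | ‖x - c‖ ^ 2 < t}) ≤
        Vt Q c tp * ((Ioi tm).indicator (fun t => ENNReal.ofReal (b * Real.exp (-b * t))) t +
          (Ioi tp).indicator (fun t => ENNReal.ofReal (b * Real.exp ((1 - b) * tp)) *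
            ENNReal.ofReal (1 * Real.exp (-1 * t))) t) := by
      intro t _
      by_cases h1 : t ≤ tm
      · have : Q ∩ {x | 1 - x0 ≤ ‖x - c‖} ∩ {x | ‖x - c‖ ^ 2 < t} = ∅ := by
          ext x
          simp only [mem_inter_iff, mem_ofPred_eq, mem_empty_iff_false, iff_false, not_and, not_lt]
          rintro ⟨-, h2⟩
          refine h1.trans ?_
          rw [htm]
          exact pow_le_pow_left₀ (by linarith) h2 2
        rw [this]
        simp
      · push Not at h1
        rw [indicator_of_mem (by exact h1)]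
        have h2 : volume (Q ∩ {x | 1 - x0 ≤ ‖x - c‖} ∩ {x | ‖x - c‖ ^ 2 < t}) ≤ Vt Q c t := by
          apply measure_mono
          rintro x ⟨⟨hx1, -⟩, hx2⟩
          exact ⟨hx1, (show ‖x - c‖ ^ 2 < t from hx2).le⟩
        by_cases h3 : t ≤ tp
        · calc _ ≤ ENNReal.ofReal (b * Real.exp (-b * t)) * Vt Q c tp := by
                gcongr
                exact h2.trans (Vt_mono Q c h3)
            _ ≤ _ := by
                rw [mul_comm, mul_add]
                exact le_self_add
        · push Not at h3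
          rw [indicator_of_mem (by exact h3)]
          calc _ ≤ ENNReal.ofReal (b * Real.exp (-b * t)) *
                (Vt Q c tp * ENNReal.ofReal (Real.exp ((b - 1) * (t - tp)))) := by
                gcongr
                exact h2.trans (hcase t h3)
            _ = Vt Q c tp * (ENNReal.ofReal (b * Real.exp ((1 - b) * tp)) *
                  ENNReal.ofReal (1 * Real.exp (-1 * t))) := by
                rw [mul_left_comm, ← ENNReal.ofReal_mul (by positivity),
                  ← ENNReal.ofReal_mul (by positivity)]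
                congr 2
                rw [mul_assoc, ← Real.exp_add, one_mul, mul_assoc, ← Real.exp_add]
                congr 2
                ring
            _ ≤ _ := by
                rw [mul_add]
                exact le_add_self
    have hmeas2 : Measurable fun t : ℝ => ENNReal.ofReal (1 * Real.exp (-1 * t)) := by fun_prop
    have hmeas1 : Measurable fun t : ℝ => ENNReal.ofReal (b * Real.exp (-b * t)) := by fun_prop
    refine (setLIntegral_mono' measurableSet_Ioi hbound).trans ?_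
    refine (setLIntegral_le_lintegral _ _).trans ?_
    have hm3 : Measurable fun x : ℝ =>
        ((Ioi tm).indicator (fun t => ENNReal.ofReal (b * Real.exp (-b * t))) x +
          (Ioi tp).indicator (fun t => ENNReal.ofReal (b * Real.exp ((1 - b) * tp)) *
            ENNReal.ofReal (1 * Real.exp (-1 * t))) x) :=
      (hmeas1.indicator measurableSet_Ioi).add ((hmeas2.const_mul _).indicator measurableSet_Ioi)
    rw [lintegral_const_mul _ hm3,
      lintegral_add_left (hmeas1.indicator measurableSet_Ioi),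
      lintegral_indicator measurableSet_Ioi, lintegral_indicator measurableSet_Ioi,
      lintegral_const_mul _ hmeas2, lint_exp b hb0, lint_exp 1 one_pos,
      ← ENNReal.ofReal_mul (by positivity), ← ENNReal.ofReal_add (by positivity) (by positivity)]
    gcongr
    have e1 : Real.exp (-b * tm) ≤ 3 * Real.exp (-b) := by
      have h1 : Real.exp (-b * tm) = Real.exp (b * (1 - tm)) * Real.exp (-b) := by
        rw [← Real.exp_add]
        congr 1
        ring
      have h2 : Real.exp (b * (1 - tm)) ≤ Real.exp 1 := by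
        apply Real.exp_le_exp.2
        rw [htm]
        nlinarith
      have h3 := Real.exp_one_lt_d9
      rw [h1]
      gcongr
      linarith
    have e2 : b * Real.exp ((1 - b) * tp) * Real.exp (-1 * tp) ≤ b * Real.exp (-b) := by
      rw [mul_assoc, ← Real.exp_add]
      gcongr
      nlinarith
    have h5 : 0 < Real.exp (-b) := Real.exp_pos _
    nlinarith
  · left
    push Not at hcase
    obtain ⟨t₁, ht₁, hlt⟩ := hcase
    rw [gauss_layer b hb0 c]
    have hbound : ∀ t ∈ Ioi (0 : ℝ), ENNReal.ofReal (b * Real.exp (-b * t)) *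
        volume (Q ∩ {x | ‖x - c‖ ≤ 1 + x0} ∩ {x | ‖x - c‖ ^ 2 < t}) ≤
        Vt Q c tp * (ENNReal.ofReal (b * Real.exp (-((b - 1) * tp))) *
            ENNReal.ofReal (1 * Real.exp (-1 * t)) +
          (Ioi tp).indicator (fun t => ENNReal.ofReal (b * Real.exp (-b * t))) t) := by
      intro t _
      by_cases h3 : t < tp
      · have h2 : volume (Q ∩ {x | ‖x - c‖ ≤ 1 + x0} ∩ {x | ‖x - c‖ ^ 2 < t}) ≤ Vt Q c t := by
          apply measure_mono
          rintro x ⟨⟨hx1, -⟩, hx2⟩
          exact ⟨hx1, (show ‖x - c‖ ^ 2 < t from hx2).le⟩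
        calc _ ≤ ENNReal.ofReal (b * Real.exp (-b * t)) *
                (Vt Q c tp * ENNReal.ofReal (Real.exp (-((b - 1) * (tp - t))))) := by
                gcongr
                exact h2.trans (Vt_below hQ hQm c h3 ht₁ hlt)
          _ = Vt Q c tp * (ENNReal.ofReal (b * Real.exp (-((b - 1) * tp))) *
                  ENNReal.ofReal (1 * Real.exp (-1 * t))) := by
                rw [mul_left_comm, ← ENNReal.ofReal_mul (by positivity),
                  ← ENNReal.ofReal_mul (by positivity)]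
                congr 2
                rw [mul_assoc, ← Real.exp_add, one_mul, mul_assoc, ← Real.exp_add]
                congr 2
                ring
          _ ≤ _ := by
                rw [mul_add]
                exact le_self_add
      · push Not at h3
        rcases h3.eq_or_lt with h4 | h4
        · -- `t = tp`
          have h2 : volume (Q ∩ {x | ‖x - c‖ ≤ 1 + x0} ∩ {x | ‖x - c‖ ^ 2 < t}) ≤ Vt Q c tp := by
            apply measure_mono
            rintro x ⟨⟨hx1, -⟩, hx2⟩
            rw [h4]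
            exact ⟨hx1, (show ‖x - c‖ ^ 2 < t from hx2).le⟩
          calc _ ≤ ENNReal.ofReal (b * Real.exp (-b * t)) * Vt Q c tp := by gcongr
            _ = Vt Q c tp * (ENNReal.ofReal (b * Real.exp (-((b - 1) * tp))) *
                  ENNReal.ofReal (1 * Real.exp (-1 * t))) := by
                rw [mul_comm, ← ENNReal.ofReal_mul (by positivity)]
                congr 2
                rw [one_mul, mul_assoc, ← Real.exp_add, ← h4]
                congr 2
                ring
            _ ≤ _ := by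
                rw [mul_add]
                exact le_self_add
        · have h2 : volume (Q ∩ {x | ‖x - c‖ ≤ 1 + x0} ∩ {x | ‖x - c‖ ^ 2 < t}) ≤ Vt Q c tp := by
            apply measure_mono
            rintro x ⟨⟨hx1, hx3⟩, -⟩
            refine ⟨hx1, ?_⟩
            change ‖x - c‖ ^ 2 ≤ tp
            rw [htp]
            exact pow_le_pow_left₀ (norm_nonneg _) hx3 2
          rw [indicator_of_mem (by exact h4)]
          calc _ ≤ ENNReal.ofReal (b * Real.exp (-b * t)) * Vt Q c tp := by gcongr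
            _ ≤ _ := by
                rw [mul_comm, mul_add]
                exact le_add_self
    have hmeas2 : Measurable fun t : ℝ => ENNReal.ofReal (1 * Real.exp (-1 * t)) := by fun_prop
    have hmeas1 : Measurable fun t : ℝ => ENNReal.ofReal (b * Real.exp (-b * t)) := by fun_prop
    refine (setLIntegral_mono' measurableSet_Ioi hbound).trans ?_
    have hm3 : Measurable fun x : ℝ =>
        (ENNReal.ofReal (b * Real.exp (-((b - 1) * tp))) * ENNReal.ofReal (1 * Real.exp (-1 * x)) +
          (Ioi tp).indicator (fun t => ENNReal.ofReal (b * Real.exp (-b * t))) x) :=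
      (hmeas2.const_mul _).add (hmeas1.indicator measurableSet_Ioi)
    rw [lintegral_const_mul _ hm3,
      lintegral_add_left (hmeas2.const_mul _), lintegral_const_mul _ hmeas2,
      lintegral_indicator measurableSet_Ioi, Measure.restrict_restrict measurableSet_Ioi,
      lint_exp 1 one_pos]
    have hI : Ioi tp ∩ Ioi 0 = Ioi tp := by
      rw [Set.inter_eq_left]
      exact Ioi_subset_Ioi (by linarith)
    rw [hI, lint_exp b hb0, ← ENNReal.ofReal_mul (by positivity),
      ← ENNReal.ofReal_add (by positivity) (by positivity)]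
    gcongr
    have e1 : b * Real.exp (-((b - 1) * tp)) ≤ 4 * b * Real.exp (-b) := by
      have h1 : Real.exp (-((b - 1) * tp)) = Real.exp (tp + b * (1 - tp)) * Real.exp (-b) := by
        rw [← Real.exp_add]
        congr 1
        ring
      have h2 : Real.exp (tp + b * (1 - tp)) ≤ 4 := by
        rw [← Real.le_log_iff_exp_le (by norm_num)]
        have h3 : Real.log 4 = 2 * Real.log 2 := by
          rw [show (4 : ℝ) = 2 ^ 2 by norm_num, Real.log_pow]
          norm_num
        have h4 := Real.log_two_gt_d9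
        rw [h3]
        nlinarith
      rw [h1]
      have h5 : 0 < Real.exp (-b) := Real.exp_pos _
      nlinarith [mul_le_mul_of_nonneg_right h2 h5.le, mul_pos hb0 h5]
    have e2 : Real.exp (-b * tp) ≤ b * Real.exp (-b) := by
      have h1 : Real.exp (-b * tp) ≤ Real.exp (-b) := by
        apply Real.exp_le_exp.2
        nlinarith
      have h5 : 0 < Real.exp (-b) := Real.exp_pos _
      nlinarith
    have e3 : Real.exp (-1 * 0) = 1 := by simp
    rw [e3, mul_one]
    linarith

/-- the balanced estimate -/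
theorem balanced {b x0 ε : ℝ} (hb : 1 ≤ b) (hx0 : 0 < x0) (hx1 : x0 ≤ 1 / 16)
    (hbx : 2 * b * x0 ≤ 1) {Q : Set (Eu d)} (hQ : Convex ℝ Q) (hQm : MeasurableSet Q)
    (c : Eu d)
    (hL : ε * ∫ x in Q, Real.exp (-b * ‖x - c‖ ^ 2) ≤
      ∫ x in Q ∩ {x | ‖x - c‖ ≤ 1 + x0}, Real.exp (-b * ‖x - c‖ ^ 2))
    (hR : ε * ∫ x in Q, Real.exp (-b * ‖x - c‖ ^ 2) ≤
      ∫ x in Q ∩ {x | 1 - x0 ≤ ‖x - c‖}, Real.exp (-b * ‖x - c‖ ^ 2)) :
    ε * ∫ x in Q, Real.exp (-b * ‖x - c‖ ^ 2) ≤
      (Vt Q c ((1 + x0) ^ 2)).toReal * (5 * b * Real.exp (-b)) := by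
  have hb0 : 0 < b := by linarith
  have key : ∀ S : Set (Eu d), (∫⁻ x in S, ENNReal.ofReal (Real.exp (-b * ‖x - c‖ ^ 2)) ≤
      Vt Q c ((1 + x0) ^ 2) * ENNReal.ofReal (5 * b * Real.exp (-b))) →
      ∫ x in S, Real.exp (-b * ‖x - c‖ ^ 2) ≤
        (Vt Q c ((1 + x0) ^ 2)).toReal * (5 * b * Real.exp (-b)) := by
    intro S hS
    rw [integral_eq_lintegral_of_nonneg_ae (Eventually.of_forall fun x => (Real.exp_pos _).le)
      (integrable_gauss b hb0 c).aestronglyMeasurable.restrict]
    have h1 := ENNReal.toReal_mono (ENNReal.mul_ne_top (Vt_lt_top _ _ _).ne ENNReal.ofReal_ne_top) hS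
    rwa [ENNReal.toReal_mul, ENNReal.toReal_ofReal (by positivity)] at h1
  rcases balanced_lint hb hx0 hx1 hbx hQ hQm c with h | h
  · exact hL.trans (key _ h)
  · exact hR.trans (key _ h)

end Pool.Agent.KneserPoly
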