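import Pool.Agent.KneserPoly.Gauss

set_option autoImplicit false
set_option linter.unusedSectionVars false

/-! # The union inequality for congruent balls, up to a polynomial factor -/

namespace Pool.Agent.KneserPoly

open MeasureTheory Set Filter Topology Module
open scoped ENNReal InnerProductSpace
open Pool.Agent.KneserMult

variable {ι : Type*} [Fintype ι] [DecidableEq ι] {d : ℕ}

/-- the volume of the union of the balls of radii `r i` -/
noncomputable def U (x : ι → Eu d) (r : ι → ℝ) : ℝ :=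
  (volume (⋃ i, Metric.closedBall (x i) (r i))).toReal

theorem volume_union_lt_top (x : ι → Eu d) (r : ι → ℝ) :
    volume (⋃ i, Metric.closedBall (x i) (r i)) < ⊤ := by
  refine (measure_iUnion_le _).trans_lt ?_
  rw [tsum_fintype]
  exact ENNReal.sum_lt_top.2 fun i _ => measure_closedBall_lt_top

theorem U_nonneg (x : ι → Eu d) (r : ι → ℝ) : 0 ≤ U x r := ENNReal.toReal_nonneg

theorem Vf_eq_U (x : ι → Eu d) {r : ℝ} (hr : 0 < r) : Vf 1 x (r ^ 2) = U x fun _ => r := by
  have h := integral_min x (ρ := fun _ => r) (fun _ => hr) 1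
  rw [Finset.sum_range_one] at h
  unfold Vf Pool.Agent.KneserMult.Int Gm U
  rw [h]
  congr 2
  ext z
  simp only [mem_ofPred_eq, mem_iUnion, Metric.mem_closedBall]
  unfold cc
  rw [zero_add, Nat.succ_le_iff, Finset.card_pos]
  constructor
  · rintro ⟨i, hi⟩
    exact ⟨i, (Finset.mem_filter.1 hi).2⟩
  · rintro ⟨i, hi⟩
    exact ⟨i, Finset.mem_filter.2 ⟨Finset.mem_univ i, hi⟩⟩

/-- Kneser's growth inequality -/
theorem U_growth (x : ι → Eu d) {c : ℝ} (hc : 1 ≤ c) {r : ℝ} (hr : 0 < r) :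
    U x (fun _ => c * r) ≤ c ^ d * U x fun _ => r := by
  have h := Vf_diff_scale 1 x (a := 0) (b := r ^ 2) (by positivity) hc
  rw [mul_zero, Vf_nonpos 1 x le_rfl, sub_zero, sub_zero, ← mul_pow,
    Vf_eq_U x (by positivity), Vf_eq_U x hr] at h
  exact h

/-- the pieces of the union -/
def piece {n : ℕ} (q : Fin n → Eu d) (i : Fin n) : Set (Eu d) :=
  {x | ‖x - q i‖ ≤ 1 ∧ ∀ j < i, 1 < ‖x - q j‖}

theorem measurableSet_piece {n : ℕ} (q : Fin n → Eu d) (i : Fin n) :
    MeasurableSet (piece q i) := by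
  have : piece q i = {x | ‖x - q i‖ ≤ 1} ∩ ⋂ j, {x | j < i → 1 < ‖x - q j‖} := by
    ext x
    simp [piece]
  rw [this]
  apply MeasurableSet.inter
  · exact (isClosed_le (by fun_prop) (by fun_prop)).measurableSet
  · apply MeasurableSet.iInter
    intro j
    by_cases hj : j < i
    · simp only [hj, forall_const]
      exact (isOpen_lt (by fun_prop) (by fun_prop)).measurableSet
    · simp [hj]

theorem piece_disjoint {n : ℕ} (q : Fin n → Eu d) :
    Pairwise (Function.onFun Disjoint (piece q)) := by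
  intro i j hij
  rw [Function.onFun, Set.disjoint_left]
  rintro x ⟨h1, h2⟩ ⟨h3, h4⟩
  rcases lt_or_gt_of_ne hij with h | h
  · exact absurd h1 (not_le.2 (h4 i h))
  · exact absurd h3 (not_le.2 (h2 j h))

theorem iUnion_piece {n : ℕ} (q : Fin n → Eu d) :
    ⋃ i, piece q i = ⋃ i, Metric.closedBall (q i) 1 := by
  ext x
  simp only [mem_iUnion, mem_closedBall_iff_norm]
  constructor
  · rintro ⟨i, hi, -⟩
    exact ⟨i, hi⟩
  · rintro ⟨i, hi⟩
    have hne : (Finset.univ.filter fun i => ‖x - q i‖ ≤ 1).Nonempty :=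
      ⟨i, Finset.mem_filter.2 ⟨Finset.mem_univ i, hi⟩⟩
    refine ⟨(Finset.univ.filter fun i => ‖x - q i‖ ≤ 1).min' hne, ?_, ?_⟩
    · exact (Finset.mem_filter.1 (Finset.min'_mem _ hne)).2
    · intro j hj
      by_contra hcon
      push Not at hcon
      have := Finset.min'_le (Finset.univ.filter fun i => ‖x - q i‖ ≤ 1) j
        (Finset.mem_filter.2 ⟨Finset.mem_univ j, hcon⟩)
      exact absurd hj (not_lt.2 this)

theorem volume_piece_lt_top {n : ℕ} (q : Fin n → Eu d) (i : Fin n) : volume (piece q i) < ⊤ := by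
  refine (measure_mono (?_ : piece q i ⊆ Metric.closedBall (q i) 1)).trans_lt
    measure_closedBall_lt_top
  rintro x ⟨h, -⟩
  exact mem_closedBall_iff_norm.2 h

theorem sum_piece {n : ℕ} (q : Fin n → Eu d) :
    ∑ i, (volume (piece q i)).toReal = U q fun _ => 1 := by
  unfold U
  rw [← iUnion_piece, measure_iUnion (piece_disjoint q) (measurableSet_piece q), tsum_fintype,
    ENNReal.toReal_sum fun i _ => (volume_piece_lt_top q i).ne]

/-- the lower bound for the Gaussian functional of `q` -/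
theorem lower_q {ι' : Type*} [Fintype ι'] [Nonempty ι'] {b : ℝ} (hb : 0 < b) {q : ι' → Eu d}
    {A : ι' → Set (Eu d)} (hA : ∀ i, MeasurableSet (A i))
    (hdisj : Pairwise (Function.onFun Disjoint A)) (hAq : ∀ i, ∀ x ∈ A i, ‖x - q i‖ ≤ 1)
    (w : ι' → ℝ) :
    ∑ i, (volume (A i)).toReal * Real.exp (b * (w i - 1)) ≤ G b q w := by
  have hint := integrable_exp_mx b hb q w
  have hfin : ∀ i, volume (A i) < ⊤ := by
    intro i
    refine (measure_mono (?_ : A i ⊆ Metric.closedBall (q i) 1)).trans_lt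
      measure_closedBall_lt_top
    intro x hx
    exact mem_closedBall_iff_norm.2 (hAq i x hx)
  have h1 : ∀ i, (volume (A i)).toReal * Real.exp (b * (w i - 1)) ≤
      ∫ x in A i, Real.exp (b * mx q w x) := by
    intro i
    have h2 : ∫ x in A i, Real.exp (b * (w i - 1)) =
        (volume (A i)).toReal * Real.exp (b * (w i - 1)) := by
      rw [setIntegral_const]
      simp [Measure.real]
    rw [← h2]
    apply setIntegral_mono_on (integrableOn_const (hfin i).ne) hint.integrableOn (hA i)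
    intro x hx
    apply Real.exp_le_exp.2
    have h3 := le_mx q w x i
    have h4 := hAq i x hx
    have h5 : ‖x - q i‖ ^ 2 ≤ 1 := pow_le_one₀ (norm_nonneg _) h4
    nlinarith
  calc ∑ i, (volume (A i)).toReal * Real.exp (b * (w i - 1)) ≤
      ∑ i, ∫ x in A i, Real.exp (b * mx q w x) := Finset.sum_le_sum fun i _ => h1 i
    _ = ∫ x in ⋃ i, A i, Real.exp (b * mx q w x) :=
        (integral_iUnion_fintype hA hdisj fun i => hint.integrableOn).symm
    _ ≤ G b q w := setIntegral_le_integral hint (Eventually.of_forall fun x => (Real.exp_pos _).le)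

theorem core_one {n : ℕ} (hd : 1 ≤ d) (p q : Fin n → Eu d)
    (hpq : ∀ i j, dist (q i) (q j) ≤ dist (p i) (p j)) :
    (U q fun _ => 1) ≤ 2 ^ 47 * (d : ℝ) ^ 10 * U p fun _ => 1 := by
  classical
  by_cases hV0 : (U q fun _ => 1) = 0
  · rw [hV0]
    have := U_nonneg p fun _ => 1
    positivity
  have hVpos : 0 < U q fun _ => 1 := lt_of_le_of_ne (U_nonneg _ _) (Ne.symm hV0)
  obtain ⟨V, hV⟩ : ∃ V, V = U q fun _ => 1 := ⟨_, rfl⟩
  rw [← hV] at hVpos ⊢
  let c : Fin n → ℝ := fun i => (volume (piece q i)).toReal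
  have hc0 : ∀ i, 0 ≤ c i := fun i => ENNReal.toReal_nonneg
  have hcsum : ∑ i, c i = V := by rw [hV]; exact sum_piece q
  have hsub : ∑ i : {i // 0 < c i}, c i = V := by
    rw [← Finset.sum_subtype (Finset.univ.filter fun i => 0 < c i) (by simp) c, ← hcsum]
    apply Finset.sum_filter_of_ne
    intro i _ hi
    exact lt_of_le_of_ne (hc0 i) (Ne.symm hi)
  have hne : Nonempty {i // 0 < c i} := by
    by_contra hcon
    rw [not_nonempty_iff] at hcon
    rw [Finset.univ_eq_empty, Finset.sum_empty] at hsub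
    linarith
  let p' : {i // 0 < c i} → Eu d := fun i => p i
  let q' : {i // 0 < c i} → Eu d := fun i => q i
  let μ : {i // 0 < c i} → ℝ := fun i => c i / V
  have hμ : ∀ i, 0 < μ i := fun i => div_pos i.2 hVpos
  have hμ1 : ∑ i, μ i = 1 := by
    simp only [μ]
    rw [← Finset.sum_div, hsub, div_self hVpos.ne']
  have hp' : Function.Injective p' := by
    have key : ∀ i j : Fin n, i < j → 0 < c j → p i ≠ p j := by
      intro i j hij hj hpp
      have hqq : q i = q j := by
        have := hpq i j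
        rw [hpp, dist_self] at this
        exact dist_le_zero.1 this
      have hempty : piece q j = ∅ := by
        ext x
        simp only [mem_empty_iff_false, iff_false]
        rintro ⟨h1, h2⟩
        have := h2 i hij
        rw [hqq] at this
        linarith
      have : c j = 0 := by
        simp only [c]
        rw [hempty]
        simp
      linarith
    intro i j hij
    by_contra hne
    have hne' : (i : Fin n) ≠ j := fun h => hne (Subtype.ext h)
    rcases lt_or_gt_of_ne hne' with h | h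
    · exact key i j h j.2 hij
    · exact key j i h i.2 hij.symm
  have hpq' : ∀ i j, dist (q' i) (q' j) ≤ dist (p' i) (p' j) := fun i j => hpq i j
  obtain ⟨b, w, T, hb1, hopt, hT, hcell⟩ := select hd hp' hμ hμ1
  have hb : 0 < b := by linarith
  have hδ : (1 : ℝ) ≤ (d : ℝ) := by exact_mod_cast hd
  obtain ⟨x0, hx⟩ : ∃ x0 : ℝ, x0 = 1 / (16 * (d : ℝ)) := ⟨_, rfl⟩
  have hx0 : 0 < x0 := by rw [hx]; positivity
  rw [← hx] at hcell
  let v : {i // 0 < c i} → ℝ := fun i => (Vt (cell p' w i) (p' i) ((1 + x0) ^ 2)).toReal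
  -- the cells
  have hZ : ∀ i, 0 < Zc b p' w i := fun i => hopt.Zc_pos hb hμ i
  have hv : ∀ i ∈ T, 0 < v i := by
    intro i hi
    have h1 := hcell i hi
    have h2 : 0 < Real.exp b * Zc b p' w i := mul_pos (Real.exp_pos _) (hZ i)
    by_contra hcon
    have h3 : v i = 0 := le_antisymm (not_lt.1 hcon) ENNReal.toReal_nonneg
    have h4 : (Vt (cell p' w i) (p' i) ((1 + x0) ^ 2)).toReal = 0 := h3
    rw [h4, mul_zero] at h1
    linarith
  have hvsum : ∑ i ∈ T, v i ≤ U p fun _ => 1 + x0 := by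
    have h1 : ∑ i ∈ T, v i ≤ ∑ i, v i :=
      Finset.sum_le_univ_sum_of_nonneg fun i => ENNReal.toReal_nonneg
    refine h1.trans ?_
    let S : {i // 0 < c i} → Set (Eu d) := fun i =>
      cell p' w i ∩ {x | ‖x - p' i‖ ^ 2 ≤ (1 + x0) ^ 2}
    have hSm : ∀ i, MeasurableSet (S i) := fun i =>
      (measurableSet_cell p' w i).inter (isClosed_le (by fun_prop) (by fun_prop)).measurableSet
    have hSd : Pairwise (Function.onFun Disjoint S) := fun i j hij =>
      (cell_disjoint p' w hij).mono inter_subset_left inter_subset_left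
    have h2 : ∑ i, v i = (volume (⋃ i, S i)).toReal := by
      rw [measure_iUnion hSd hSm, tsum_fintype, ENNReal.toReal_sum]
      · rfl
      · intro i _
        exact (Vt_lt_top (cell p' w i) (p' i) ((1 + x0) ^ 2)).ne
    rw [h2]
    apply ENNReal.toReal_mono (volume_union_lt_top _ _).ne
    apply measure_mono
    apply Set.iUnion_subset
    rintro i x ⟨-, hx2⟩
    refine Set.mem_iUnion.2 ⟨i, ?_⟩
    rw [mem_closedBall_iff_norm]
    have h3 : ‖x - p' i‖ ^ 2 ≤ (1 + x0) ^ 2 := hx2
    exact (pow_le_pow_iff_left₀ (norm_nonneg _) (by linarith) (by norm_num)).1 h3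
  have hgrow : (U p fun _ => 1 + x0) ≤ 2 * U p fun _ => 1 := by
    have h1 := U_growth p (c := 1 + x0) (by linarith) one_pos
    rw [mul_one] at h1
    refine h1.trans ?_
    have h2 : (1 + x0) ^ d ≤ 2 := by
      calc (1 + x0) ^ d ≤ (Real.exp x0) ^ d := by
            have := Real.add_one_le_exp x0
            gcongr
            linarith
        _ = Real.exp (1 / 16) := by
            rw [← Real.exp_nat_mul, hx]
            congr 1
            field_simp
        _ ≤ 2 := by
            rw [← Real.le_log_iff_exp_le (by norm_num)]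
            have := Real.log_two_gt_d9
            linarith
    exact mul_le_mul_of_nonneg_right h2 (U_nonneg _ _)
  -- the main inequality
  have hG := G_pos hb p' w
  have hmain : ∑ i ∈ T, c i * Real.exp (b * (w i - 1)) ≤ G b p' w := by
    have h1 := lower_q hb (q := q') (A := fun i => piece q i) (fun i => measurableSet_piece q i)
      (fun i j hij => piece_disjoint q (fun h => hij (Subtype.ext h))) (fun i x hx => hx.1) w
    refine le_trans ?_ (h1.trans (G_mono hb p' q' hpq' w))
    exact Finset.sum_le_univ_sum_of_nonneg (f := fun i : {i // 0 < c i} =>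
      (volume (piece q i)).toReal * Real.exp (b * (w i - 1))) fun i => by positivity
  have hterm : ∀ i ∈ T, V * (μ i ^ 2 / v i) * G b p' w / (2 ^ 16 * (d : ℝ) ^ 2) ≤
      c i * Real.exp (b * (w i - 1)) := by
    intro i hi
    have h1 := hcell i hi
    have h2 := hopt i
    have h3 := hZ i
    have h4 := hv i hi
    have h5 : Real.exp (b * (w i - 1)) = μ i * G b p' w / (Real.exp b * Zc b p' w i) := by
      rw [eq_div_iff (by positivity), ← h2]
      have : Real.exp (b * (w i - 1)) * Real.exp b = Real.exp (b * w i) := by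
        rw [← Real.exp_add]
        congr 1
        ring
      rw [← this]
      ring
    have h6 : (c i : ℝ) = V * μ i := by
      simp only [μ]
      field_simp
    rw [h5, h6]
    have h7 : μ i * G b p' w / (2 ^ 16 * (d : ℝ) ^ 2 * v i) ≤
        μ i * G b p' w / (Real.exp b * Zc b p' w i) := by
      have h8 := hμ i
      apply div_le_div_of_nonneg_left (by positivity) (by positivity) h1
    have h9 : 0 ≤ V * μ i := mul_nonneg hVpos.le (hμ i).le
    refine le_trans (le_of_eq ?_) (mul_le_mul_of_nonneg_left h7 h9)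
    field_simp
  have hsum2 : V * (∑ i ∈ T, μ i ^ 2 / v i) ≤ 2 ^ 16 * (d : ℝ) ^ 2 := by
    have h1 := (Finset.sum_le_sum hterm).trans hmain
    rw [← Finset.sum_div, ← Finset.sum_mul, ← Finset.mul_sum, div_le_iff₀ (by positivity)] at h1
    have h2 : V * (∑ i ∈ T, μ i ^ 2 / v i) * G b p' w ≤ 2 ^ 16 * (d : ℝ) ^ 2 * G b p' w := by
      linarith
    exact le_of_mul_le_mul_right h2 hG
  have hmpos : 0 < ∑ i ∈ T, μ i := lt_of_lt_of_le (by positivity) hT
  have hTne : T.Nonempty := by
    by_contra hcon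
    rw [Finset.not_nonempty_iff_eq_empty] at hcon
    rw [hcon, Finset.sum_empty] at hmpos
    exact lt_irrefl _ hmpos
  have hvpos : 0 < ∑ i ∈ T, v i := Finset.sum_pos hv hTne
  have htitu := Finset.sq_sum_div_le_sum_sq_div T μ hv
  have h1 : V * ((∑ i ∈ T, μ i) ^ 2 / ∑ i ∈ T, v i) ≤ 2 ^ 16 * (d : ℝ) ^ 2 :=
    (mul_le_mul_of_nonneg_left htitu hVpos.le).trans hsum2
  have h2 : V * (∑ i ∈ T, μ i) ^ 2 ≤ 2 ^ 16 * (d : ℝ) ^ 2 * ∑ i ∈ T, v i := by
    rwa [← mul_div_assoc, div_le_iff₀ hvpos] at h1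
  have h3 : (1 / (2 ^ 15 * (d : ℝ) ^ 4)) ^ 2 ≤ (∑ i ∈ T, μ i) ^ 2 :=
    pow_le_pow_left₀ (by positivity) hT 2
  have h4 : V * (1 / (2 ^ 15 * (d : ℝ) ^ 4)) ^ 2 ≤
      2 ^ 16 * (d : ℝ) ^ 2 * (2 * U p fun _ => 1) := by
    calc V * (1 / (2 ^ 15 * (d : ℝ) ^ 4)) ^ 2 ≤ V * (∑ i ∈ T, μ i) ^ 2 := by gcongr
      _ ≤ 2 ^ 16 * (d : ℝ) ^ 2 * ∑ i ∈ T, v i := h2
      _ ≤ _ := by
          have := hvsum.trans hgrow
          gcongr
  have h5 : V = V * (1 / (2 ^ 15 * (d : ℝ) ^ 4)) ^ 2 * (2 ^ 30 * (d : ℝ) ^ 8) := by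
    field_simp
  rw [h5]
  calc V * (1 / (2 ^ 15 * (d : ℝ) ^ 4)) ^ 2 * (2 ^ 30 * (d : ℝ) ^ 8) ≤
      2 ^ 16 * (d : ℝ) ^ 2 * (2 * U p fun _ => 1) * (2 ^ 30 * (d : ℝ) ^ 8) := by gcongr
    _ = 2 ^ 47 * (d : ℝ) ^ 10 * U p fun _ => 1 := by ring

end Pool.Agent.KneserPoly
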