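import Pool.Agent.KneserPoly.Power

set_option autoImplicit false
set_option linter.unusedSectionVars false

/-! # The dual problem: existence of optimal weights, weak duality -/

namespace Pool.Agent.KneserPoly

open MeasureTheory Set Filter Topology
open scoped ENNReal InnerProductSpace

variable {ι : Type*} [Fintype ι] {d : ℕ} [Nonempty ι]

/-- the dual functional -/
noncomputable def Phi (b : ℝ) (p : ι → Eu d) (μ : ι → ℝ) (w : ι → ℝ) : ℝ :=
  Real.log (G b p w) - b * ∑ i, μ i * w i

theorem weak {b : ℝ} (hb : 0 < b) {p : ι → Eu d} {μ : ι → ℝ} (hμ : ∀ i, 0 < μ i)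
    (hμ1 : ∑ i, μ i = 1) {R : ι → Set (Eu d)} (hR : ∀ i, MeasurableSet (R i))
    (hdisj : Pairwise (Function.onFun Disjoint R))
    (hζ : ∀ i, 0 < ∫ x in R i, Real.exp (-b * ‖x - p i‖ ^ 2)) (w : ι → ℝ) :
    ∑ i, μ i * Real.log ((∫ x in R i, Real.exp (-b * ‖x - p i‖ ^ 2)) / μ i) ≤ Phi b p μ w := by
  set ζ : ι → ℝ := fun i => ∫ x in R i, Real.exp (-b * ‖x - p i‖ ^ 2) with hζdef
  have hG := G_pos hb p w
  have hint := integrable_exp_mx b hb p w
  have hS : ∑ i, Real.exp (b * w i) * ζ i ≤ G b p w := by
    have h1 : ∀ i, Real.exp (b * w i) * ζ i ≤ ∫ x in R i, Real.exp (b * mx p w x) := by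
      intro i
      rw [hζdef, ← integral_const_mul]
      apply setIntegral_mono
      · exact ((integrable_gauss b hb (p i)).const_mul _).integrableOn
      · exact hint.integrableOn
      · intro x
        simp only
        rw [← Real.exp_add]
        apply Real.exp_le_exp.2
        have := le_mx p w x i
        nlinarith
    calc ∑ i, Real.exp (b * w i) * ζ i ≤ ∑ i, ∫ x in R i, Real.exp (b * mx p w x) :=
          Finset.sum_le_sum fun i _ => h1 i
      _ = ∫ x in ⋃ i, R i, Real.exp (b * mx p w x) :=
          (integral_iUnion_fintype hR hdisj fun i => hint.integrableOn).symm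
      _ ≤ G b p w := setIntegral_le_integral hint (Eventually.of_forall fun x => (Real.exp_pos _).le)
  have h2 : ∀ i, μ i * Real.log (ζ i / μ i) ≤
      Real.exp (b * w i) * ζ i / G b p w + μ i * (Real.log (G b p w) - 1 - b * w i) := by
    intro i
    have hy : 0 < Real.exp (b * w i) * ζ i / μ i / G b p w := by
      have := hζ i
      have := hμ i
      positivity
    have h3 := Real.log_le_sub_one_of_pos hy
    have h4 : Real.log (Real.exp (b * w i) * ζ i / μ i / G b p w) =
        b * w i + Real.log (ζ i / μ i) - Real.log (G b p w) := by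
      rw [mul_div_assoc, Real.log_div (by have := hζ i; have := hμ i; positivity) hG.ne',
        Real.log_mul (Real.exp_pos _).ne' (by have := hζ i; have := hμ i; positivity),
        Real.log_exp]
    rw [h4] at h3
    have h5 : Real.log (ζ i / μ i) ≤ Real.exp (b * w i) * ζ i / μ i / G b p w - 1 - b * w i +
        Real.log (G b p w) := by linarith
    have h6 := mul_le_mul_of_nonneg_left h5 (hμ i).le
    refine h6.trans (le_of_eq ?_)
    have := (hμ i).ne'
    field_simp
    ring
  calc ∑ i, μ i * Real.log (ζ i / μ i) ≤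
      ∑ i, (Real.exp (b * w i) * ζ i / G b p w + μ i * (Real.log (G b p w) - 1 - b * w i)) :=
        Finset.sum_le_sum fun i _ => h2 i
    _ = (∑ i, Real.exp (b * w i) * ζ i) / G b p w + (Real.log (G b p w) - 1) -
        b * ∑ i, μ i * w i := by
        rw [Finset.sum_add_distrib, ← Finset.sum_div]
        have : ∑ i, μ i * (Real.log (G b p w) - 1 - b * w i) =
            (Real.log (G b p w) - 1) * ∑ i, μ i - b * ∑ i, μ i * w i := by
          rw [Finset.mul_sum, Finset.mul_sum, ← Finset.sum_sub_distrib]
          apply Finset.sum_congr rfl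
          intro i _
          ring
        rw [this, hμ1]
        ring
    _ ≤ Phi b p μ w := by
        unfold Phi
        have : (∑ i, Real.exp (b * w i) * ζ i) / G b p w ≤ 1 := by
          rw [div_le_one hG]
          exact hS
        linarith

theorem mx_sub_le (p : ι → Eu d) (w w' : ι → ℝ) (x : Eu d) :
    mx p w x ≤ mx p w' x + ‖w - w'‖ := by
  apply mx_le
  intro i
  have h1 := le_mx p w' x i
  have h2 := norm_le_pi_norm (w - w') i
  rw [Real.norm_eq_abs, Pi.sub_apply] at h2
  have h3 := le_abs_self (w i - w' i)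
  linarith

theorem G_le {b : ℝ} (hb : 0 < b) (p : ι → Eu d) (w w' : ι → ℝ) :
    G b p w ≤ Real.exp (b * ‖w - w'‖) * G b p w' := by
  unfold G
  rw [← integral_const_mul]
  apply integral_mono (integrable_exp_mx b hb p w) ((integrable_exp_mx b hb p w').const_mul _)
  intro x
  simp only
  rw [← Real.exp_add]
  apply Real.exp_le_exp.2
  have := mx_sub_le p w w' x
  nlinarith

theorem continuous_logG {b : ℝ} (hb : 0 < b) (p : ι → Eu d) :
    Continuous fun w => Real.log (G b p w) := by
  have h : LipschitzWith b.toNNReal fun w => Real.log (G b p w) := by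
    apply LipschitzWith.of_le_add_mul
    intro w w'
    rw [Real.coe_toNNReal _ hb.le]
    have h1 := Real.log_le_log (G_pos hb p w) (G_le hb p w w')
    rw [Real.log_mul (Real.exp_pos _).ne' (G_pos hb p w').ne', Real.log_exp] at h1
    rw [dist_eq_norm]
    linarith
  exact h.continuous

theorem continuous_Phi {b : ℝ} (hb : 0 < b) (p : ι → Eu d) (μ : ι → ℝ) :
    Continuous (Phi b p μ) := by
  unfold Phi
  have := continuous_logG hb p
  fun_prop

theorem mx_shift (p : ι → Eu d) (w : ι → ℝ) (c : ℝ) (x : Eu d) :
    mx p (fun i => w i + c) x = mx p w x + c := by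
  apply le_antisymm
  · apply mx_le
    intro i
    have := le_mx p w x i
    linarith
  · obtain ⟨i, hi⟩ := exists_mx p w x
    have := le_mx p (fun i => w i + c) x i
    linarith

theorem G_shift {b : ℝ} (p : ι → Eu d) (w : ι → ℝ) (c : ℝ) :
    G b p (fun i => w i + c) = Real.exp (b * c) * G b p w := by
  unfold G
  rw [← integral_const_mul]
  congr 1
  funext x
  rw [mx_shift, ← Real.exp_add]
  congr 1
  ring

theorem Phi_shift {b : ℝ} (hb : 0 < b) (p : ι → Eu d) {μ : ι → ℝ} (hμ1 : ∑ i, μ i = 1)
    (w : ι → ℝ) (c : ℝ) : Phi b p μ (fun i => w i + c) = Phi b p μ w := by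
  unfold Phi
  rw [G_shift, Real.log_mul (Real.exp_pos _).ne' (G_pos hb p w).ne', Real.log_exp]
  have : ∑ i, μ i * (w i + c) = ∑ i, μ i * w i + c := by
    simp_rw [mul_add]
    rw [Finset.sum_add_distrib, ← Finset.sum_mul, hμ1, one_mul]
  rw [this]
  ring

theorem gauss_pos {b : ℝ} (hb : 0 < b) (c : Eu d) {S : Set (Eu d)} (hS : 0 < volume S) :
    0 < ∫ x in S, Real.exp (-b * ‖x - c‖ ^ 2) := by
  rw [setIntegral_pos_iff_support_of_nonneg_ae
    (Eventually.of_forall fun x => (Real.exp_pos _).le) (integrable_gauss b hb c).integrableOn]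
  have : Function.support (fun x => Real.exp (-b * ‖x - c‖ ^ 2)) = Set.univ := by
    ext x
    simp [(Real.exp_pos _).ne']
  rw [this, Set.univ_inter]
  exact hS

theorem Phi_lower {b : ℝ} (hb : 0 < b) (p : ι → Eu d) (μ w : ι → ℝ) (i : ι) :
    b * w i + Real.log (∫ x : Eu d, Real.exp (-b * ‖x - 0‖ ^ 2)) - b * ∑ i, μ i * w i ≤
      Phi b p μ w := by
  unfold Phi
  have h0 : 0 < ∫ x : Eu d, Real.exp (-b * ‖x - 0‖ ^ 2) := by
    have := gauss_pos hb (0 : Eu d) (S := Set.univ) (isOpen_univ.measure_pos _ univ_nonempty)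
    rwa [setIntegral_univ] at this
  have h1 : Real.exp (b * w i) * ∫ x : Eu d, Real.exp (-b * ‖x - 0‖ ^ 2) ≤ G b p w := by
    have e : ∫ x : Eu d, Real.exp (-b * ‖x - 0‖ ^ 2) = ∫ x : Eu d, Real.exp (-b * ‖x - p i‖ ^ 2) := by
      simp_rw [sub_zero]
      exact (integral_sub_right_eq_self (fun x : Eu d => Real.exp (-b * ‖x‖ ^ 2)) (p i)).symm
    rw [e, ← integral_const_mul]
    unfold G
    apply integral_mono ((integrable_gauss b hb (p i)).const_mul _) (integrable_exp_mx b hb p w)
    intro x
    simp only
    rw [← Real.exp_add]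
    apply Real.exp_le_exp.2
    have := le_mx p w x i
    nlinarith
  have h2 := Real.log_le_log (by positivity) h1
  rw [Real.log_mul (Real.exp_pos _).ne' h0.ne', Real.log_exp] at h2
  linarith

theorem exists_min {b : ℝ} (hb : 0 < b) (p : ι → Eu d) {μ : ι → ℝ} (hμ : ∀ i, 0 < μ i)
    (hμ1 : ∑ i, μ i = 1) : ∃ w, ∀ w', Phi b p μ w ≤ Phi b p μ w' := by
  set c0 := Real.log (∫ x : Eu d, Real.exp (-b * ‖x - 0‖ ^ 2)) with hc0
  set A := |Phi b p μ 0 - c0| + 1 with hA
  have hApos : 0 < A := by positivity
  set R := ∑ j, A / (b * μ j) with hR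
  have hRj : ∀ j, A / (b * μ j) ≤ R := fun j =>
    Finset.single_le_sum (f := fun j => A / (b * μ j))
      (fun j _ => by have := hμ j; positivity) (Finset.mem_univ j)
  have hR0 : 0 ≤ R := Finset.sum_nonneg fun j _ => by have := hμ j; positivity
  have hK : IsCompact (Set.Icc (fun _ : ι => -R) (fun _ : ι => (0 : ℝ))) := isCompact_Icc
  have h0 : (0 : ι → ℝ) ∈ Set.Icc (fun _ : ι => -R) (fun _ : ι => (0 : ℝ)) :=
    ⟨fun i => by simpa using hR0, fun i => le_rfl⟩
  obtain ⟨w, hw, hmin⟩ := hK.exists_isMinOn ⟨0, h0⟩ (continuous_Phi hb p μ).continuousOn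
  refine ⟨w, fun w' => ?_⟩
  obtain ⟨i₀, -, hi₀⟩ := Finset.exists_max_image Finset.univ w' Finset.univ_nonempty
  set w'' : ι → ℝ := fun i => w' i + (-w' i₀) with hw''
  have hsh : Phi b p μ w'' = Phi b p μ w' := Phi_shift hb p hμ1 w' _
  rw [← hsh]
  have hle : ∀ i, w'' i ≤ 0 := by
    intro i
    have := hi₀ i (Finset.mem_univ i)
    simp only [hw'']
    linarith
  have hz : w'' i₀ = 0 := by simp [hw'']
  by_cases hmem : w'' ∈ Set.Icc (fun _ : ι => -R) (fun _ : ι => (0 : ℝ))
  · exact hmin hmem
  · have : ∃ j, w'' j < -R := by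
      by_contra hcon
      push Not at hcon
      exact hmem ⟨hcon, hle⟩
    obtain ⟨j, hj⟩ := this
    have h1 := Phi_lower hb p μ w'' i₀
    rw [hz, mul_zero, zero_add, ← hc0] at h1
    have h2 : ∑ i, μ i * w'' i ≤ μ j * w'' j := by
      have h3 : ∑ i, μ i * (-w'' i) ≥ μ j * (-w'' j) :=
        Finset.single_le_sum (f := fun i => μ i * (-w'' i))
          (fun i _ => mul_nonneg (hμ i).le (by linarith [hle i])) (Finset.mem_univ j)
      have h4 : ∑ i, μ i * (-w'' i) = -∑ i, μ i * w'' i := by
        rw [← Finset.sum_neg_distrib]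
        apply Finset.sum_congr rfl
        intro i _
        ring
      linarith
    have hbj : 0 < b * μ j := mul_pos hb (hμ j)
    have h3 : A ≤ b * μ j * R := by
      have := hRj j
      rw [div_le_iff₀ hbj] at this
      linarith
    have h4 : b * μ j * R ≤ -(b * ∑ i, μ i * w'' i) := by
      have h5 : μ j * w'' j ≤ μ j * (-R) := mul_le_mul_of_nonneg_left hj.le (hμ j).le
      have h6 : b * ∑ i, μ i * w'' i ≤ b * (μ j * (-R)) :=
        mul_le_mul_of_nonneg_left (h2.trans h5) hb.le
      linarith
    have h5 : Phi b p μ 0 - c0 ≤ |Phi b p μ 0 - c0| := le_abs_self _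
    have h6 : Phi b p μ w ≤ Phi b p μ 0 := hmin h0
    linarith

/-- optimality of the weights: the cells have the prescribed masses -/
def IsOpt (b : ℝ) (p : ι → Eu d) (μ w : ι → ℝ) : Prop :=
  ∀ i, Real.exp (b * w i) * Zc b p w i = μ i * G b p w

variable [DecidableEq ι]

/-- lowering the weight of one point -/
theorem cell_lower {p : ι → Eu d} {w : ι → ℝ} {i : ι} {h : ℝ} (hh : 0 ≤ h) :
    cell p (Function.update w i (w i - h)) i ⊆ cell p w i := by
  intro x hx j hj
  have := hx j hj
  rw [Function.update_self, Function.update_of_ne hj] at this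
  linarith

theorem exists_opt {b : ℝ} (hb : 0 < b) {p : ι → Eu d} (hp : Function.Injective p) {μ : ι → ℝ}
    (hμ : ∀ i, 0 < μ i) (hμ1 : ∑ i, μ i = 1) : ∃ w, IsOpt b p μ w := by
  obtain ⟨w, hw⟩ := exists_min hb p hμ hμ1
  refine ⟨w, ?_⟩
  have hG := G_pos hb p w
  have hle : ∀ i, Real.exp (b * w i) * Zc b p w i ≤ μ i * G b p w := by
    intro i
    -- the perturbed weights
    let wh : ℝ → ι → ℝ := fun h => Function.update w i (w i - h)
    have key : ∀ h : ℝ, 0 < h → (1 - Real.exp (-(b * h))) *
        (∫ x in cell p (wh h) i, Real.exp (b * w i) * Real.exp (-b * ‖x - p i‖ ^ 2)) ≤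
          b * μ i * h * G b p w := by
      intro h hh
      have hmono : ∀ x, mx p (wh h) x ≤ mx p w x := by
        intro x
        apply mx_le
        intro j
        have := le_mx p w x j
        by_cases hj : j = i
        · subst hj
          simp only [wh, Function.update_self]
          linarith
        · simp only [wh, Function.update_of_ne hj]
          exact this
      have h1 : G b p (wh h) ≤ G b p w - (1 - Real.exp (-(b * h))) *
          (∫ x in cell p (wh h) i, Real.exp (b * w i) * Real.exp (-b * ‖x - p i‖ ^ 2)) := by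
        rw [← integral_indicator (measurableSet_cell _ _ _), ← integral_const_mul]
        unfold G
        rw [← integral_sub (integrable_exp_mx b hb p w)
          ((((integrable_gauss b hb (p i)).const_mul _).indicator
            (measurableSet_cell _ _ _)).const_mul _)]
        apply integral_mono (integrable_exp_mx b hb p _)
        · exact (integrable_exp_mx b hb p w).sub
            ((((integrable_gauss b hb (p i)).const_mul _).indicator
              (measurableSet_cell _ _ _)).const_mul _)
        intro x
        simp only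
        by_cases hx : x ∈ cell p (wh h) i
        · rw [indicator_of_mem hx, mx_of_mem_cell hx, mx_of_mem_cell (cell_lower hh.le hx)]
          simp only [wh, Function.update_self]
          have e1 : Real.exp (b * (w i - h - ‖x - p i‖ ^ 2)) =
              Real.exp (-(b * h)) * (Real.exp (b * w i) * Real.exp (-b * ‖x - p i‖ ^ 2)) := by
            rw [← Real.exp_add, ← Real.exp_add]
            congr 1
            ring
          have e2 : Real.exp (b * (w i - ‖x - p i‖ ^ 2)) =
              Real.exp (b * w i) * Real.exp (-b * ‖x - p i‖ ^ 2) := by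
            rw [← Real.exp_add]
            congr 1
            ring
          rw [e1, e2]
          apply le_of_eq
          ring
        · rw [indicator_of_notMem hx, mul_zero, sub_zero]
          apply Real.exp_le_exp.2
          exact mul_le_mul_of_nonneg_left (hmono x) hb.le
      have h2 : G b p w * Real.exp (-(b * μ i * h)) ≤ G b p (wh h) := by
        have h3 := hw (wh h)
        unfold Phi at h3
        have h4 : ∑ j, μ j * wh h j = ∑ j, μ j * w j - μ i * h := by
          have : ∀ j, μ j * wh h j = μ j * w j - (if j = i then μ i * h else 0) := by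
            intro j
            by_cases hj : j = i
            · subst hj
              simp only [wh, Function.update_self, if_true]
              ring
            · simp only [wh, Function.update_of_ne hj, if_neg hj, sub_zero]
          simp_rw [this]
          rw [Finset.sum_sub_distrib]
          simp
        rw [h4] at h3
        have h5 : Real.log (G b p w) + (-(b * μ i * h)) ≤ Real.log (G b p (wh h)) := by
          nlinarith
        have h6 := Real.exp_le_exp.2 h5
        rwa [Real.exp_add, Real.exp_log hG, Real.exp_log (G_pos hb p _)] at h6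
      have h3 : 1 - b * μ i * h ≤ Real.exp (-(b * μ i * h)) := by
        have := Real.add_one_le_exp (-(b * μ i * h))
        linarith
      have h4 : G b p w * (1 - b * μ i * h) ≤ G b p w * Real.exp (-(b * μ i * h)) :=
        mul_le_mul_of_nonneg_left h3 hG.le
      nlinarith
    -- the limit
    have hlim1 : Tendsto (fun n : ℕ => ∫ x in cell p (wh (1 / ((n : ℝ) + 1))) i,
        Real.exp (b * w i) * Real.exp (-b * ‖x - p i‖ ^ 2)) atTop
        (𝓝 (∫ x in ⋃ n : ℕ, cell p (wh (1 / ((n : ℝ) + 1))) i,
        Real.exp (b * w i) * Real.exp (-b * ‖x - p i‖ ^ 2))) := by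
      apply tendsto_setIntegral_of_monotone (fun n => measurableSet_cell _ _ _)
      · intro m n hmn x hx j hj
        have := hx j hj
        simp only [wh] at this ⊢
        rw [Function.update_self, Function.update_of_ne hj] at this ⊢
        have h1 : 1 / ((n : ℝ) + 1) ≤ 1 / ((m : ℝ) + 1) := by
          apply one_div_le_one_div_of_le (by positivity)
          have : (m : ℝ) ≤ n := by exact_mod_cast hmn
          linarith
        linarith
      · exact ((integrable_gauss b hb (p i)).const_mul _).integrableOn
    have hU : (⋃ n : ℕ, cell p (wh (1 / ((n : ℝ) + 1))) i) = cell p w i := by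
      apply Set.Subset.antisymm
      · exact Set.iUnion_subset fun n => cell_lower (by positivity)
      · intro x hx
        have h1 : ∀ j, ∀ᶠ n : ℕ in atTop, j ≠ i →
            ‖x - p i‖ ^ 2 - (w i - 1 / ((n : ℝ) + 1)) < ‖x - p j‖ ^ 2 - w j := by
          intro j
          by_cases hj : j = i
          · simp [hj]
          · have h2 := hx j hj
            have h3 : Tendsto (fun n : ℕ => ‖x - p i‖ ^ 2 - (w i - 1 / ((n : ℝ) + 1))) atTop
                (𝓝 (‖x - p i‖ ^ 2 - (w i - 0))) :=
              tendsto_const_nhds.sub (tendsto_const_nhds.sub tendsto_one_div_add_atTop_nhds_zero_nat)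
            rw [sub_zero] at h3
            filter_upwards [h3.eventually_lt_const h2] with n hn _
            exact hn
        obtain ⟨n, hn⟩ := (eventually_all.2 h1).exists
        refine Set.mem_iUnion.2 ⟨n, fun j hj => ?_⟩
        simp only [wh]
        rw [Function.update_self, Function.update_of_ne hj]
        exact hn j hj
    rw [hU, integral_const_mul] at hlim1
    have hlim2 : Tendsto (fun n : ℕ => (1 - Real.exp (-(b * (1 / ((n : ℝ) + 1))))) /
        (b * (1 / ((n : ℝ) + 1)))) atTop (𝓝 1) := by
      have h1 : HasDerivAt Real.exp 1 0 := by simpa using Real.hasDerivAt_exp 0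
      have h2 := h1.tendsto_slope_zero
      simp only [zero_add, Real.exp_zero, smul_eq_mul] at h2
      have h3 : Tendsto (fun n : ℕ => -(b * (1 / ((n : ℝ) + 1)))) atTop (𝓝[≠] 0) := by
        rw [tendsto_nhdsWithin_iff]
        constructor
        · have := (tendsto_one_div_add_atTop_nhds_zero_nat (𝕜 := ℝ)).const_mul b
          rw [mul_zero] at this
          simpa using this.neg
        · refine Eventually.of_forall fun n => ?_
          simp only [mem_compl_iff, mem_singleton_iff, neg_eq_zero]
          positivity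
      refine (h2.comp h3).congr fun n => ?_
      simp only [Function.comp]
      have : b * (1 / ((n : ℝ) + 1)) ≠ 0 := by positivity
      field_simp
      ring
    have hlim := hlim2.mul hlim1
    rw [one_mul] at hlim
    apply le_of_tendsto hlim
    refine Eventually.of_forall fun n => ?_
    have hpos : (0 : ℝ) < b * (1 / ((n : ℝ) + 1)) := by positivity
    have := key (1 / ((n : ℝ) + 1)) (by positivity)
    rw [div_mul_eq_mul_div, div_le_iff₀ hpos]
    refine this.trans (le_of_eq ?_)
    ring
  have hsum : ∑ i, Real.exp (b * w i) * Zc b p w i = ∑ i, μ i * G b p w := by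
    rw [← G_eq_sum hb hp, ← Finset.sum_mul, hμ1, one_mul]
  have := (Finset.sum_eq_sum_iff_of_le fun i _ => hle i).1 hsum
  exact fun i => this i (Finset.mem_univ i)

theorem IsOpt.Zc_pos {b : ℝ} (hb : 0 < b) {p : ι → Eu d} {μ : ι → ℝ} (hμ : ∀ i, 0 < μ i)
    {w : ι → ℝ} (h : IsOpt b p μ w) (i : ι) : 0 < Zc b p w i := by
  have h1 := h i
  have h2 : 0 < μ i * G b p w := mul_pos (hμ i) (G_pos hb p w)
  rw [← h1] at h2
  exact (mul_pos_iff_of_pos_left (Real.exp_pos _)).1 h2

/-- the value of the primal problem -/
noncomputable def Psi (b : ℝ) (p : ι → Eu d) (μ w : ι → ℝ) : ℝ :=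
  ∑ i, μ i * Real.log (Zc b p w i / μ i)

theorem IsOpt.Phi_eq {b : ℝ} (hb : 0 < b) {p : ι → Eu d} {μ : ι → ℝ} (hμ : ∀ i, 0 < μ i)
    (hμ1 : ∑ i, μ i = 1) {w : ι → ℝ} (h : IsOpt b p μ w) : Phi b p μ w = Psi b p μ w := by
  unfold Phi Psi
  have h1 : ∀ i, Real.log (Zc b p w i / μ i) = Real.log (G b p w) - b * w i := by
    intro i
    have h2 : Zc b p w i / μ i = G b p w * Real.exp (-(b * w i)) := by
      have h3 := h i
      have := (hμ i).ne'
      rw [div_eq_iff this, mul_right_comm, mul_comm (G b p w), ← h3, mul_right_comm, ← Real.exp_add]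
      simp
    rw [h2, Real.log_mul (G_pos hb p w).ne' (Real.exp_pos _).ne', Real.log_exp]
    ring
  simp_rw [h1, mul_sub]
  rw [Finset.sum_sub_distrib, ← Finset.sum_mul, hμ1, one_mul, Finset.mul_sum]
  congr 1
  apply Finset.sum_congr rfl
  intro i _
  ring

end Pool.Agent.KneserPoly
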