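import Pool.Agent.KneserPoly.Select
import Pool.Agent.KneserMult.Scale

set_option autoImplicit false
set_option linter.unusedSectionVars false

/-! # The Gaussian comparison -/

namespace Pool.Agent.KneserPoly

open MeasureTheory Set Filter Topology Module
open scoped ENNReal InnerProductSpace
open Pool.Agent.KneserMult

variable {ι : Type*} [Fintype ι] [DecidableEq ι]

theorem lift_mono_r {d e : ℕ} (hde : d ≤ e + 2) (m : ℕ) (p q : ι → EuclideanSpace ℝ (Fin d))
    (hpq : ∀ i j, dist (q i) (q j) ≤ dist (p i) (p j)) (r : ι → ℝ) :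
    ∫ z, min (m : ℝ) (cnt (av (fun i => inclE d e (q i)) r z) : ℝ) ≤
      ∫ z, min (m : ℝ) (cnt (av (fun i => inclE d e (p i)) r z) : ℝ) := by
  obtain ⟨e₀⟩ : Nonempty (WithLp 2 (EuclideanSpace ℝ (Fin d) × EuclideanSpace ℝ (Fin e)) →ₗᵢ[ℝ]
      EuclideanSpace ℝ (Fin (d + e))) := by
    apply exists_isometry
    rw [finrank_prodE]
    simp
  have hfin : finrank ℝ (WithLp 2 (EuclideanSpace ℝ (Fin d) × EuclideanSpace ℝ (Fin e))) =
      finrank ℝ (EuclideanSpace ℝ (Fin (d + e))) := by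
    rw [finrank_prodE]
    simp
  let φ := e₀.toLinearIsometryEquiv hfin
  let J : EuclideanSpace ℝ (Fin d) →ₗᵢ[ℝ] EuclideanSpace ℝ (Fin (d + e)) :=
    φ.toLinearIsometry.comp (inclE d e)
  have hdim : ∀ x : ι → EuclideanSpace ℝ (Fin d),
      finrank ℝ (vectorSpan ℝ (Set.range fun i => J (x i))) ≤ d := by
    intro x
    have h1 : vectorSpan ℝ (Set.range fun i => J (x i)) ≤ LinearMap.range J.toLinearMap := by
      rw [vectorSpan_def, Submodule.span_le]
      rintro _ ⟨_, ⟨i, rfl⟩, _, ⟨j, rfl⟩, rfl⟩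
      exact ⟨x i - x j, by simp⟩
    have h2 := Submodule.finrank_mono h1
    have h3 := LinearMap.finrank_range_le J.toLinearMap
    rw [finrank_euclideanSpace_fin] at h3
    omega
  have key := min_mono (p := fun i => J (p i)) (q := fun i => J (q i)) (r := r)
    (fun F hF hsub => Int_mono hF hsub (fun i => J (p i)) (fun i => J (q i)) r
      (fun i j => by rw [J.dist_map, J.dist_map]; exact hpq i j)
      (Or.inr (by have := hdim p; have := hdim q; omega))) m
  have h5 : ∀ x : ι → EuclideanSpace ℝ (Fin d),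
      ∫ z, min (m : ℝ) (cnt (av (fun i => inclE d e (x i)) r z) : ℝ) =
      ∫ z, min (m : ℝ) (cnt (av (fun i => J (x i)) r z) : ℝ) := by
    intro x
    exact (Int_isometry φ (fun i => inclE d e (x i)) r (Gm m)).symm
  rw [h5, h5]
  exact key

theorem min_one_cnt (a : ι → ℝ) :
    min ((1 : ℕ) : ℝ) (cnt a : ℝ) = {a : ι → ℝ | ∃ i, 0 < a i}.indicator (fun _ => (1 : ℝ)) a := by
  by_cases h : ∃ i, 0 < a i
  · rw [indicator_of_mem (by exact h)]
    have h1 : 1 ≤ cnt a := by
      obtain ⟨i, hi⟩ := h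
      exact Finset.card_pos.2 ⟨i, Finset.mem_filter.2 ⟨Finset.mem_univ i, hi⟩⟩
    have h2 : (1 : ℝ) ≤ cnt a := by exact_mod_cast h1
    simp [h2]
  · rw [indicator_of_notMem (by exact h)]
    have h1 : cnt a = 0 := by
      unfold cnt
      rw [Finset.card_eq_zero, Finset.filter_eq_empty_iff]
      intro i _ hi
      exact h ⟨i, hi⟩
    simp [h1]

section

variable {V : Type*} [NormedAddCommGroup V] [InnerProductSpace ℝ V] [FiniteDimensional ℝ V]
  [MeasurableSpace V] [BorelSpace V]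

theorem measurableSet_pos (x : ι → V) (r : ι → ℝ) : MeasurableSet {z | ∃ i, 0 < av x r z i} := by
  have : {z | ∃ i, 0 < av x r z i} = ⋃ i, {z | 0 < av x r z i} := by
    ext z
    simp
  rw [this]
  apply MeasurableSet.iUnion
  intro i
  unfold av
  exact (isOpen_lt (by fun_prop) (by fun_prop)).measurableSet

theorem volume_pos_lt_top (x : ι → V) (r : ι → ℝ) :
    volume {z | ∃ i, 0 < av x r z i} < ⊤ := by
  have h1 : {z | ∃ i, 0 < av x r z i} ⊆ ⋃ i, Metric.closedBall (x i) (Real.sqrt (r i)) := by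
    rintro z ⟨i, hi⟩
    refine Set.mem_iUnion.2 ⟨i, ?_⟩
    rw [mem_closedBall_iff_norm]
    apply Real.le_sqrt_of_sq_le
    unfold av at hi
    linarith
  refine (measure_mono h1).trans_lt ((measure_iUnion_le _).trans_lt ?_)
  rw [tsum_fintype]
  have : ProperSpace V := FiniteDimensional.proper ℝ V
  exact ENNReal.sum_lt_top.2 fun i _ => measure_closedBall_lt_top

theorem integral_min_one (x : ι → V) (r : ι → ℝ) :
    ∫ z, min ((1 : ℕ) : ℝ) (cnt (av x r z) : ℝ) = (volume {z | ∃ i, 0 < av x r z i}).toReal := by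
  simp_rw [min_one_cnt]
  have : ∀ z, {a : ι → ℝ | ∃ i, 0 < a i}.indicator (fun _ => (1 : ℝ)) (av x r z) =
      {z | ∃ i, 0 < av x r z i}.indicator (fun _ => (1 : ℝ)) z := by
    intro z
    by_cases h : ∃ i, 0 < av x r z i
    · rw [indicator_of_mem (by exact h), indicator_of_mem (by exact h)]
    · rw [indicator_of_notMem (by exact h), indicator_of_notMem (by exact h)]
  simp_rw [this]
  rw [integral_indicator (measurableSet_pos x r)]
  simp [Measure.real]

end

/-- the union inequality in the lifted space, in terms of measures -/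
theorem lift_union {d e : ℕ} (hde : d ≤ e + 2) (p q : ι → EuclideanSpace ℝ (Fin d))
    (hpq : ∀ i j, dist (q i) (q j) ≤ dist (p i) (p j)) (r : ι → ℝ) :
    volume {z | ∃ i, 0 < av (fun i => inclE d e (q i)) r z i} ≤
      volume {z | ∃ i, 0 < av (fun i => inclE d e (p i)) r z i} := by
  have h := lift_mono_r hde 1 p q hpq r
  rw [integral_min_one, integral_min_one] at h
  exact (ENNReal.toReal_le_toReal (volume_pos_lt_top _ _).ne (volume_pos_lt_top _ _).ne).1 h

theorem norm_incl_sub {d e : ℕ} (a : Eu d) (x₀ : Eu d) (y : Eu e) :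
    ‖WithLp.toLp 2 (x₀, y) - inclE d e a‖ ^ 2 = ‖x₀ - a‖ ^ 2 + ‖y‖ ^ 2 := by
  change ‖WithLp.toLp 2 (x₀, y) - WithLp.toLp 2 (a, (0 : EuclideanSpace ℝ (Fin e)))‖ ^ 2 = _
  rw [← WithLp.toLp_sub, WithLp.prod_norm_sq_eq_of_L2]
  simp

/-- the Gaussian functional in the lifted space -/
theorem lint_lift {d e : ℕ} [Nonempty ι] {b : ℝ} (hb : 0 < b) (x : ι → Eu d) (w : ι → ℝ) :
    ∫⁻ t in Ioi (0 : ℝ), volume {z | ∃ i,
      0 < av (fun i => inclE d e (x i)) (fun i => w i - Real.log t / b) z i} =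
      (∫⁻ x₀, ENNReal.ofReal (Real.exp (b * mx x w x₀))) *
        ∫⁻ y : Eu e, ENNReal.ofReal (Real.exp (-b * ‖y‖ ^ 2)) := by
  let f : WithLp 2 (Eu d × Eu e) → ℝ≥0∞ := fun z =>
    ENNReal.ofReal (Real.exp (b * mx x w (WithLp.ofLp z).1)) *
      ENNReal.ofReal (Real.exp (-b * ‖(WithLp.ofLp z).2‖ ^ 2))
  have hm1 : Measurable fun x₀ : Eu d => ENNReal.ofReal (Real.exp (b * mx x w x₀)) := by
    apply ENNReal.measurable_ofReal.comp
    have := continuous_mx x w
    have h2 : Continuous fun x₀ : Eu d => Real.exp (b * mx x w x₀) := by fun_prop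
    exact h2.measurable
  have hm2 : Measurable fun y : Eu e => ENNReal.ofReal (Real.exp (-b * ‖y‖ ^ 2)) := by
    apply ENNReal.measurable_ofReal.comp
    have h2 : Continuous fun y : Eu e => Real.exp (-b * ‖y‖ ^ 2) := by fun_prop
    exact h2.measurable
  have hof : Measurable (WithLp.ofLp : WithLp 2 (Eu d × Eu e) → Eu d × Eu e) :=
    (MeasurableEquiv.toLp 2 (Eu d × Eu e)).symm.measurable
  have hf : Measurable f :=
    (hm1.comp (measurable_fst.comp hof)).mul (hm2.comp (measurable_snd.comp hof))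
  have h1 : ∫⁻ z, f z = ∫⁻ t in Ioi (0 : ℝ), volume {z | ∃ i,
      0 < av (fun i => inclE d e (x i)) (fun i => w i - Real.log t / b) z i} := by
    rw [layer hf]
    apply setLIntegral_congr_fun measurableSet_Ioi
    intro t ht
    have ht' : 0 < t := ht
    simp only
    congr 1
    ext z
    obtain ⟨⟨x₀, y⟩, rfl⟩ := (WithLp.toLp_surjective 2) z
    simp only [mem_ofPred_eq, f]
    rw [← ENNReal.ofReal_mul (Real.exp_pos _).le, ← Real.exp_add,
      ENNReal.ofReal_lt_ofReal_iff (Real.exp_pos _)]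
    have e1 : (t < Real.exp (b * mx x w x₀ + -b * ‖y‖ ^ 2)) ↔
        Real.log t / b < mx x w x₀ - ‖y‖ ^ 2 := by
      rw [← Real.log_lt_iff_lt_exp ht', div_lt_iff₀ hb]
      constructor <;> intro h <;> linarith
    rw [e1]
    unfold av
    simp_rw [norm_incl_sub]
    constructor
    · intro h
      obtain ⟨i, hi⟩ := exists_mx x w x₀
      exact ⟨i, by linarith⟩
    · rintro ⟨i, hi⟩
      have := le_mx x w x₀ i
      linarith
  rw [← h1]
  have h2 := (WithLp.volume_preserving_toLp (Eu d) (Eu e)).lintegral_comp_emb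
    (MeasurableEquiv.toLp 2 (Eu d × Eu e)).measurableEmbedding f
  rw [← h2]
  have h3 : (volume : Measure (Eu d × Eu e)) = volume.prod volume := rfl
  rw [h3]
  exact lintegral_prod_mul hm1.aemeasurable hm2.aemeasurable

/-- The Gaussian comparison inequality. -/
theorem G_mono {d : ℕ} [Nonempty ι] {b : ℝ} (hb : 0 < b) (p q : ι → Eu d)
    (hpq : ∀ i j, dist (q i) (q j) ≤ dist (p i) (p j)) (w : ι → ℝ) : G b q w ≤ G b p w := by
  have h1 : (∫⁻ x₀, ENNReal.ofReal (Real.exp (b * mx q w x₀))) *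
        ∫⁻ y : Eu d, ENNReal.ofReal (Real.exp (-b * ‖y‖ ^ 2)) ≤
      (∫⁻ x₀, ENNReal.ofReal (Real.exp (b * mx p w x₀))) *
        ∫⁻ y : Eu d, ENNReal.ofReal (Real.exp (-b * ‖y‖ ^ 2)) := by
    rw [← lint_lift hb, ← lint_lift hb]
    exact lintegral_mono fun t => lift_union (by omega) p q hpq _
  have e : ∀ x : ι → Eu d, ∫⁻ x₀, ENNReal.ofReal (Real.exp (b * mx x w x₀)) =
      ENNReal.ofReal (G b x w) := by
    intro x
    unfold G
    rw [ofReal_integral_eq_lintegral_ofReal (integrable_exp_mx b hb x w)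
      (Eventually.of_forall fun x => (Real.exp_pos _).le)]
  have e2 : ∫⁻ y : Eu d, ENNReal.ofReal (Real.exp (-b * ‖y‖ ^ 2)) =
      ENNReal.ofReal (∫ y : Eu d, Real.exp (-b * ‖y - 0‖ ^ 2)) := by
    rw [ofReal_integral_eq_lintegral_ofReal (integrable_gauss b hb 0)
      (Eventually.of_forall fun x => (Real.exp_pos _).le)]
    simp
  have hpos : 0 < ∫ y : Eu d, Real.exp (-b * ‖y - 0‖ ^ 2) := by
    have := gauss_pos hb (0 : Eu d) (S := Set.univ) (isOpen_univ.measure_pos _ univ_nonempty)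
    rwa [setIntegral_univ] at this
  rw [e, e, e2, ← ENNReal.ofReal_mul (G_pos hb q w).le, ← ENNReal.ofReal_mul (G_pos hb p w).le,
    ENNReal.ofReal_le_ofReal_iff (by have := G_pos hb p w; positivity)] at h1
  exact le_of_mul_le_mul_right h1 hpos

end Pool.Agent.KneserPoly
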