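import Mathlib

set_option autoImplicit false
set_option linter.unusedSectionVars false

/-! # The Prékopa–Leindler inequality -/

namespace Pool.Agent.KneserPoly

open MeasureTheory Set Filter Topology
open scoped ENNReal Pointwise

theorem volume_affine_image (l c : ℝ) (hl : 0 < l) (K : Set ℝ) :
    volume ((fun x => l * x + c) '' K) = ENNReal.ofReal l * volume K := by
  have h1 : (fun x => l * x + c) '' K = c +ᵥ (l • K) := by
    ext y
    simp only [mem_image, mem_vadd_set, mem_smul_set, vadd_eq_add, smul_eq_mul]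
    constructor
    · rintro ⟨x, hx, rfl⟩
      exact ⟨l * x, ⟨x, hx, rfl⟩, by ring⟩
    · rintro ⟨_, ⟨x, hx, rfl⟩, rfl⟩
      exact ⟨x, hx, by ring⟩
  rw [h1, measure_vadd, Measure.addHaar_smul]
  simp [abs_of_pos hl]

/-- One-dimensional Brunn–Minkowski for compact sets. -/
theorem bm_compact {K L C : Set ℝ} (hK : IsCompact K) (hL : IsCompact L) (hK0 : K.Nonempty)
    (hL0 : L.Nonempty) {l m : ℝ} (hl : 0 < l) (hm : 0 < m)
    (h : ∀ x ∈ K, ∀ y ∈ L, l * x + m * y ∈ C) :
    ENNReal.ofReal l * volume K + ENNReal.ofReal m * volume L ≤ volume C := by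
  obtain ⟨k, hk, hkmax⟩ := hK.exists_isGreatest hK0
  obtain ⟨y₀, hy, hymin⟩ := hL.exists_isLeast hL0
  set c := l * k + m * y₀ with hc
  have h1 : ENNReal.ofReal l * volume K ≤ volume (C ∩ Iio c) := by
    rw [← volume_affine_image l (m * y₀) hl K]
    have h2 : (fun x => l * x + m * y₀) '' K ⊆ (C ∩ Iio c) ∪ {c} := by
      rintro _ ⟨x, hx, rfl⟩
      have h3 : l * x + m * y₀ ≤ c := by
        have := hkmax hx
        rw [hc]
        nlinarith
      rcases h3.lt_or_eq with h4 | h4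
      · exact Or.inl ⟨h x hx y₀ hy, h4⟩
      · exact Or.inr h4
    calc volume ((fun x => l * x + m * y₀) '' K) ≤ volume ((C ∩ Iio c) ∪ {c}) := measure_mono h2
      _ ≤ volume (C ∩ Iio c) + volume {c} := measure_union_le _ _
      _ = volume (C ∩ Iio c) := by simp
  have h2 : ENNReal.ofReal m * volume L ≤ volume (C \ Iio c) := by
    rw [← volume_affine_image m (l * k) hm L]
    apply measure_mono
    rintro _ ⟨y, hy', rfl⟩
    refine ⟨?_, ?_⟩
    · have := h k hk y hy'
      convert this using 1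
      ring
    · simp only [mem_Iio, not_lt]
      have := hymin hy'
      rw [hc]
      nlinarith
  calc ENNReal.ofReal l * volume K + ENNReal.ofReal m * volume L
      ≤ volume (C ∩ Iio c) + volume (C \ Iio c) := add_le_add h1 h2
    _ = volume C := measure_inter_add_sdiff _ measurableSet_Iio

theorem volume_le_iSup {A : Set ℝ} (hA : MeasurableSet A) (hA0 : A.Nonempty) (l : ℝ≥0∞) :
    l * volume A ≤ ⨆ K : Set ℝ, ⨆ _ : (K ⊆ A ∧ IsCompact K ∧ K.Nonempty), l * volume K := by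
  obtain ⟨a, ha⟩ := hA0
  rw [hA.measure_eq_iSup_isCompact, ENNReal.mul_iSup]
  refine iSup_le fun K => ?_
  rw [ENNReal.mul_iSup]
  refine iSup_le fun hK => ?_
  rw [ENNReal.mul_iSup]
  refine iSup_le fun hKc => ?_
  have h1 : (insert a K) ⊆ A ∧ IsCompact (insert a K) ∧ (insert a K).Nonempty :=
    ⟨insert_subset ha hK, hKc.insert a, insert_nonempty _ _⟩
  refine le_trans ?_ (le_iSup₂ (f := fun (K : Set ℝ)
    (_ : (K ⊆ A ∧ IsCompact K ∧ K.Nonempty)) => l * volume K) (insert a K) h1)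
  gcongr
  exact subset_insert _ _

/-- One-dimensional Brunn–Minkowski for measurable sets. -/
theorem bm_one {A B C : Set ℝ} (hA : MeasurableSet A) (hB : MeasurableSet B) (hA0 : A.Nonempty)
    (hB0 : B.Nonempty) {l m : ℝ} (hl : 0 < l) (hm : 0 < m)
    (h : ∀ x ∈ A, ∀ y ∈ B, l * x + m * y ∈ C) :
    ENNReal.ofReal l * volume A + ENNReal.ofReal m * volume B ≤ volume C := by
  refine le_trans (add_le_add (volume_le_iSup hA hA0 _) (volume_le_iSup hB hB0 _)) ?_
  obtain ⟨a, ha⟩ := hA0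
  obtain ⟨b, hb⟩ := hB0
  apply ENNReal.biSup_add_biSup_le'
    (p := fun K : Set ℝ => K ⊆ A ∧ IsCompact K ∧ K.Nonempty)
    (q := fun K : Set ℝ => K ⊆ B ∧ IsCompact K ∧ K.Nonempty)
    ⟨{a}, by simpa using ha, isCompact_singleton, singleton_nonempty _⟩
    ⟨{b}, by simpa using hb, isCompact_singleton, singleton_nonempty _⟩
  rintro K ⟨hKA, hKc, hK0⟩ L ⟨hLB, hLc, hL0⟩
  exact bm_compact hKc hLc hK0 hL0 hl hm fun x hx y hy => h x (hKA hx) y (hLB hy)

/-- layer-cake -/
theorem layer {α : Type*} [MeasurableSpace α] {μ : Measure α} [SFinite μ] {f : α → ℝ≥0∞}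
    (hf : Measurable f) :
    ∫⁻ x, f x ∂μ = ∫⁻ t in Ioi (0 : ℝ), μ {x | ENNReal.ofReal t < f x} := by
  have h1 : ∀ x, f x = ∫⁻ t in Ioi (0 : ℝ), {x | ENNReal.ofReal t < f x}.indicator 1 x := by
    intro x
    have h2 : ∀ t : ℝ, {x | ENNReal.ofReal t < f x}.indicator (1 : α → ℝ≥0∞) x =
        {t : ℝ | ENNReal.ofReal t < f x}.indicator 1 t := by
      intro t
      simp [indicator_apply]
    simp_rw [h2]
    have hm : MeasurableSet {t : ℝ | ENNReal.ofReal t < f x} :=
      measurableSet_lt ENNReal.measurable_ofReal measurable_const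
    rw [lintegral_indicator_one hm, Measure.restrict_apply hm]
    by_cases hx : f x = ⊤
    · rw [hx]
      have : {t : ℝ | ENNReal.ofReal t < ⊤} ∩ Ioi 0 = Ioi 0 := by
        ext t
        simp
      rw [this]
      simp
    · have : {t : ℝ | ENNReal.ofReal t < f x} ∩ Ioi 0 = Ioo 0 (f x).toReal := by
        ext t
        simp only [mem_inter_iff, mem_ofPred_eq, mem_Ioi, mem_Ioo]
        constructor
        · rintro ⟨h3, h4⟩
          exact ⟨h4, (ENNReal.ofReal_lt_iff_lt_toReal h4.le hx).1 h3⟩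
        · rintro ⟨h3, h4⟩
          exact ⟨(ENNReal.ofReal_lt_iff_lt_toReal h3.le hx).2 h4, h3⟩
      rw [this, Real.volume_Ioo, sub_zero, ENNReal.ofReal_toReal hx]
  have h3 : MeasurableSet {p : α × ℝ | ENNReal.ofReal p.2 < f p.1} :=
    measurableSet_lt (ENNReal.measurable_ofReal.comp measurable_snd) (hf.comp measurable_fst)
  calc ∫⁻ x, f x ∂μ = ∫⁻ x, (∫⁻ t in Ioi (0 : ℝ),
          {x | ENNReal.ofReal t < f x}.indicator 1 x) ∂μ := lintegral_congr h1
    _ = ∫⁻ t in Ioi (0 : ℝ), (∫⁻ x, {x | ENNReal.ofReal t < f x}.indicator 1 x ∂μ) := by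
        rw [lintegral_lintegral_swap]
        apply Measurable.aemeasurable
        have : (Function.uncurry fun (x : α) (t : ℝ) =>
            {x | ENNReal.ofReal t < f x}.indicator (1 : α → ℝ≥0∞) x) =
            {p : α × ℝ | ENNReal.ofReal p.2 < f p.1}.indicator 1 := by
          funext p
          simp [Function.uncurry, indicator_apply]
        rw [this]
        exact measurable_one.indicator h3
    _ = ∫⁻ t in Ioi (0 : ℝ), μ {x | ENNReal.ofReal t < f x} := by
        apply lintegral_congr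
        intro t
        rw [lintegral_indicator_one]
        exact measurableSet_lt measurable_const hf

/-- weighted AM-GM in `ℝ≥0∞` -/
theorem amgm {a b : ℝ≥0∞} {l m : ℝ} (hl : 0 < l) (hm : 0 < m) (hlm : l + m = 1) :
    a ^ l * b ^ m ≤ ENNReal.ofReal l * a + ENNReal.ofReal m * b := by
  have hl' : ENNReal.ofReal l ≠ 0 := by simpa using hl
  have hm' : ENNReal.ofReal m ≠ 0 := by simpa using hm
  by_cases ha : a = ⊤
  · rw [ha, ENNReal.mul_top hl', top_add]
    exact le_top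
  by_cases hb : b = ⊤
  · rw [hb, ENNReal.mul_top hm', add_top]
    exact le_top
  lift a to NNReal using ha
  lift b to NNReal using hb
  have key := NNReal.geom_mean_le_arith_mean2_weighted l.toNNReal m.toNNReal a b
    (by rw [← Real.toNNReal_add hl.le hm.le, hlm, Real.toNNReal_one])
  rw [Real.coe_toNNReal _ hl.le, Real.coe_toNNReal _ hm.le] at key
  rw [← ENNReal.coe_rpow_of_nonneg _ hl.le, ← ENNReal.coe_rpow_of_nonneg _ hm.le]
  unfold ENNReal.ofReal
  exact_mod_cast key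

/-- the normalised one-dimensional case -/
theorem pl_one_norm {f g h : ℝ → ℝ≥0∞} (hf : Measurable f) (hg : Measurable g)
    (hh : Measurable h) {l m : ℝ} (hl : 0 < l) (hm : 0 < m) (hlm : l + m = 1)
    (H : ∀ x y, f x ^ l * g y ^ m ≤ h (l * x + m * y)) (hF : ⨆ x, f x = 1) (hG : ⨆ x, g x = 1) :
    (∫⁻ x, f x) ^ l * (∫⁻ x, g x) ^ m ≤ ∫⁻ x, h x := by
  refine (amgm hl hm hlm).trans ?_
  have hcut : ∀ u : ℝ → ℝ≥0∞, (⨆ x, u x = 1) → ∀ t : ℝ, t ∉ Iio (1 : ℝ) →
      volume {x | ENNReal.ofReal t < u x} = 0 := by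
    intro u hu t ht
    have : {x | ENNReal.ofReal t < u x} = ∅ := by
      ext x
      simp only [mem_ofPred_eq, mem_empty_iff_false, iff_false, not_lt]
      calc u x ≤ ⨆ x, u x := le_iSup u x
        _ = 1 := hu
        _ ≤ ENNReal.ofReal t := by
          rw [mem_Iio, not_lt] at ht
          simpa using ht
    rw [this, measure_empty]
  have hm1 : ∀ u : ℝ → ℝ≥0∞, Measurable u →
      Measurable fun t : ℝ => volume {x | ENNReal.ofReal t < u x} := by
    intro u hu
    have h3 : MeasurableSet {p : ℝ × ℝ | ENNReal.ofReal p.1 < u p.2} :=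
      measurableSet_lt (ENNReal.measurable_ofReal.comp measurable_fst) (hu.comp measurable_snd)
    exact measurable_measure_prodMk_left h3
  rw [layer hf, layer hg, layer hh, ← lintegral_const_mul _ (hm1 f hf),
    ← lintegral_const_mul _ (hm1 g hg), ← lintegral_add_left ((hm1 f hf).const_mul _)]
  apply setLIntegral_mono (hm1 h hh)
  intro t ht
  by_cases ht1 : t ∈ Iio (1 : ℝ)
  · have hne : ∀ u : ℝ → ℝ≥0∞, (⨆ x, u x = 1) → {x | ENNReal.ofReal t < u x}.Nonempty := by
      intro u hu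
      have : ENNReal.ofReal t < ⨆ x, u x := by
        rw [hu]
        simpa using ht1
      obtain ⟨x, hx⟩ := lt_iSup_iff.1 this
      exact ⟨x, hx⟩
    apply bm_one (measurableSet_lt measurable_const hf) (measurableSet_lt measurable_const hg)
      (hne f hF) (hne g hG) hl hm
    intro x hx y hy
    simp only [mem_ofPred_eq] at hx hy ⊢
    refine lt_of_lt_of_le ?_ (H x y)
    have h1 : ENNReal.ofReal t = ENNReal.ofReal t ^ l * ENNReal.ofReal t ^ m := by
      rw [← ENNReal.rpow_add_of_nonneg _ _ hl.le hm.le, hlm, ENNReal.rpow_one]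
    rw [h1]
    exact ENNReal.mul_lt_mul (ENNReal.rpow_lt_rpow hx hl) (ENNReal.rpow_lt_rpow hy hm)
  · rw [hcut f hF t ht1, hcut g hG t ht1]
    simp

/-- the bounded one-dimensional case -/
theorem pl_one_bdd {f g h : ℝ → ℝ≥0∞} (hf : Measurable f) (hg : Measurable g)
    (hh : Measurable h) {l m : ℝ} (hl : 0 < l) (hm : 0 < m) (hlm : l + m = 1)
    (H : ∀ x y, f x ^ l * g y ^ m ≤ h (l * x + m * y)) (hF : ⨆ x, f x ≠ ⊤) (hG : ⨆ x, g x ≠ ⊤) :
    (∫⁻ x, f x) ^ l * (∫⁻ x, g x) ^ m ≤ ∫⁻ x, h x := by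
  by_cases hF0 : ⨆ x, f x = 0
  · have : ∀ x, f x = 0 := by simpa using hF0
    simp [this, hl]
  by_cases hG0 : ⨆ x, g x = 0
  · have : ∀ x, g x = 0 := by simpa using hG0
    simp [this, hm]
  set F := ⨆ x, f x with hFdef
  set G := ⨆ x, g x with hGdef
  have key := pl_one_norm (f := fun x => F⁻¹ * f x) (g := fun x => G⁻¹ * g x)
    (h := fun x => (F ^ l * G ^ m)⁻¹ * h x) (hf.const_mul _) (hg.const_mul _) (hh.const_mul _)
    hl hm hlm (by
      intro x y
      rw [ENNReal.mul_rpow_of_nonneg _ _ hl.le, ENNReal.mul_rpow_of_nonneg _ _ hm.le,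
        ENNReal.inv_rpow, ENNReal.inv_rpow, ENNReal.mul_inv (Or.inr (by finiteness))
        (Or.inr (by simp [hG0, hG]))]
      calc (F ^ l)⁻¹ * f x ^ l * ((G ^ m)⁻¹ * g y ^ m)
          = (F ^ l)⁻¹ * (G ^ m)⁻¹ * (f x ^ l * g y ^ m) := by ring
        _ ≤ (F ^ l)⁻¹ * (G ^ m)⁻¹ * h (l * x + m * y) := by gcongr; exact H x y)
    (by rw [← ENNReal.mul_iSup, ENNReal.inv_mul_cancel hF0 hF])
    (by rw [← ENNReal.mul_iSup, ENNReal.inv_mul_cancel hG0 hG])
  rw [lintegral_const_mul _ hf, lintegral_const_mul _ hg, lintegral_const_mul _ hh,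
    ENNReal.mul_rpow_of_nonneg _ _ hl.le, ENNReal.mul_rpow_of_nonneg _ _ hm.le,
        ENNReal.inv_rpow, ENNReal.inv_rpow] at key
  have hFl : F ^ l ≠ 0 := by simp [hF0, hF]
  have hFl' : F ^ l ≠ ⊤ := by finiteness
  have hGm : G ^ m ≠ 0 := by simp [hG0, hG]
  have hGm' : G ^ m ≠ ⊤ := by finiteness
  have h0 : F ^ l * G ^ m ≠ 0 := mul_ne_zero hFl hGm
  have h1 : F ^ l * G ^ m ≠ ⊤ := ENNReal.mul_ne_top hFl' hGm'
  calc (∫⁻ x, f x) ^ l * (∫⁻ x, g x) ^ m
      = (F ^ l * (F ^ l)⁻¹) * (G ^ m * (G ^ m)⁻¹) * ((∫⁻ x, f x) ^ l * (∫⁻ x, g x) ^ m) := by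
        rw [ENNReal.mul_inv_cancel hFl hFl', ENNReal.mul_inv_cancel hGm hGm']
        simp
    _ = F ^ l * G ^ m * ((F ^ l)⁻¹ * (∫⁻ x, f x) ^ l * ((G ^ m)⁻¹ * (∫⁻ x, g x) ^ m)) := by ring
    _ ≤ F ^ l * G ^ m * ((F ^ l * G ^ m)⁻¹ * ∫⁻ x, h x) := by gcongr
    _ = ∫⁻ x, h x := by
        rw [← mul_assoc, ENNReal.mul_inv_cancel h0 h1, one_mul]

theorem lintegral_trunc {α : Type*} [MeasurableSpace α] {μ : Measure α} {f : α → ℝ≥0∞}
    (hf : Measurable f) :
    Tendsto (fun N : ℕ => ∫⁻ x, min (f x) N ∂μ) atTop (𝓝 (∫⁻ x, f x ∂μ)) := by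
  apply lintegral_tendsto_of_tendsto_of_monotone
  · intro n
    exact (hf.min measurable_const).aemeasurable
  · refine Eventually.of_forall fun x n m hnm => ?_
    simp only
    gcongr
  · refine Eventually.of_forall fun x => ?_
    have h1 : Tendsto (fun n : ℕ => min (f x) (n : ℝ≥0∞)) atTop (𝓝 (min (f x) ⊤)) :=
      tendsto_const_nhds.min ENNReal.tendsto_nat_nhds_top
    simpa using h1

/-- the Prékopa–Leindler inequality on the line -/
theorem pl_one {f g h : ℝ → ℝ≥0∞} (hf : Measurable f) (hg : Measurable g)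
    (hh : Measurable h) {l m : ℝ} (hl : 0 < l) (hm : 0 < m) (hlm : l + m = 1)
    (H : ∀ x y, f x ^ l * g y ^ m ≤ h (l * x + m * y)) :
    (∫⁻ x, f x) ^ l * (∫⁻ x, g x) ^ m ≤ ∫⁻ x, h x := by
  have key : ∀ N : ℕ, (∫⁻ x, min (f x) N) ^ l * (∫⁻ x, min (g x) N) ^ m ≤ ∫⁻ x, h x := by
    intro N
    apply pl_one_bdd (hf.min measurable_const) (hg.min measurable_const) hh hl hm hlm
    · intro x y
      refine le_trans ?_ (H x y)
      gcongr <;> exact min_le_left _ _
    · exact ((iSup_le fun x => min_le_right _ _).trans_lt (ENNReal.natCast_lt_top N)).ne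
    · exact ((iSup_le fun x => min_le_right _ _).trans_lt (ENNReal.natCast_lt_top N)).ne
  by_cases h0 : ∫⁻ x, f x = 0
  · rw [h0]
    simp [hl]
  by_cases h1 : ∫⁻ x, g x = 0
  · rw [h1]
    simp [hm]
  have t1 := (ENNReal.continuous_rpow_const (y := l)).continuousAt.tendsto.comp
    (lintegral_trunc (μ := volume) hf)
  have t2 := (ENNReal.continuous_rpow_const (y := m)).continuousAt.tendsto.comp
    (lintegral_trunc (μ := volume) hg)
  refine le_of_tendsto (ENNReal.Tendsto.mul t1 (Or.inl ?_) t2 (Or.inl ?_))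
    (Eventually.of_forall key)
  · simp [h0, hl.le]
  · simp [h1, hm.le]

/-- the Prékopa–Leindler inequality -/
theorem pl_pi {n : ℕ} {f g h : (Fin n → ℝ) → ℝ≥0∞} (hf : Measurable f) (hg : Measurable g)
    (hh : Measurable h) {l m : ℝ} (hl : 0 < l) (hm : 0 < m) (hlm : l + m = 1)
    (H : ∀ x y, f x ^ l * g y ^ m ≤ h (l • x + m • y)) :
    (∫⁻ x, f x) ^ l * (∫⁻ x, g x) ^ m ≤ ∫⁻ x, h x := by
  induction n with
  | zero =>
    rw [Measure.volume_pi_eq_dirac 0]
    simp only [lintegral_dirac]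
    simpa using H 0 0
  | succ n ih =>
    have e := volume_preserving_piFinSuccAbove (fun _ : Fin (n + 1) => ℝ) 0
    have hint : ∀ u : (Fin (n + 1) → ℝ) → ℝ≥0∞, Measurable u →
        ∫⁻ x, u x = ∫⁻ s : ℝ, ∫⁻ y : Fin n → ℝ, u (Fin.cons s y) := by
      intro u hu
      have h1 := e.symm.lintegral_comp_emb
        (MeasurableEquiv.piFinSuccAbove (fun _ : Fin (n + 1) => ℝ) 0).symm.measurableEmbedding u
      rw [← h1, Measure.volume_eq_prod, lintegral_prod]
      · have h2 : ∀ (s : ℝ) (y : Fin n → ℝ),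
            (MeasurableEquiv.piFinSuccAbove (fun _ : Fin (n + 1) => ℝ) 0).symm (s, y) =
              Fin.cons s y := by
          intro s y
          simp [MeasurableEquiv.piFinSuccAbove]
          rfl
        simp_rw [h2]
      · exact (hu.comp (MeasurableEquiv.measurable _)).aemeasurable
    have hcons : Measurable fun p : ℝ × (Fin n → ℝ) => (Fin.cons p.1 p.2 : Fin (n + 1) → ℝ) := by
      rw [measurable_pi_iff]
      intro i
      refine Fin.cases ?_ (fun i => ?_) i
      · simpa using measurable_fst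
      · simp only [Fin.cons_succ]
        exact (measurable_pi_apply i).comp measurable_snd
    have hmeas : ∀ u : (Fin (n + 1) → ℝ) → ℝ≥0∞, Measurable u →
        Measurable fun s : ℝ => ∫⁻ y : Fin n → ℝ, u (Fin.cons s y) := by
      intro u hu
      exact (hu.comp hcons).lintegral_prod_right'
    rw [hint f hf, hint g hg, hint h hh]
    apply pl_one (hmeas f hf) (hmeas g hg) (hmeas h hh) hl hm hlm
    intro s t
    have hc : ∀ s : ℝ, Measurable fun y : Fin n → ℝ => (Fin.cons s y : Fin (n + 1) → ℝ) :=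
      fun s => hcons.comp (measurable_const.prodMk measurable_id)
    apply ih (hf.comp (hc s)) (hg.comp (hc t)) (hh.comp (hc (l * s + m * t)))
    intro x y
    refine (H (Fin.cons s x) (Fin.cons t y)).trans (le_of_eq ?_)
    congr 1
    funext i
    refine Fin.cases ?_ (fun i => ?_) i
    · simp
    · simp

/-- the Prékopa–Leindler inequality in Euclidean space -/
theorem pl {n : ℕ} {f g h : EuclideanSpace ℝ (Fin n) → ℝ≥0∞} (hf : Measurable f)
    (hg : Measurable g) (hh : Measurable h) {l m : ℝ} (hl : 0 < l) (hm : 0 < m)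
    (hlm : l + m = 1) (H : ∀ x y, f x ^ l * g y ^ m ≤ h (l • x + m • y)) :
    (∫⁻ x, f x) ^ l * (∫⁻ x, g x) ^ m ≤ ∫⁻ x, h x := by
  have hint : ∀ u : EuclideanSpace ℝ (Fin n) → ℝ≥0∞,
      ∫⁻ x, u x = ∫⁻ y : Fin n → ℝ, u (WithLp.toLp 2 y) := by
    intro u
    exact ((PiLp.volume_preserving_toLp (Fin n)).lintegral_comp_emb
      (MeasurableEquiv.toLp 2 (Fin n → ℝ)).measurableEmbedding u).symm
  rw [hint f, hint g, hint h]
  have ht : Measurable (WithLp.toLp 2 : (Fin n → ℝ) → EuclideanSpace ℝ (Fin n)) :=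
    (MeasurableEquiv.toLp 2 (Fin n → ℝ)).measurable
  exact pl_pi (hf.comp ht) (hg.comp ht) (hh.comp ht) hl hm hlm fun x y => H _ _

end Pool.Agent.KneserPoly
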