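import Pool.Agent.KneserPoly.PL

set_option autoImplicit false
set_option linter.unusedSectionVars false

/-! # Power diagrams -/

namespace Pool.Agent.KneserPoly

open MeasureTheory Set Filter Topology
open scoped ENNReal InnerProductSpace

/-- Euclidean space -/
abbrev Eu (d : ℕ) := EuclideanSpace ℝ (Fin d)

variable {ι : Type*} [Fintype ι] {d : ℕ}

/-- the open power cell of the point `p i` with weights `w` -/
def cell (p : ι → Eu d) (w : ι → ℝ) (i : ι) : Set (Eu d) :=
  {x | ∀ j, j ≠ i → ‖x - p i‖ ^ 2 - w i < ‖x - p j‖ ^ 2 - w j}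

theorem mem_cell {p : ι → Eu d} {w : ι → ℝ} {i : ι} {x : Eu d} :
    x ∈ cell p w i ↔ ∀ j, j ≠ i → ‖x - p i‖ ^ 2 - w i < ‖x - p j‖ ^ 2 - w j := Iff.rfl

theorem isOpen_cell (p : ι → Eu d) (w : ι → ℝ) (i : ι) : IsOpen (cell p w i) := by
  have : cell p w i = ⋂ j, {x | j ≠ i → ‖x - p i‖ ^ 2 - w i < ‖x - p j‖ ^ 2 - w j} := by
    ext x
    simp [mem_cell]
  rw [this]
  apply isOpen_iInter_of_finite
  intro j
  by_cases hj : j = i
  · simp [hj]
  · simp only [ne_eq, hj, not_false_eq_true, forall_const]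
    exact isOpen_lt (by fun_prop) (by fun_prop)

theorem measurableSet_cell (p : ι → Eu d) (w : ι → ℝ) (i : ι) : MeasurableSet (cell p w i) :=
  (isOpen_cell p w i).measurableSet

theorem cell_disjoint (p : ι → Eu d) (w : ι → ℝ) {i j : ι} (hij : i ≠ j) :
    Disjoint (cell p w i) (cell p w j) := by
  rw [Set.disjoint_left]
  intro x hi hj
  have h1 := hi j hij.symm
  have h2 := hj i hij
  linarith

theorem norm_interp (x y p : Eu d) {l m : ℝ} (hlm : l + m = 1) :
    ‖l • x + m • y - p‖ ^ 2 = l * ‖x - p‖ ^ 2 + m * ‖y - p‖ ^ 2 - l * m * ‖x - y‖ ^ 2 := by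
  have h1 : l • x + m • y - p = l • (x - p) + m • (y - p) := by
    have : p = (l + m) • p := by rw [hlm, one_smul]
    rw [smul_sub, smul_sub]
    conv_lhs => rw [this, add_smul]
    abel
  have h2 : x - y = (x - p) - (y - p) := by abel
  rw [h1, h2, ← real_inner_self_eq_norm_sq, ← real_inner_self_eq_norm_sq (x - p),
    ← real_inner_self_eq_norm_sq (y - p), ← real_inner_self_eq_norm_sq (x - p - (y - p))]
  simp only [inner_add_left, inner_add_right, inner_sub_left, inner_sub_right,
    real_inner_smul_left, real_inner_smul_right]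
  have hm : m = 1 - l := by linarith
  subst hm
  rw [real_inner_comm x y, real_inner_comm x p, real_inner_comm y p]
  ring

theorem cell_interp {p : ι → Eu d} {w w' : ι → ℝ} {i : ι} {x y : Eu d} (hx : x ∈ cell p w i)
    (hy : y ∈ cell p w' i) {l m : ℝ} (hl : 0 < l) (hm : 0 < m) (hlm : l + m = 1) :
    l • x + m • y ∈ cell p (fun j => l * w j + m * w' j) i := by
  intro j hj
  have h1 := hx j hj
  have h2 := hy j hj
  rw [norm_interp x y (p i) hlm, norm_interp x y (p j) hlm]
  nlinarith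

theorem self_mem_cell {p : ι → Eu d} (hp : Function.Injective p) (i : ι) :
    p i ∈ cell p (fun _ => 0) i := by
  intro j hj
  have h1 : p i - p j ≠ 0 := sub_ne_zero.2 fun h => hj (hp h).symm
  have h2 : 0 < ‖p i - p j‖ := norm_pos_iff.2 h1
  rw [sub_self, norm_zero]
  nlinarith [sq_pos_of_pos h2]

theorem null_tie {p q : Eu d} (hpq : p ≠ q) (a c : ℝ) :
    volume {x : Eu d | ‖x - p‖ ^ 2 - a = ‖x - q‖ ^ 2 - c} = 0 := by
  by_cases hne : ({x : Eu d | ‖x - p‖ ^ 2 - a = ‖x - q‖ ^ 2 - c}).Nonempty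
  · obtain ⟨x₀, hx₀⟩ := hne
    simp only [mem_ofPred_eq] at hx₀
    let K : Submodule ℝ (Eu d) := LinearMap.ker (innerSL ℝ (q - p)).toLinearMap
    have hK : K ≠ ⊤ := by
      intro h
      have h1 : q - p ∈ K := by rw [h]; trivial
      rw [LinearMap.mem_ker] at h1
      have h2 : ⟪q - p, q - p⟫_ℝ = 0 := h1
      rw [inner_self_eq_zero, sub_eq_zero] at h2
      exact hpq h2.symm
    have hsub : {x : Eu d | ‖x - p‖ ^ 2 - a = ‖x - q‖ ^ 2 - c} ⊆
        (AffineSubspace.mk' x₀ K : Set (Eu d)) := by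
      intro x hx
      simp only [mem_ofPred_eq] at hx
      rw [SetLike.mem_coe, AffineSubspace.mem_mk', vsub_eq_sub, LinearMap.mem_ker]
      change ⟪q - p, x - x₀⟫_ℝ = 0
      have e : ∀ z : Eu d, ‖z - p‖ ^ 2 - ‖z - q‖ ^ 2 =
          2 * ⟪q - p, z⟫_ℝ + ‖p‖ ^ 2 - ‖q‖ ^ 2 := by
        intro z
        rw [norm_sub_sq_real, norm_sub_sq_real, inner_sub_left, real_inner_comm z q,
          real_inner_comm z p]
        ring
      have e1 := e x
      have e2 := e x₀
      rw [inner_sub_right]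
      linarith
    apply measure_mono_null hsub
    apply Measure.addHaar_affineSubspace
    intro h
    apply hK
    have := congrArg AffineSubspace.direction h
    rwa [AffineSubspace.direction_mk', AffineSubspace.direction_top] at this
  · rw [Set.not_nonempty_iff_eq_empty.1 hne, measure_empty]

theorem ae_mem_cell [Nonempty ι] {p : ι → Eu d} (hp : Function.Injective p) (w : ι → ℝ) :
    ∀ᵐ x : Eu d, ∃ i, x ∈ cell p w i := by
  have h1 : ∀ᵐ x : Eu d, ∀ i j, i ≠ j → ‖x - p i‖ ^ 2 - w i ≠ ‖x - p j‖ ^ 2 - w j := by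
    rw [ae_all_iff]
    intro i
    rw [ae_all_iff]
    intro j
    by_cases hij : i = j
    · simp [hij]
    · have := measure_eq_zero_iff_ae_notMem.1 (null_tie (fun h => hij (hp h)) (w i) (w j) (p := p i)
        (q := p j))
      filter_upwards [this] with x hx _
      exact hx
  filter_upwards [h1] with x hx
  obtain ⟨i, -, hi⟩ := Finset.exists_min_image Finset.univ (fun i => ‖x - p i‖ ^ 2 - w i)
    Finset.univ_nonempty
  refine ⟨i, fun j hj => ?_⟩
  exact lt_of_le_of_ne (hi j (Finset.mem_univ j)) (hx i j hj.symm)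

section max

variable [Nonempty ι]

/-- the maximum of the functions `w i - |x - p i|²` -/
noncomputable def mx (p : ι → Eu d) (w : ι → ℝ) (x : Eu d) : ℝ :=
  Finset.univ.sup' Finset.univ_nonempty fun i => w i - ‖x - p i‖ ^ 2

theorem le_mx (p : ι → Eu d) (w : ι → ℝ) (x : Eu d) (i : ι) : w i - ‖x - p i‖ ^ 2 ≤ mx p w x :=
  Finset.le_sup' (fun i => w i - ‖x - p i‖ ^ 2) (Finset.mem_univ i)

theorem mx_le {p : ι → Eu d} {w : ι → ℝ} {x : Eu d} {a : ℝ} (h : ∀ i, w i - ‖x - p i‖ ^ 2 ≤ a) :
    mx p w x ≤ a := Finset.sup'_le _ _ fun i _ => h i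

theorem mx_of_mem_cell {p : ι → Eu d} {w : ι → ℝ} {x : Eu d} {i : ι} (h : x ∈ cell p w i) :
    mx p w x = w i - ‖x - p i‖ ^ 2 := by
  apply le_antisymm _ (le_mx p w x i)
  apply mx_le
  intro j
  by_cases hj : j = i
  · rw [hj]
  · have := h j hj
    linarith

theorem continuous_mx (p : ι → Eu d) (w : ι → ℝ) : Continuous (mx p w) := by
  unfold mx
  apply Continuous.finset_sup'_apply
  intro i _
  fun_prop

theorem exists_mx (p : ι → Eu d) (w : ι → ℝ) (x : Eu d) : ∃ i, mx p w x = w i - ‖x - p i‖ ^ 2 := by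
  obtain ⟨i, -, hi⟩ := Finset.exists_mem_eq_sup' (s := Finset.univ) Finset.univ_nonempty
    fun i => w i - ‖x - p i‖ ^ 2
  exact ⟨i, hi⟩

end max

theorem integrable_gauss (b : ℝ) (hb : 0 < b) (c : Eu d) :
    Integrable fun x : Eu d => Real.exp (-b * ‖x - c‖ ^ 2) := by
  have h1 := (GaussianFourier.integrable_cexp_neg_mul_sq_norm_add (V := Eu d) (b := (b : ℂ))
    (by simpa using hb) 0 0).norm
  have h2 : Integrable fun x : Eu d => Real.exp (-b * ‖x‖ ^ 2) := by
    refine h1.congr (Eventually.of_forall fun x => ?_)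
    simp only [Complex.norm_exp]
    congr 1
    simp [← Complex.ofReal_pow]
  exact h2.comp_sub_right c

section

variable [Nonempty ι]

theorem integrable_exp_mx (b : ℝ) (hb : 0 < b) (p : ι → Eu d) (w : ι → ℝ) :
    Integrable fun x => Real.exp (b * mx p w x) := by
  have h1 : Integrable fun x => ∑ i, Real.exp (b * w i) * Real.exp (-b * ‖x - p i‖ ^ 2) :=
    integrable_finsetSum _ fun i _ => (integrable_gauss b hb (p i)).const_mul _
  refine h1.mono' (by have := continuous_mx p w; fun_prop) (Eventually.of_forall fun x => ?_)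
  rw [Real.norm_eq_abs, abs_of_pos (Real.exp_pos _)]
  obtain ⟨i, hi⟩ := exists_mx p w x
  rw [hi]
  refine le_trans (le_of_eq ?_) (Finset.single_le_sum (f := fun i =>
    Real.exp (b * w i) * Real.exp (-b * ‖x - p i‖ ^ 2)) (fun i _ => by positivity)
    (Finset.mem_univ i))
  rw [← Real.exp_add]
  congr 1
  ring

/-- the functional -/
noncomputable def G (b : ℝ) (p : ι → Eu d) (w : ι → ℝ) : ℝ := ∫ x, Real.exp (b * mx p w x)

/-- the mass of a cell -/
noncomputable def Zc (b : ℝ) (p : ι → Eu d) (w : ι → ℝ) (i : ι) : ℝ :=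
  ∫ x in cell p w i, Real.exp (-b * ‖x - p i‖ ^ 2)

theorem G_pos {b : ℝ} (hb : 0 < b) (p : ι → Eu d) (w : ι → ℝ) : 0 < G b p w := by
  unfold G
  rw [integral_pos_iff_support_of_nonneg (fun x => (Real.exp_pos _).le)
    (integrable_exp_mx b hb p w)]
  have : Function.support (fun x => Real.exp (b * mx p w x)) = Set.univ := by
    ext x
    simp [(Real.exp_pos _).ne']
  rw [this]
  exact isOpen_univ.measure_pos _ univ_nonempty

theorem G_eq_sum {b : ℝ} (hb : 0 < b) {p : ι → Eu d} (hp : Function.Injective p) (w : ι → ℝ) :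
    G b p w = ∑ i, Real.exp (b * w i) * Zc b p w i := by
  unfold G Zc
  have h1 : ∀ᵐ x : Eu d, Real.exp (b * mx p w x) =
      ∑ i, (cell p w i).indicator (fun x => Real.exp (b * w i) * Real.exp (-b * ‖x - p i‖ ^ 2)) x := by
    filter_upwards [ae_mem_cell hp w] with x hx
    obtain ⟨i, hi⟩ := hx
    rw [mx_of_mem_cell hi, Finset.sum_eq_single i]
    · rw [indicator_of_mem hi, ← Real.exp_add]
      congr 1
      ring
    · intro j _ hj
      rw [indicator_of_notMem]
      intro hx
      exact Set.disjoint_left.1 (cell_disjoint p w hj) hx hi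
    · simp
  rw [integral_congr_ae h1, integral_finsetSum]
  · apply Finset.sum_congr rfl
    intro i _
    rw [integral_indicator (measurableSet_cell p w i), integral_const_mul]
  · intro i _
    exact ((integrable_gauss b hb (p i)).const_mul _).indicator (measurableSet_cell p w i)

end

end Pool.Agent.KneserPoly
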