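import Pool.Agent.KneserPoly.Core

set_option autoImplicit false
set_option linter.unusedSectionVars false

/-! # From congruent balls to balls of arbitrary radii -/

namespace Pool.Agent.KneserPoly

open MeasureTheory Set Filter Topology Module
open scoped ENNReal InnerProductSpace
open Pool.Agent.KneserMult

variable {ι : Type*} {d : ℕ}

/-- the volume of the union of the balls with indices in `S` -/
noncomputable def Ue (x : ι → Eu d) (r : ι → ℝ) (S : Finset ι) : ℝ≥0∞ :=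
  volume (⋃ i ∈ S, Metric.closedBall (x i) (r i))

theorem Ue_lt_top (x : ι → Eu d) (r : ι → ℝ) (S : Finset ι) : Ue x r S < ⊤ :=
  (measure_biUnion_finset_le _ _).trans_lt
    (ENNReal.sum_lt_top.2 fun _ _ => measure_closedBall_lt_top)

theorem Ue_mono (x : ι → Eu d) {r r' : ι → ℝ} {S S' : Finset ι} (hS : S ⊆ S')
    (hr : ∀ i ∈ S, r i ≤ r' i) : Ue x r S ≤ Ue x r' S' := by
  apply measure_mono
  intro z hz
  simp only [mem_iUnion] at hz ⊢
  obtain ⟨i, hi, h⟩ := hz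
  exact ⟨i, hS hi, Metric.closedBall_subset_closedBall (hr i hi) h⟩

theorem U_scale [Fintype ι] [DecidableEq ι] (x : ι → Eu d) {r : ℝ} (hr : 0 < r) :
    (U (fun i => r • x i) fun _ => r) = r ^ d * U x fun _ => 1 := by
  have h := Vf_scale 1 x hr (1 ^ 2)
  rw [← mul_pow, mul_one, Vf_eq_U _ hr, Vf_eq_U _ one_pos] at h
  exact h

theorem core_r {n : ℕ} (hd : 1 ≤ d) (p q : Fin n → Eu d)
    (hpq : ∀ i j, dist (q i) (q j) ≤ dist (p i) (p j)) {r : ℝ} (hr : 0 < r) :
    (U q fun _ => r) ≤ 2 ^ 47 * (d : ℝ) ^ 10 * U p fun _ => r := by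
  have e : ∀ x : Fin n → Eu d, (U x fun _ => r) = r ^ d * U (fun i => r⁻¹ • x i) fun _ => 1 := by
    intro x
    rw [← U_scale _ hr]
    congr 1
    funext i
    rw [smul_smul, mul_inv_cancel₀ hr.ne', one_smul]
  rw [e q, e p]
  have h := core_one hd (fun i => r⁻¹ • p i) (fun i => r⁻¹ • q i) (by
    intro i j
    rw [dist_smul₀, dist_smul₀]
    exact mul_le_mul_of_nonneg_left (hpq i j) (norm_nonneg _))
  have hr' : 0 < r ^ d := by positivity
  calc _ ≤ r ^ d * (2 ^ 47 * (d : ℝ) ^ 10 * U (fun i => r⁻¹ • p i) fun _ => 1) := by gcongr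
    _ = _ := by ring

theorem Ue_eq (x : ι → Eu d) (r : ι → ℝ) (S : Finset ι) :
    Ue x r S = ENNReal.ofReal (U (fun k : Fin S.card => x (S.equivFin.symm k))
      fun k => r (S.equivFin.symm k)) := by
  unfold Ue U
  rw [ENNReal.ofReal_toReal (volume_union_lt_top _ _).ne]
  congr 1
  ext z
  simp only [mem_iUnion]
  constructor
  · rintro ⟨i, hi, h⟩
    refine ⟨S.equivFin ⟨i, hi⟩, ?_⟩
    rwa [Equiv.symm_apply_apply]
  · rintro ⟨k, h⟩
    exact ⟨S.equivFin.symm k, (S.equivFin.symm k).2, h⟩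

theorem core_e (hd : 1 ≤ d) (p q : ι → Eu d)
    (hpq : ∀ i j, dist (q i) (q j) ≤ dist (p i) (p j)) {r : ℝ} (hr : 0 < r) (S : Finset ι) :
    Ue q (fun _ => r) S ≤ ((2 ^ 47 * d ^ 10 : ℕ) : ℝ≥0∞) * Ue p (fun _ => r) S := by
  rw [Ue_eq, Ue_eq]
  have h := core_r hd (fun k : Fin S.card => p (S.equivFin.symm k))
    (fun k => q (S.equivFin.symm k)) (fun i j => hpq _ _) hr
  refine (ENNReal.ofReal_le_ofReal h).trans (le_of_eq ?_)
  rw [ENNReal.ofReal_mul (by positivity)]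
  congr 1
  rw [← ENNReal.ofReal_natCast]
  push_cast
  norm_num

theorem growth_e (x : ι → Eu d) {c : ℝ} (hc : 1 ≤ c) {r : ℝ} (hr : 0 < r) (S : Finset ι) :
    Ue x (fun _ => c * r) S ≤ ENNReal.ofReal (c ^ d) * Ue x (fun _ => r) S := by
  rw [Ue_eq, Ue_eq, ← ENNReal.ofReal_mul (by positivity)]
  exact ENNReal.ofReal_le_ofReal (U_growth (fun k : Fin S.card => x (S.equivFin.symm k)) hc hr)

/-- greedy selection -/
theorem greedy [DecidableEq ι] (lev : ι → ℤ) (meets : ι → ι → Prop)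
    (hsymm : ∀ i k, meets i k → meets k i) (I : Finset ι) :
    ∃ S ⊆ I, (∀ i ∈ S, ∀ k ∈ S, lev i ≠ lev k → ¬ meets i k) ∧
      ∀ i ∈ I, i ∉ S → ∃ k ∈ S, lev i < lev k ∧ meets i k := by
  classical
  induction I using Finset.strongInduction with
  | H I ih =>
    rcases I.eq_empty_or_nonempty with h0 | hne
    · exact ⟨∅, by simp [h0]⟩
    obtain ⟨i₀, hi₀, hmin⟩ := Finset.exists_min_image I lev hne
    have hlt : I.filter (fun i => lev i ≠ lev i₀) ⊂ I := by
      rw [Finset.ssubset_iff_of_subset (Finset.filter_subset _ _)]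
      exact ⟨i₀, hi₀, by simp⟩
    obtain ⟨S', hS', h1, h2⟩ := ih _ hlt
    refine ⟨S' ∪ I.filter (fun i => lev i = lev i₀ ∧ ∀ k ∈ S', ¬ meets i k), ?_, ?_, ?_⟩
    · apply Finset.union_subset
      · exact hS'.trans (Finset.filter_subset _ _)
      · exact Finset.filter_subset _ _
    · intro i hi k hk hne
      rw [Finset.mem_union, Finset.mem_filter] at hi hk
      rcases hi with hi | ⟨-, hi1, hi2⟩
      · rcases hk with hk | ⟨-, hk1, hk2⟩
        · exact h1 i hi k hk hne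
        · exact fun hm => hk2 i hi (hsymm _ _ hm)
      · rcases hk with hk | ⟨-, hk1, hk2⟩
        · exact hi2 k hk
        · exact absurd (hi1.trans hk1.symm) hne
    · intro i hi hiS
      rw [Finset.mem_union, not_or, Finset.mem_filter] at hiS
      by_cases hl : lev i = lev i₀
      · have : ¬ ∀ k ∈ S', ¬ meets i k := fun h => hiS.2 ⟨hi, hl, h⟩
        push Not at this
        obtain ⟨k, hk, hm⟩ := this
        refine ⟨k, Finset.mem_union_left _ hk, ?_, hm⟩
        have h3 := Finset.mem_filter.1 (hS' hk)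
        have h4 := hmin k h3.1
        rw [hl]
        exact lt_of_le_of_ne h4 (Ne.symm h3.2)
      · obtain ⟨k, hk, hlt', hm⟩ := h2 i (Finset.mem_filter.2 ⟨hi, hl⟩) hiS.1
        exact ⟨k, Finset.mem_union_left _ hk, hlt', hm⟩

theorem dil_le (hd : 1 ≤ d) : ((1 + 2 / (d : ℝ)) * (1 + 1 / (d : ℝ))) ^ d ≤ 32 := by
  have hδ : (1 : ℝ) ≤ (d : ℝ) := by exact_mod_cast hd
  have h1 : ((1 + 2 / (d : ℝ)) * (1 + 1 / (d : ℝ))) ^ d ≤
      (Real.exp (2 / d) * Real.exp (1 / d)) ^ d := by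
    have e1 := Real.add_one_le_exp (2 / (d : ℝ))
    have e2 := Real.add_one_le_exp (1 / (d : ℝ))
    have e3 : 0 < 1 / (d : ℝ) := by positivity
    gcongr <;> linarith
  refine h1.trans ?_
  rw [← Real.exp_add, ← Real.exp_nat_mul]
  have e : (d : ℝ) * (2 / d + 1 / d) = 3 := by field_simp; norm_num
  rw [e, ← Real.le_log_iff_exp_le (by norm_num), show (32 : ℝ) = 2 ^ 5 by norm_num, Real.log_pow]
  have := Real.log_two_gt_d9
  push_cast
  linarith

theorem class_bound [DecidableEq ι] (hd : 1 ≤ d) (p q : ι → Eu d)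
    (hpq : ∀ i j, dist (q i) (q j) ≤ dist (p i) (p j)) {ρ : ι → ℝ} (hρ : ∀ i, 0 < ρ i)
    (lev : ι → ℤ) (base : ℤ → ℝ) (hbase : ∀ j, 0 < base j)
    (hlev : ∀ i, base (lev i) ≤ ρ i ∧ ρ i ≤ (1 + 1 / (d : ℝ)) * base (lev i)) (I : Finset ι)
    (hsep : ∀ i ∈ I, ∀ k ∈ I, lev i < lev k → (d : ℝ) * ρ i ≤ ρ k) :
    Ue q ρ I ≤ ((2 ^ 52 * d ^ 10 : ℕ) : ℝ≥0∞) * Ue p ρ I := by
  classical
  have hδ : (1 : ℝ) ≤ (d : ℝ) := by exact_mod_cast hd
  obtain ⟨S, hSI, hS1, hS2⟩ := greedy lev (fun i k => dist (q i) (q k) ≤ ρ i + ρ k)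
    (fun i k h => by rw [dist_comm, add_comm]; exact h) I
  let Sj : ℤ → Finset ι := fun j => S.filter fun k => lev k = j
  let R : ℤ → ℝ := fun j => (1 + 2 / (d : ℝ)) * (1 + 1 / (d : ℝ)) * base j
  have hcov : (⋃ i ∈ I, Metric.closedBall (q i) (ρ i)) ⊆
      ⋃ j ∈ S.image lev, ⋃ k ∈ Sj j, Metric.closedBall (q k) (R j) := by
    have key : ∀ k ∈ S, ∀ z, dist z (q k) ≤ (1 + 2 / (d : ℝ)) * ρ k →
        z ∈ ⋃ j ∈ S.image lev, ⋃ k ∈ Sj j, Metric.closedBall (q k) (R j) := by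
      intro k hk z hz
      simp only [mem_iUnion]
      refine ⟨lev k, Finset.mem_image_of_mem lev hk, k, Finset.mem_filter.2 ⟨hk, rfl⟩, ?_⟩
      rw [Metric.mem_closedBall]
      refine hz.trans ?_
      have h1 := (hlev k).2
      simp only [R]
      rw [mul_assoc]
      gcongr
    intro z hz
    simp only [mem_iUnion, Metric.mem_closedBall] at hz
    obtain ⟨i, hi, hz⟩ := hz
    by_cases hiS : i ∈ S
    · apply key i hiS z
      have h1 : 0 ≤ 2 / (d : ℝ) * ρ i := by have := hρ i; positivity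
      nlinarith
    · obtain ⟨k, hk, hlt, hm⟩ := hS2 i hi hiS
      have h1 := hsep i hi k (hSI hk) hlt
      apply key k hk z
      have h2 : ρ i ≤ ρ k / d := by rw [le_div_iff₀ (by positivity)]; linarith
      calc dist z (q k) ≤ dist z (q i) + dist (q i) (q k) := dist_triangle _ _ _
        _ ≤ ρ i + (ρ i + ρ k) := add_le_add hz hm
        _ ≤ ρ k / d + (ρ k / d + ρ k) := by linarith
        _ = (1 + 2 / (d : ℝ)) * ρ k := by ring
  have hstep : ∀ j, Ue q (fun _ => R j) (Sj j) ≤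
      ((2 ^ 52 * d ^ 10 : ℕ) : ℝ≥0∞) * Ue p ρ (Sj j) := by
    intro j
    have hR : 0 < R j := by have := hbase j; positivity
    refine (core_e hd p q hpq hR (Sj j)).trans ?_
    have hc : 1 ≤ (1 + 2 / (d : ℝ)) * (1 + 1 / (d : ℝ)) := by
      have h1 : 0 < 1 / (d : ℝ) := by positivity
      have h2 : 0 < 2 / (d : ℝ) := by positivity
      nlinarith
    have h1 := growth_e p hc (hbase j) (Sj j)
    have h2 : Ue p (fun _ => base j) (Sj j) ≤ Ue p ρ (Sj j) := by
      apply Ue_mono p (Finset.Subset.refl _)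
      intro i hi
      have := (hlev i).1
      rw [(Finset.mem_filter.1 hi).2] at this
      exact this
    have h3 : ENNReal.ofReal (((1 + 2 / (d : ℝ)) * (1 + 1 / (d : ℝ))) ^ d) ≤ ((32 : ℕ) : ℝ≥0∞) := by
      rw [← ENNReal.ofReal_natCast]
      apply ENNReal.ofReal_le_ofReal
      push_cast
      exact dil_le hd
    calc ((2 ^ 47 * d ^ 10 : ℕ) : ℝ≥0∞) * Ue p (fun _ => R j) (Sj j)
        ≤ ((2 ^ 47 * d ^ 10 : ℕ) : ℝ≥0∞) * (((32 : ℕ) : ℝ≥0∞) * Ue p ρ (Sj j)) := by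
          gcongr
          exact h1.trans (mul_le_mul' h3 h2)
      _ = ((2 ^ 52 * d ^ 10 : ℕ) : ℝ≥0∞) * Ue p ρ (Sj j) := by
          rw [← mul_assoc, ← Nat.cast_mul]
          congr 2
          ring
  have hdisj : (↑(S.image lev) : Set ℤ).PairwiseDisjoint
      fun j => ⋃ k ∈ Sj j, Metric.closedBall (p k) (ρ k) := by
    intro j _ j' _ hjj
    rw [Function.onFun, Set.disjoint_left]
    intro z hz hz'
    simp only [mem_iUnion, Metric.mem_closedBall] at hz hz'
    obtain ⟨k, hk, hzk⟩ := hz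
    obtain ⟨l, hl, hzl⟩ := hz'
    have hk' := Finset.mem_filter.1 hk
    have hl' := Finset.mem_filter.1 hl
    have hne : lev k ≠ lev l := by rw [hk'.2, hl'.2]; exact hjj
    have h1 := hS1 k hk'.1 l hl'.1 hne
    apply h1
    calc dist (q k) (q l) ≤ dist (p k) (p l) := hpq k l
      _ ≤ dist (p k) z + dist z (p l) := dist_triangle _ _ _
      _ ≤ ρ k + ρ l := by
          rw [dist_comm (p k) z]
          exact add_le_add hzk hzl
  have hmeas : ∀ j, MeasurableSet (⋃ k ∈ Sj j, Metric.closedBall (p k) (ρ k)) := fun j =>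
    Finset.measurableSet_biUnion _ fun k _ => Metric.isClosed_closedBall.measurableSet
  calc Ue q ρ I ≤ volume (⋃ j ∈ S.image lev, ⋃ k ∈ Sj j, Metric.closedBall (q k) (R j)) :=
        measure_mono hcov
    _ ≤ ∑ j ∈ S.image lev, Ue q (fun _ => R j) (Sj j) := measure_biUnion_finset_le _ _
    _ ≤ ∑ j ∈ S.image lev, ((2 ^ 52 * d ^ 10 : ℕ) : ℝ≥0∞) * Ue p ρ (Sj j) :=
        Finset.sum_le_sum fun j _ => hstep j
    _ = ((2 ^ 52 * d ^ 10 : ℕ) : ℝ≥0∞) * ∑ j ∈ S.image lev, Ue p ρ (Sj j) := by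
        rw [Finset.mul_sum]
    _ = ((2 ^ 52 * d ^ 10 : ℕ) : ℝ≥0∞) *
        volume (⋃ j ∈ S.image lev, ⋃ k ∈ Sj j, Metric.closedBall (p k) (ρ k)) := by
        rw [measure_biUnion_finset hdisj fun j _ => hmeas j]
        rfl
    _ ≤ ((2 ^ 52 * d ^ 10 : ℕ) : ℝ≥0∞) * Ue p ρ I := by
        gcongr
        unfold Ue
        apply measure_mono
        intro z hz
        simp only [mem_iUnion] at hz ⊢
        obtain ⟨j, _, k, hk, h⟩ := hz
        exact ⟨k, hSI (Finset.mem_filter.1 hk).1, h⟩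

/-- The union inequality with a polynomial factor, for arbitrary radii. -/
theorem union_poly [Fintype ι] (hd : 1 ≤ d) (p q : ι → Eu d)
    (hpq : ∀ i j, dist (q i) (q j) ≤ dist (p i) (p j)) {ρ : ι → ℝ} (hρ : ∀ i, 0 < ρ i)
    (I : Finset ι) :
    Ue q ρ I ≤ ((2 ^ 53 * d ^ 12 : ℕ) : ℝ≥0∞) * Ue p ρ I := by
  classical
  have hδ : (1 : ℝ) ≤ (d : ℝ) := by exact_mod_cast hd
  obtain ⟨θ, hθ⟩ : ∃ θ : ℝ, θ = 1 + 1 / (d : ℝ) := ⟨_, rfl⟩
  have hθ1 : 1 < θ := by
    have : 0 < 1 / (d : ℝ) := by positivity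
    linarith
  have hθ0 : 0 < θ := by linarith
  have hlogθ : 0 < Real.log θ := Real.log_pos hθ1
  let lev : ι → ℤ := fun i => ⌊Real.log (ρ i) / Real.log θ⌋
  have hlev1 : ∀ i, θ ^ lev i ≤ ρ i := by
    intro i
    have h1 := Int.floor_le (Real.log (ρ i) / Real.log θ)
    rw [le_div_iff₀ hlogθ] at h1
    rw [← Real.log_le_log_iff (by positivity) (hρ i), Real.log_zpow]
    exact h1
  have hlev2 : ∀ i, ρ i ≤ θ ^ (lev i + 1) := by
    intro i
    have h1 := (Int.lt_floor_add_one (Real.log (ρ i) / Real.log θ)).le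
    rw [div_le_iff₀ hlogθ] at h1
    rw [← Real.log_le_log_iff (hρ i) (by positivity), Real.log_zpow]
    push_cast
    exact h1
  let L : ℕ := d ^ 2 + 1
  have hL : (0 : ℤ) < (L : ℤ) := by positivity
  let Ia : ℕ → Finset ι := fun a => I.filter fun i => lev i % (L : ℤ) = (a : ℤ)
  have hcov : (⋃ i ∈ I, Metric.closedBall (q i) (ρ i)) ⊆
      ⋃ a ∈ Finset.range L, ⋃ i ∈ Ia a, Metric.closedBall (q i) (ρ i) := by
    intro z hz
    simp only [mem_iUnion] at hz ⊢
    obtain ⟨i, hi, h⟩ := hz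
    have h0 := Int.emod_nonneg (lev i) hL.ne'
    have h1 := Int.emod_lt_of_pos (lev i) hL
    refine ⟨(lev i % (L : ℤ)).toNat, ?_, i, ?_, h⟩
    · rw [Finset.mem_range]
      omega
    · rw [Finset.mem_filter]
      refine ⟨hi, ?_⟩
      rw [Int.toNat_of_nonneg h0]
  have hclass : ∀ a, Ue q ρ (Ia a) ≤ ((2 ^ 52 * d ^ 10 : ℕ) : ℝ≥0∞) * Ue p ρ (Ia a) := by
    intro a
    apply class_bound hd p q hpq hρ lev (fun j => θ ^ j) (fun j => by positivity)
    · intro i
      refine ⟨hlev1 i, ?_⟩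
      have := hlev2 i
      rw [zpow_add₀ hθ0.ne', zpow_one, mul_comm] at this
      rw [← hθ]
      exact this
    · intro i hi k hk hlt
      have hi' := (Finset.mem_filter.1 hi).2
      have hk' := (Finset.mem_filter.1 hk).2
      have hdvd : (L : ℤ) ∣ lev k - lev i := by
        apply Int.dvd_of_emod_eq_zero
        rw [Int.sub_emod, hi', hk']
        simp
      have hge : (L : ℤ) ≤ lev k - lev i := Int.le_of_dvd (by linarith) hdvd
      have h1 : θ ^ (lev i + 1 + (d ^ 2 : ℕ)) ≤ θ ^ lev k := by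
        apply zpow_le_zpow_right₀ hθ1.le
        have : (L : ℤ) = (d ^ 2 : ℕ) + 1 := by simp [L]
        linarith
      have h2 : (d : ℝ) ≤ θ ^ (d ^ 2 : ℕ) := by
        have h3 := one_add_mul_le_pow (a := 1 / (d : ℝ)) (by
          have : 0 < 1 / (d : ℝ) := by positivity
          linarith) (d ^ 2)
        rw [hθ]
        refine le_trans ?_ h3
        push_cast
        have : (d : ℝ) ^ 2 * (1 / d) = d := by field_simp
        rw [this]
        linarith
      calc (d : ℝ) * ρ i ≤ θ ^ (d ^ 2 : ℕ) * θ ^ (lev i + 1) := by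
            have := hlev2 i
            have := hρ i
            gcongr
        _ = θ ^ (lev i + 1 + (d ^ 2 : ℕ)) := by
            rw [zpow_add₀ hθ0.ne' (lev i + 1), zpow_natCast, mul_comm]
        _ ≤ θ ^ lev k := h1
        _ ≤ ρ k := hlev1 k
  calc Ue q ρ I ≤ volume (⋃ a ∈ Finset.range L, ⋃ i ∈ Ia a, Metric.closedBall (q i) (ρ i)) :=
        measure_mono hcov
    _ ≤ ∑ a ∈ Finset.range L, Ue q ρ (Ia a) := measure_biUnion_finset_le _ _
    _ ≤ ∑ a ∈ Finset.range L, ((2 ^ 52 * d ^ 10 : ℕ) : ℝ≥0∞) * Ue p ρ I := by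
        apply Finset.sum_le_sum
        intro a _
        refine (hclass a).trans ?_
        gcongr
        exact Ue_mono p (Finset.filter_subset _ _) fun i _ => le_rfl
    _ = ((L * (2 ^ 52 * d ^ 10) : ℕ) : ℝ≥0∞) * Ue p ρ I := by
        rw [Finset.sum_const, Finset.card_range, nsmul_eq_mul, ← mul_assoc]
        push_cast
        rfl
    _ ≤ ((2 ^ 53 * d ^ 12 : ℕ) : ℝ≥0∞) * Ue p ρ I := by
        have h1 : L ≤ 2 * d ^ 2 := by
          have : 1 ≤ d ^ 2 := Nat.one_le_pow _ _ hd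
          simp only [L]
          omega
        have h2 : L * (2 ^ 52 * d ^ 10) ≤ 2 ^ 53 * d ^ 12 :=
          (Nat.mul_le_mul_right (2 ^ 52 * d ^ 10) h1).trans (le_of_eq (by ring))
        exact mul_le_mul' (Nat.cast_le.2 h2) le_rfl

end Pool.Agent.KneserPoly
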