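import Pool.Agent.KneserPoly.Balanced

set_option autoImplicit false
set_option linter.unusedSectionVars false

/-! # Selection of a large class of balanced cells -/

namespace Pool.Agent.KneserPoly

open MeasureTheory Set Filter Topology
open scoped ENNReal InnerProductSpace

variable {ι : Type*} [Fintype ι] {d : ℕ} [Nonempty ι] [DecidableEq ι]

theorem budget (n : ℕ) (D e : ℕ → ℝ) (h1 : ∀ k < n, D (2 * k) + D (2 * k + 2) + e k ≤
    2 * D (2 * k + 1)) (h2 : ∀ k, D (2 * k + 1) + D (2 * k + 3) ≤ 2 * D (2 * k + 2)) :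
    ∀ K ≤ n, ∑ k ∈ Finset.range K, e k ≤ (D 1 - D 0) - (D (2 * K + 1) - D (2 * K)) := by
  intro K
  induction K with
  | zero => intro _; simp
  | succ K ih =>
    intro hK
    have h3 := ih (by omega)
    have h4 := h1 K (by omega)
    have h5 := h2 K
    rw [Finset.sum_range_succ]
    have e1 : 2 * (K + 1) + 1 = 2 * K + 3 := by ring
    have e2 : 2 * (K + 1) = 2 * K + 2 := by ring
    rw [e1, e2]
    linarith

theorem mid0 {b b' : ℝ} (hb : 0 < b) (hbb : b ≤ b') {p : ι → Eu d} {μ : ι → ℝ}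
    (hμ : ∀ i, 0 < μ i) (hμ1 : ∑ i, μ i = 1)
    {w w' : ι → ℝ} (hZ : ∀ i, 0 < Zc b p w i) (hZ' : ∀ i, 0 < Zc b' p w' i) (wh : ι → ℝ) :
    (Psi b p μ w + Psi b' p μ w') / 2 ≤ Phi (2 * b * b' / (b + b')) p μ wh := by
  have := mid (x0 := 2) (ε := 0) (ε' := 0) hb hbb (by norm_num) (by linarith) le_rfl (by norm_num)
    le_rfl (by norm_num) hμ hμ1 hZ hZ' ∅ (by simp) (by simp) wh
  simpa using this

theorem split_left {b ε r : ℝ} (hb : 0 < b) {p : ι → Eu d} {w : ι → ℝ} {i : ι}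
    (h : ¬ ε * Zc b p w i ≤
      ∫ x in cell p w i ∩ {x | ‖x - p i‖ ≤ r}, Real.exp (-b * ‖x - p i‖ ^ 2)) :
    (1 - ε) * Zc b p w i ≤
      ∫ x in cell p w i ∩ {x | r < ‖x - p i‖}, Real.exp (-b * ‖x - p i‖ ^ 2) := by
  have hm : MeasurableSet {x : Eu d | ‖x - p i‖ ≤ r} :=
    (isClosed_le (by fun_prop) (by fun_prop)).measurableSet
  have h1 := integral_inter_add_sdiff (s := cell p w i) hm
    (integrable_gauss b hb (p i)).integrableOn
  have h2 : cell p w i \ {x : Eu d | ‖x - p i‖ ≤ r} = cell p w i ∩ {x | r < ‖x - p i‖} := by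
    ext x
    simp
  rw [h2] at h1
  push Not at h
  have h3 : Zc b p w i = ∫ x in cell p w i, Real.exp (-b * ‖x - p i‖ ^ 2) := rfl
  rw [← h3] at h1
  linarith

theorem split_right {b ε r : ℝ} (hb : 0 < b) {p : ι → Eu d} {w : ι → ℝ} {i : ι}
    (h : ¬ ε * Zc b p w i ≤
      ∫ x in cell p w i ∩ {x | r ≤ ‖x - p i‖}, Real.exp (-b * ‖x - p i‖ ^ 2)) :
    (1 - ε) * Zc b p w i ≤
      ∫ x in cell p w i ∩ {x | ‖x - p i‖ < r}, Real.exp (-b * ‖x - p i‖ ^ 2) := by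
  have hm : MeasurableSet {x : Eu d | r ≤ ‖x - p i‖} :=
    (isClosed_le (by fun_prop) (by fun_prop)).measurableSet
  have h1 := integral_inter_add_sdiff (s := cell p w i) hm
    (integrable_gauss b hb (p i)).integrableOn
  have h2 : cell p w i \ {x : Eu d | r ≤ ‖x - p i‖} = cell p w i ∩ {x | ‖x - p i‖ < r} := by
    ext x
    simp
  rw [h2] at h1
  push Not at h
  have h3 : Zc b p w i = ∫ x in cell p w i, Real.exp (-b * ‖x - p i‖ ^ 2) := rfl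
  rw [← h3] at h1
  linarith

theorem convex_cell (p : ι → Eu d) (w : ι → ℝ) (i : ι) : Convex ℝ (cell p w i) := by
  rw [convex_iff_forall_pos]
  intro x hx y hy l m hl hm hlm
  have := cell_interp hx hy hl hm hlm
  have e : (fun j => l * w j + m * w j) = w := by
    funext j
    rw [← add_mul, hlm, one_mul]
  rwa [e] at this

theorem last_class {x0 : ℝ} (hx0 : 0 < x0) {Q : Set (Eu d)} (hQm : MeasurableSet Q) (c : Eu d) :
    ∫ x in Q ∩ {x | ‖x - c‖ ≤ 1 + x0}, Real.exp (-1 * ‖x - c‖ ^ 2) ≤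
      (Vt Q c ((1 + x0) ^ 2)).toReal := by
  have hset : Q ∩ {x | ‖x - c‖ ≤ 1 + x0} = Q ∩ {x | ‖x - c‖ ^ 2 ≤ (1 + x0) ^ 2} := by
    ext x
    simp only [mem_inter_iff, mem_ofPred_eq]
    rw [pow_le_pow_iff_left₀ (norm_nonneg _) (by linarith) (by norm_num)]
  rw [hset]
  have hm : MeasurableSet (Q ∩ {x : Eu d | ‖x - c‖ ^ 2 ≤ (1 + x0) ^ 2}) :=
    hQm.inter (isClosed_le (by fun_prop) (by fun_prop)).measurableSet
  have h1 : ∫ x in Q ∩ {x | ‖x - c‖ ^ 2 ≤ (1 + x0) ^ 2}, Real.exp (-1 * ‖x - c‖ ^ 2) ≤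
      ∫ x in Q ∩ {x | ‖x - c‖ ^ 2 ≤ (1 + x0) ^ 2}, (1 : ℝ) := by
    apply setIntegral_mono_on (integrable_gauss 1 one_pos c).integrableOn _ hm
    · intro x _
      rw [Real.exp_le_one_iff]
      nlinarith [sq_nonneg ‖x - c‖]
    · exact integrableOn_const (Vt_lt_top Q c _).ne
  refine h1.trans (le_of_eq ?_)
  rw [setIntegral_const]
  simp [Vt, Measure.real]

/-- the grid of parameters -/
theorem grid {δ : ℝ} (hδ : 1 ≤ δ) (n : ℕ) (hnr : (n : ℝ) = 2 ^ 13 * δ ^ 4) :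
    ∃ bb : ℕ → ℝ, (∀ j, 0 < bb j) ∧ (∀ j k, j ≤ k → bb k ≤ bb j) ∧ (∀ j, j ≤ 2 * n → 1 ≤ bb j) ∧
      bb (2 * n) = 1 ∧ bb 0 = 8 * δ ∧ bb 1 < bb 0 ∧
      (∀ j, 2 * bb (j + 2) * bb j / (bb (j + 2) + bb j) = bb (j + 1)) ∧
      (∀ j, bb j - bb (j + 2) ≤ (bb (j + 2) + bb j) * (1 / (16 * δ)) / 2) ∧
      δ / 2 * Real.log (bb 0 / bb 1) ≤ (1 / (16 * δ)) ^ 2 / 16 := by
  have hδ0 : 0 < δ := by linarith
  obtain ⟨σ0, hσ0def⟩ : ∃ σ0 : ℝ, σ0 = 1 / (8 * δ) := ⟨_, rfl⟩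
  have hσ0 : 0 < σ0 := by rw [hσ0def]; positivity
  have hσ0δ : σ0 * δ = 1 / 8 := by
    rw [hσ0def]
    field_simp
  have hσ01 : σ0 ≤ 1 / 8 := by nlinarith
  have hδ4 : 1 ≤ δ ^ 4 := one_le_pow₀ hδ
  have hnpos : (0 : ℝ) < n := by rw [hnr]; positivity
  obtain ⟨h, hh⟩ : ∃ h : ℝ, h = (1 - σ0) / (2 * n) := ⟨_, rfl⟩
  have hh0 : 0 < h := by rw [hh]; exact div_pos (by linarith) (by positivity)
  have hhn : h * (2 * n) = 1 - σ0 := by
    rw [hh]
    field_simp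
  have hhb : h * δ ^ 4 * 2 ^ 14 ≤ 1 := by
    have : h * (2 * (2 ^ 13 * δ ^ 4)) = 1 - σ0 := by rw [← hnr]; exact hhn
    nlinarith
  obtain ⟨σ, hσ⟩ : ∃ σ : ℕ → ℝ, ∀ j : ℕ, σ j = σ0 + j * h := ⟨_, fun _ => rfl⟩
  have hσpos : ∀ j, 0 < σ j := fun j => by rw [hσ]; positivity
  have hσle : ∀ j, j ≤ 2 * n → σ j ≤ 1 := by
    intro j hj
    have h1 : (j : ℝ) ≤ 2 * n := by exact_mod_cast hj
    rw [hσ]
    nlinarith
  have hσmono : ∀ j k, j ≤ k → σ j ≤ σ k := by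
    intro j k hjk
    have h1 : (j : ℝ) ≤ k := by exact_mod_cast hjk
    rw [hσ, hσ]
    nlinarith
  have hb8 : ∀ j, (σ j)⁻¹ ≤ 8 * δ := by
    intro j
    have h1 : (σ j)⁻¹ ≤ (σ 0)⁻¹ := inv_anti₀ (hσpos 0) (hσmono 0 j (Nat.zero_le j))
    have h2 : (σ 0)⁻¹ = 8 * δ := by
      rw [hσ, hσ0def]
      simp
    rwa [h2] at h1
  refine ⟨fun j => (σ j)⁻¹, fun j => inv_pos.2 (hσpos j),
    fun j k hjk => inv_anti₀ (hσpos j) (hσmono j k hjk),
    fun j hj => (one_le_inv₀ (hσpos j)).2 (hσle j hj), ?_, ?_, ?_, ?_, ?_, ?_⟩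
  · have : σ (2 * n) = 1 := by
      rw [hσ]
      push_cast
      linarith
    simp only [this, inv_one]
  · simp only [hσ, hσ0def]
    simp
  · apply inv_strictAnti₀ (hσpos 0)
    rw [hσ, hσ]
    push_cast
    linarith
  · intro j
    have h1 : σ (j + 1) = (σ j + σ (j + 2)) / 2 := by
      rw [hσ, hσ, hσ]
      push_cast
      ring
    have h2 := (hσpos j).ne'
    have h3 := (hσpos (j + 2)).ne'
    have h4 : σ j + σ (j + 2) ≠ 0 := (add_pos (hσpos j) (hσpos (j + 2))).ne'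
    simp only
    rw [h1]
    have h5 : (σ (j + 2))⁻¹ + (σ j)⁻¹ = (σ j + σ (j + 2)) / (σ j * σ (j + 2)) := by
      field_simp
    rw [h5]
    field_simp
  · intro j
    have hbp : 0 < (σ (j + 2))⁻¹ := inv_pos.2 (hσpos _)
    have hbp' : 0 < (σ j)⁻¹ := inv_pos.2 (hσpos _)
    have e1 : (σ j)⁻¹ - (σ (j + 2))⁻¹ = (σ j)⁻¹ * (2 * h) * (σ (j + 2))⁻¹ := by
      have h2 := (hσpos j).ne'
      have h3 := (hσpos (j + 2)).ne'
      have h4 : σ (j + 2) - σ j = 2 * h := by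
        rw [hσ, hσ]
        push_cast
        ring
      rw [← h4]
      field_simp
    simp only
    rw [e1]
    have e2 : (σ j)⁻¹ * (2 * h) ≤ 1 / (16 * δ) / 2 := by
      have h9 : (σ j)⁻¹ * (2 * h) ≤ 8 * δ * (2 * h) := by
        have := hb8 j
        gcongr
      have h10 : h * δ ^ 2 ≤ h * δ ^ 4 := by
        have : δ ^ 2 ≤ δ ^ 4 := pow_le_pow_right₀ hδ (by norm_num)
        gcongr
      have h11 : 8 * δ * (2 * h) ≤ 1 / (16 * δ) / 2 := by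
        rw [div_div, le_div_iff₀ (by positivity)]
        nlinarith
      linarith
    have e3 : (σ j)⁻¹ * (2 * h) * (σ (j + 2))⁻¹ ≤ 1 / (16 * δ) / 2 * (σ (j + 2))⁻¹ := by gcongr
    have e4 : 0 ≤ (σ j)⁻¹ * (1 / (16 * δ)) / 2 := by positivity
    calc _ ≤ 1 / (16 * δ) / 2 * (σ (j + 2))⁻¹ := e3
      _ ≤ 1 / (16 * δ) / 2 * (σ (j + 2))⁻¹ + (σ j)⁻¹ * (1 / (16 * δ)) / 2 := by linarith
      _ = _ := by ring
  · have h2 : (σ 0)⁻¹ / (σ 1)⁻¹ = 1 + h / σ0 := by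
      rw [hσ, hσ]
      push_cast
      field_simp
      ring
    have h3 : Real.log ((σ 0)⁻¹ / (σ 1)⁻¹) ≤ h / σ0 := by
      rw [h2]
      have := Real.log_le_sub_one_of_pos (show (0 : ℝ) < 1 + h / σ0 by positivity)
      linarith
    have h4 : h / σ0 = 8 * δ * h := by
      rw [hσ0def]
      field_simp
    calc δ / 2 * Real.log ((σ 0)⁻¹ / (σ 1)⁻¹) ≤ δ / 2 * (h / σ0) := by gcongr
      _ = 4 * (h * δ ^ 4) * (1 / δ) ^ 2 := by
          rw [h4]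
          field_simp
          ring
      _ ≤ 4 * (1 / 2 ^ 14) * (1 / δ) ^ 2 := by
          have : h * δ ^ 4 ≤ 1 / 2 ^ 14 := by
            rw [le_div_iff₀ (by norm_num)]
            exact hhb
          gcongr
      _ = (1 / (16 * δ)) ^ 2 / 16 := by
          field_simp
          norm_num

open Classical in
/-- the combinatorial part of the selection -/
theorem covering {ι : Type*} [Fintype ι] {μ : ι → ℝ} (hμ : ∀ i, 0 < μ i) (hμ1 : ∑ i, μ i = 1)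
    (n : ℕ) (LO RO : ℕ → ι → Prop)
    (hB0 : ∑ i ∈ Finset.univ.filter (fun i => ¬ LO 0 i), μ i ≤ 1 / 8)
    (hJ : ∑ k ∈ Finset.range n,
      ∑ i ∈ Finset.univ.filter (fun i => ¬ LO (k + 1) i ∧ ¬ RO k i), μ i ≤ 1 / 4) :
    ∃ k, k ≤ n ∧ 1 / 2 ≤ ((n : ℝ) + 1) *
      ∑ i ∈ Finset.univ.filter (fun i => LO k i ∧ (k = n ∨ RO k i)), μ i := by
  set B0 : Finset ι := Finset.univ.filter (fun i => ¬ LO 0 i) with hB0def
  let J : ℕ → Finset ι := fun k => Finset.univ.filter fun i => ¬ LO (k + 1) i ∧ ¬ RO k i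
  let T : ℕ → Finset ι := fun k => Finset.univ.filter fun i => LO k i ∧ (k = n ∨ RO k i)
  have hJ' : ∑ k ∈ Finset.range n, ∑ i ∈ J k, μ i ≤ 1 / 4 := hJ
  have hcover : ∀ i, (1 : ℝ) ≤ (if i ∈ B0 then 1 else 0) +
      (∑ k ∈ Finset.range n, if i ∈ J k then 1 else 0) +
      (∑ k ∈ Finset.range (n + 1), if i ∈ T k then 1 else 0) := by
    intro i
    have n1 : (0 : ℝ) ≤ if i ∈ B0 then 1 else 0 := by split_ifs <;> norm_num
    have n2 : (0 : ℝ) ≤ ∑ k ∈ Finset.range n, if i ∈ J k then (1 : ℝ) else 0 :=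
      Finset.sum_nonneg fun k _ => by split_ifs <;> norm_num
    have n3 : (0 : ℝ) ≤ ∑ k ∈ Finset.range (n + 1), if i ∈ T k then (1 : ℝ) else 0 :=
      Finset.sum_nonneg fun k _ => by split_ifs <;> norm_num
    by_cases hL0 : LO 0 i
    · obtain ⟨k, hk⟩ : ∃ k, k = Nat.findGreatest (fun k => LO k i) n := ⟨_, rfl⟩
      have hkn : k ≤ n := hk ▸ Nat.findGreatest_le n
      have hLk : LO k i := hk ▸ Nat.findGreatest_spec (P := fun k => LO k i) (Nat.zero_le n) hL0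
      by_cases hT : k = n ∨ RO k i
      · have hmem : i ∈ T k := Finset.mem_filter.2 ⟨Finset.mem_univ i, hLk, hT⟩
        have := Finset.single_le_sum (f := fun k => if i ∈ T k then (1 : ℝ) else 0)
          (fun k _ => by split_ifs <;> norm_num) (Finset.mem_range.2 (Nat.lt_succ_of_le hkn))
        simp only [hmem, if_true] at this
        linarith
      · push Not at hT
        have hlt : k < n := lt_of_le_of_ne hkn hT.1
        have hnL : ¬ LO (k + 1) i := by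
          apply Nat.findGreatest_is_greatest (P := fun k => LO k i) (n := n) _ hlt
          rw [← hk]
          exact Nat.lt_succ_self k
        have hmem : i ∈ J k := Finset.mem_filter.2 ⟨Finset.mem_univ i, hnL, hT.2⟩
        have := Finset.single_le_sum (f := fun k => if i ∈ J k then (1 : ℝ) else 0)
          (fun k _ => by split_ifs <;> norm_num) (Finset.mem_range.2 hlt)
        simp only [hmem, if_true] at this
        linarith
    · have hmem : i ∈ B0 := Finset.mem_filter.2 ⟨Finset.mem_univ i, hL0⟩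
      rw [if_pos hmem]
      linarith
  have htotal : 1 ≤ (∑ i ∈ B0, μ i) + (∑ k ∈ Finset.range n, ∑ i ∈ J k, μ i) +
      ∑ k ∈ Finset.range (n + 1), ∑ i ∈ T k, μ i := by
    have hf : ∀ A : Finset ι, ∑ i ∈ A, μ i = ∑ i, μ i * (if i ∈ A then 1 else 0) := by
      intro A
      simp_rw [mul_ite, mul_one, mul_zero]
      rw [Finset.sum_ite_mem, Finset.univ_inter]
    calc (1 : ℝ) = ∑ i, μ i := hμ1.symm
      _ ≤ ∑ i, μ i * ((if i ∈ B0 then 1 else 0) +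
          (∑ k ∈ Finset.range n, if i ∈ J k then 1 else 0) +
          (∑ k ∈ Finset.range (n + 1), if i ∈ T k then 1 else 0)) := by
          apply Finset.sum_le_sum
          intro i _
          have := mul_le_mul_of_nonneg_left (hcover i) (hμ i).le
          linarith
      _ = _ := by
          simp_rw [mul_add, Finset.mul_sum]
          rw [Finset.sum_add_distrib, Finset.sum_add_distrib]
          congr 1
          · congr 1
            · exact (hf B0).symm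
            · rw [Finset.sum_comm]
              exact Finset.sum_congr rfl fun k _ => (hf (J k)).symm
          · rw [Finset.sum_comm]
            exact Finset.sum_congr rfl fun k _ => (hf (T k)).symm
  have hTsum : 1 / 2 ≤ ∑ k ∈ Finset.range (n + 1), ∑ i ∈ T k, μ i := by linarith
  by_contra hcon
  push Not at hcon
  have hpos : (0 : ℝ) < (n : ℝ) + 1 := by positivity
  have h1 : ∑ k ∈ Finset.range (n + 1), ∑ i ∈ T k, μ i <
      ∑ k ∈ Finset.range (n + 1), 1 / 2 / ((n : ℝ) + 1) := by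
    apply Finset.sum_lt_sum_of_nonempty (by simp)
    intro k hk
    have h2 := hcon k (Nat.lt_succ_iff.1 (Finset.mem_range.1 hk))
    rw [lt_div_iff₀ hpos, mul_comm]
    exact h2
  rw [Finset.sum_const, Finset.card_range, nsmul_eq_mul] at h1
  push_cast at h1
  rw [mul_div_cancel₀ _ hpos.ne'] at h1
  linarith

/-- left heavy -/
def LOp (p : ι → Eu d) (x0 : ℝ) (b : ℝ) (w : ι → ℝ) (i : ι) : Prop :=
  (b * x0 ^ 2 / 32) * Zc b p w i ≤
    ∫ x in cell p w i ∩ {x | ‖x - p i‖ ≤ 1 + x0}, Real.exp (-b * ‖x - p i‖ ^ 2)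

/-- right heavy -/
def ROp (p : ι → Eu d) (x0 : ℝ) (b : ℝ) (w : ι → ℝ) (i : ι) : Prop :=
  (b * x0 ^ 2 / 32) * Zc b p w i ≤
    ∫ x in cell p w i ∩ {x | 1 - x0 ≤ ‖x - p i‖}, Real.exp (-b * ‖x - p i‖ ^ 2)

theorem step_jump {x0 b b' : ℝ} (hx0 : 0 < x0) (hb : 1 ≤ b) (hbb : b ≤ b')
    (hgap : b' - b ≤ (b + b') * x0 / 2) (hε : b * x0 ^ 2 / 32 ≤ 1 / 2)
    (hε' : b' * x0 ^ 2 / 32 ≤ 1 / 2) {p : ι → Eu d} {μ : ι → ℝ} (hμ : ∀ i, 0 < μ i)
    (hμ1 : ∑ i, μ i = 1) {w w' wh : ι → ℝ} (hZ : ∀ i, 0 < Zc b p w i)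
    (hZ' : ∀ i, 0 < Zc b' p w' i) (J : Finset ι)
    (hJ : ∀ i ∈ J, ¬ LOp p x0 b w i ∧ ¬ ROp p x0 b' w' i) :
    Psi b' p μ w' + Psi b p μ w + (∑ i ∈ J, μ i) * x0 ^ 2 / 4 ≤
      2 * Phi (2 * b * b' / (b + b')) p μ wh := by
  have hb0 : 0 < b := by linarith
  have hb0' : 0 < b' := by linarith
  have hmid := mid (ε := b * x0 ^ 2 / 32) (ε' := b' * x0 ^ 2 / 32) hb0 hbb
      hx0 hgap (by positivity) hε (by positivity) hε' hμ hμ1 hZ hZ' J
      (fun i hi => split_left hb0 (hJ i hi).1) (fun i hi => split_right hb0' (hJ i hi).2) wh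
  have hmu : 0 ≤ ∑ i ∈ J, μ i := Finset.sum_nonneg fun i _ => (hμ i).le
  have hg : x0 ^ 2 / 8 ≤ (b + b') * x0 ^ 2 / 8 - b * x0 ^ 2 / 32 - b' * x0 ^ 2 / 32 := by
    have : 0 < x0 ^ 2 := by positivity
    nlinarith
  have := mul_le_mul_of_nonneg_left hg hmu
  linarith

theorem top_small {x0 b : ℝ} (hx0 : 0 < x0) (hδ : (1 : ℝ) ≤ d) (hb : b = 8 * d)
    (hε : b * x0 ^ 2 / 32 ≤ 1 / 2)
    {p : ι → Eu d} (hp : Function.Injective p) {μ : ι → ℝ} (hμ : ∀ i, 0 < μ i)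
    (hμ1 : ∑ i, μ i = 1) {w : ι → ℝ} (hw : IsOpt b p μ w) (B : Finset ι)
    (hB : ∀ i ∈ B, ¬ LOp p x0 b w i) : ∑ i ∈ B, μ i ≤ 1 / 8 := by
  have hb0 : 0 < b := by rw [hb]; linarith
  have hZ : ∀ i, 0 < Zc b p w i := fun i => hw.Zc_pos hb0 hμ i
  have hB' : ∀ i ∈ B, Zc b p w i / 2 ≤
      ∫ x in cell p w i ∩ {x | 1 < ‖x - p i‖}, Real.exp (-b * ‖x - p i‖ ^ 2) := by
    intro i hi
    have h1 : (1 - b * x0 ^ 2 / 32) * Zc b p w i ≤
        ∫ x in cell p w i ∩ {x | 1 + x0 < ‖x - p i‖}, Real.exp (-b * ‖x - p i‖ ^ 2) :=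
      split_left hb0 (hB i hi)
    have h2 : ∫ x in cell p w i ∩ {x | 1 + x0 < ‖x - p i‖}, Real.exp (-b * ‖x - p i‖ ^ 2) ≤
        ∫ x in cell p w i ∩ {x | 1 < ‖x - p i‖}, Real.exp (-b * ‖x - p i‖ ^ 2) := by
      apply setIntegral_mono_set (integrable_gauss _ hb0 (p i)).integrableOn
      · exact Eventually.of_forall fun x => (Real.exp_pos _).le
      · apply LE.le.eventuallyLE
        rintro x ⟨h3, h4⟩
        refine ⟨h3, ?_⟩
        have h4' : 1 + x0 < ‖x - p i‖ := h4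
        change 1 < ‖x - p i‖
        linarith
    have h4 := hZ i
    nlinarith
  have hb02 : 0 < b / 2 := by positivity
  obtain ⟨w2, hw2⟩ := exists_opt hb02 hp hμ hμ1
  have h1 := top_bound hb0 hμ hμ1 hZ B hB' w2
  rw [hw2.Phi_eq hb02 hμ hμ1] at h1
  have h2 := Psi_contract hb02 (by linarith : b / 2 < b) hp hμ hμ1
    (fun i => hw2.Zc_pos hb02 hμ i) w
  rw [hw.Phi_eq hb0 hμ hμ1] at h2
  have e2 : b / (b / 2) = 2 := by field_simp
  rw [e2] at h2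
  have h3 : (∑ i ∈ B, μ i) * (b / 2 - Real.log 2) ≤ d / 2 * Real.log 2 := by linarith
  rw [hb] at h3
  have h4 := Real.log_two_lt_d9
  have h5 := Real.log_two_gt_d9
  by_contra hcon
  push Not at hcon
  have h6 : 1 / 8 * (8 * d / 2 - Real.log 2) < (∑ i ∈ B, μ i) * (8 * d / 2 - Real.log 2) := by
    apply mul_lt_mul_of_pos_right hcon
    linarith
  nlinarith

theorem cell_final {δ x0 b : ℝ} (hδ : 1 ≤ δ) (hx : x0 = 1 / (16 * δ)) (hb : 1 ≤ b)
    (hb8 : b ≤ 8 * δ) {p : ι → Eu d} {w : ι → ℝ} (i : ι) (hL : LOp p x0 b w i)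
    (hR : b = 1 ∨ ROp p x0 b w i) :
    Real.exp b * Zc b p w i ≤ 2 ^ 16 * δ ^ 2 *
      (Vt (cell p w i) (p i) ((1 + x0) ^ 2)).toReal := by
  have hδ0 : 0 < δ := by linarith
  have hx0 : 0 < x0 := by rw [hx]; positivity
  have hx0δ : x0 * δ = 1 / 16 := by
    rw [hx]
    field_simp
  have hx1 : x0 ≤ 1 / 16 := by nlinarith
  have hbx : 2 * b * x0 ≤ 1 := by nlinarith
  have hx2 : x0 ^ 2 * δ ^ 2 = 1 / 256 := by
    rw [← mul_pow, hx0δ]
    norm_num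
  obtain ⟨V, hV⟩ : ∃ V, V = (Vt (cell p w i) (p i) ((1 + x0) ^ 2)).toReal := ⟨_, rfl⟩
  have hV0 : 0 ≤ V := hV ▸ ENNReal.toReal_nonneg
  rw [← hV]
  have hb0 : 0 < b := by linarith
  obtain ⟨Z, hZ⟩ : ∃ Z, Z = Zc b p w i := ⟨_, rfl⟩
  rw [← hZ]
  rcases hR with hR | hR
  · subst hR
    have h1 : 1 * x0 ^ 2 / 32 * Z ≤ V := by
      rw [hZ, hV]
      exact le_trans hL (last_class hx0 (measurableSet_cell p w i) (p i))
    have h3 := Real.exp_one_lt_d9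
    have h4 : Z ≤ 32 * 256 * δ ^ 2 * V := by
      have h5 : (1 * x0 ^ 2 / 32 * Z) * (32 * 256 * δ ^ 2) ≤ V * (32 * 256 * δ ^ 2) := by
        gcongr
      have h6 : (1 * x0 ^ 2 / 32 * Z) * (32 * 256 * δ ^ 2) =
          256 * (x0 ^ 2 * δ ^ 2) * Z := by ring
      rw [h6, hx2] at h5
      linarith
    have h7 : 0 ≤ δ ^ 2 * V := by positivity
    calc Real.exp 1 * Z ≤ Real.exp 1 * (32 * 256 * δ ^ 2 * V) := by gcongr
      _ ≤ 3 * (32 * 256 * δ ^ 2 * V) := by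
          gcongr
          linarith
      _ ≤ 2 ^ 16 * δ ^ 2 * V := by nlinarith
  · have h1 : b * x0 ^ 2 / 32 * Z ≤ V * (5 * b * Real.exp (-b)) := by
      rw [hZ, hV]
      exact balanced hb hx0 hx1 hbx (convex_cell p w i) (measurableSet_cell p w i) (p i) hL hR
    have h2 : x0 ^ 2 * Z ≤ 160 * V * Real.exp (-b) := by
      have h3 : b * (x0 ^ 2 * Z) ≤ b * (160 * V * Real.exp (-b)) := by nlinarith
      exact le_of_mul_le_mul_left h3 hb0
    have h3 : Z ≤ 256 * 160 * δ ^ 2 * V * Real.exp (-b) := by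
      have h5 : (x0 ^ 2 * Z) * (256 * δ ^ 2) ≤ (160 * V * Real.exp (-b)) * (256 * δ ^ 2) := by
        gcongr
      have h6 : (x0 ^ 2 * Z) * (256 * δ ^ 2) = 256 * (x0 ^ 2 * δ ^ 2) * Z := by ring
      rw [h6, hx2] at h5
      linarith
    have h7 : 0 ≤ δ ^ 2 * V := by positivity
    calc Real.exp b * Z ≤ Real.exp b * (256 * 160 * δ ^ 2 * V * Real.exp (-b)) := by gcongr
      _ = 256 * 160 * δ ^ 2 * V := by
          have : Real.exp b * Real.exp (-b) = 1 := by rw [← Real.exp_add]; simp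
          calc _ = 256 * 160 * δ ^ 2 * V * (Real.exp b * Real.exp (-b)) := by ring
            _ = _ := by rw [this, mul_one]
      _ ≤ 2 ^ 16 * δ ^ 2 * V := by nlinarith

theorem select (hd : 1 ≤ d) {p : ι → Eu d} (hp : Function.Injective p) {μ : ι → ℝ}
    (hμ : ∀ i, 0 < μ i) (hμ1 : ∑ i, μ i = 1) :
    ∃ (b : ℝ) (w : ι → ℝ) (T : Finset ι), 1 ≤ b ∧ IsOpt b p μ w ∧
      1 / (2 ^ 15 * (d : ℝ) ^ 4) ≤ ∑ i ∈ T, μ i ∧
      ∀ i ∈ T, Real.exp b * Zc b p w i ≤ 2 ^ 16 * (d : ℝ) ^ 2 *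
        (Vt (cell p w i) (p i) ((1 + 1 / (16 * (d : ℝ))) ^ 2)).toReal := by
  classical
  have hW : ∀ b : ℝ, ∃ w, 0 < b → IsOpt b p μ w := by
    intro b
    by_cases hb : 0 < b
    · obtain ⟨w, hw⟩ := exists_opt hb hp hμ hμ1
      exact ⟨w, fun _ => hw⟩
    · exact ⟨0, fun h => absurd h hb⟩
  choose W hW using hW
  have hδ : (1 : ℝ) ≤ (d : ℝ) := by exact_mod_cast hd
  obtain ⟨n, hn⟩ : ∃ n : ℕ, n = 2 ^ 13 * d ^ 4 := ⟨_, rfl⟩
  have hnr : (n : ℝ) = 2 ^ 13 * (d : ℝ) ^ 4 := by rw [hn]; push_cast; norm_num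
  obtain ⟨bb, hbpos, hbanti, hb1, hblast, hb0, hb10, hharm, hgap, hlog⟩ := grid hδ n hnr
  obtain ⟨x0, hx⟩ : ∃ x0 : ℝ, x0 = 1 / (16 * (d : ℝ)) := ⟨_, rfl⟩
  rw [← hx] at hlog ⊢
  simp_rw [← hx] at hgap
  have hx0 : 0 < x0 := by rw [hx]; positivity
  have hb8 : ∀ j, bb j ≤ 8 * d := fun j => hb0 ▸ hbanti 0 j (Nat.zero_le j)
  have hεle : ∀ j, bb j * x0 ^ 2 / 32 ≤ 1 / 2 := by
    intro j
    have h1 := hb8 j
    have h2 := hbpos j
    have h3 : x0 * d = 1 / 16 := by rw [hx]; field_simp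
    have h4 : bb j * x0 ≤ 1 / 2 := by nlinarith
    have h5 : x0 ≤ 1 := by nlinarith
    nlinarith
  have hopt : ∀ j, IsOpt (bb j) p μ (W (bb j)) := fun j => hW _ (hbpos j)
  have hZpos : ∀ j i, 0 < Zc (bb j) p (W (bb j)) i := fun j i => (hopt j).Zc_pos (hbpos j) hμ i
  obtain ⟨D, hDdef⟩ : ∃ D : ℕ → ℝ, ∀ j, D j = Psi (bb j) p μ (W (bb j)) := ⟨_, fun _ => rfl⟩
  have hD : ∀ j, Phi (bb j) p μ (W (bb j)) = D j := fun j => by
    rw [hDdef]
    exact (hopt j).Phi_eq (hbpos j) hμ hμ1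
  have hstep1 : ∀ k < n, D (2 * k) + D (2 * k + 2) +
      (∑ i ∈ Finset.univ.filter (fun i => ¬ LOp p x0 (bb (2 * (k + 1))) (W (bb (2 * (k + 1)))) i ∧
        ¬ ROp p x0 (bb (2 * k)) (W (bb (2 * k))) i), μ i) * x0 ^ 2 / 4 ≤
      2 * D (2 * k + 1) := by
    intro k hk
    have := step_jump (wh := W (bb (2 * k + 1))) hx0 (hb1 (2 * k + 2) (by omega))
      (hbanti (2 * k) (2 * k + 2) (by omega)) (hgap (2 * k)) (hεle _) (hεle _) hμ hμ1
      (hZpos (2 * k + 2)) (hZpos (2 * k))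
      (Finset.univ.filter (fun i => ¬ LOp p x0 (bb (2 * (k + 1))) (W (bb (2 * (k + 1)))) i ∧
        ¬ ROp p x0 (bb (2 * k)) (W (bb (2 * k))) i))
      (fun i hi => (Finset.mem_filter.1 hi).2)
    rw [hharm (2 * k), hD, ← hDdef, ← hDdef] at this
    exact this
  have hstep2 : ∀ k, D (2 * k + 1) + D (2 * k + 3) ≤ 2 * D (2 * k + 2) := by
    intro k
    have hmid := mid0 (hbpos (2 * k + 1 + 2)) (hbanti (2 * k + 1) (2 * k + 1 + 2) (by omega)) hμ hμ1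
      (hZpos _) (hZpos _) (W (bb (2 * k + 1 + 1)))
    rw [hharm (2 * k + 1), hD, ← hDdef, ← hDdef] at hmid
    have e3 : 2 * k + 1 + 2 = 2 * k + 3 := by ring
    have e5 : 2 * k + 1 + 1 = 2 * k + 2 := by ring
    rw [e3, e5] at hmid
    linarith
  have hbud := budget n D (fun k => (∑ i ∈ Finset.univ.filter
    (fun i => ¬ LOp p x0 (bb (2 * (k + 1))) (W (bb (2 * (k + 1)))) i ∧
        ¬ ROp p x0 (bb (2 * k)) (W (bb (2 * k))) i), μ i) * x0 ^ 2 / 4) hstep1 hstep2 n le_rfl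
  have hanti : D (2 * n) ≤ D (2 * n + 1) := by
    have := Psi_anti (hbpos (2 * n + 1)) (hbanti (2 * n) (2 * n + 1) (by omega)) hμ hμ1
      (hZpos (2 * n)) (W (bb (2 * n + 1)))
    rwa [hD, ← hDdef] at this
  have hD10 : D 1 - D 0 ≤ x0 ^ 2 / 16 := by
    have h1 := Psi_contract (hbpos 1) hb10 hp hμ hμ1 (hZpos 1) (W (bb 0))
    rw [hD, ← hDdef] at h1
    linarith
  have hJsum : ∑ k ∈ Finset.range n, ∑ i ∈ Finset.univ.filter
    (fun i => ¬ LOp p x0 (bb (2 * (k + 1))) (W (bb (2 * (k + 1)))) i ∧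
        ¬ ROp p x0 (bb (2 * k)) (W (bb (2 * k))) i), μ i ≤ 1 / 4 := by
    rw [← Finset.sum_div, ← Finset.sum_mul] at hbud
    have hx2 : 0 < x0 ^ 2 := by positivity
    by_contra hcon
    push Not at hcon
    nlinarith
  have hB0 : ∑ i ∈ Finset.univ.filter
      (fun i => ¬ LOp p x0 (bb (2 * 0)) (W (bb (2 * 0))) i), μ i ≤ 1 / 8 :=
    top_small hx0 hδ hb0 (hεle 0) hp hμ hμ1 (hopt 0) _ fun i hi => (Finset.mem_filter.1 hi).2
  obtain ⟨k, hkn, hk⟩ := covering hμ hμ1 n (fun k i => LOp p x0 (bb (2 * k)) (W (bb (2 * k))) i)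
    (fun k i => ROp p x0 (bb (2 * k)) (W (bb (2 * k))) i) hB0 hJsum
  refine ⟨bb (2 * k), W (bb (2 * k)), Finset.univ.filter (fun i =>
    LOp p x0 (bb (2 * k)) (W (bb (2 * k))) i ∧ (k = n ∨ ROp p x0 (bb (2 * k)) (W (bb (2 * k))) i)),
    hb1 _ (by omega), hopt _, ?_, ?_⟩
  · set S := ∑ i ∈ Finset.univ.filter (fun i =>
      LOp p x0 (bb (2 * k)) (W (bb (2 * k))) i ∧
        (k = n ∨ ROp p x0 (bb (2 * k)) (W (bb (2 * k))) i)), μ i with hS
    have hd4 : (1 : ℝ) ≤ (d : ℝ) ^ 4 := one_le_pow₀ hδ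
    rw [hnr] at hk
    rw [div_le_iff₀ (by positivity)]
    have hS0 : 0 ≤ S := Finset.sum_nonneg fun i _ => (hμ i).le
    nlinarith
  · intro i hi
    obtain ⟨hL, hR⟩ := (Finset.mem_filter.1 hi).2
    apply cell_final hδ hx (hb1 _ (by omega)) (hb8 _) i hL
    rcases hR with hR | hR
    · left
      rw [hR]
      exact hblast
    · exact Or.inr hR

end Pool.Agent.KneserPoly
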