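import Pool.Agent.KneserPoly.Dual

set_option autoImplicit false
set_option linter.unusedSectionVars false

/-! # Stability of the optimal power diagrams -/

namespace Pool.Agent.KneserPoly

open MeasureTheory Set Filter Topology
open scoped ENNReal InnerProductSpace

variable {ι : Type*} [Fintype ι] {d : ℕ} [Nonempty ι] [DecidableEq ι]

theorem lintegral_gauss (b : ℝ) (hb : 0 < b) (c : Eu d) {S : Set (Eu d)} (hS : MeasurableSet S) :
    ∫⁻ x, S.indicator (fun x => ENNReal.ofReal (Real.exp (-b * ‖x - c‖ ^ 2))) x =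
      ENNReal.ofReal (∫ x in S, Real.exp (-b * ‖x - c‖ ^ 2)) := by
  rw [lintegral_indicator hS, ofReal_integral_eq_lintegral_ofReal
    (integrable_gauss b hb c).integrableOn (Eventually.of_forall fun x => (Real.exp_pos _).le)]

/-- Prékopa–Leindler for Gaussian weights -/
theorem pl_half {b b' bh g0 : ℝ} (hb : 0 < b) (hb' : 0 < b') (hbh : 0 < bh) (c : Eu d)
    {S S' T : Set (Eu d)} (hS : MeasurableSet S) (hS' : MeasurableSet S') (hT : MeasurableSet T)
    (H : ∀ x ∈ S, ∀ y ∈ S', (1 / 2 : ℝ) • x + (1 / 2 : ℝ) • y ∈ T ∧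
      bh * ‖(1 / 2 : ℝ) • x + (1 / 2 : ℝ) • y - c‖ ^ 2 + g0 ≤
        (b * ‖x - c‖ ^ 2 + b' * ‖y - c‖ ^ 2) / 2) :
    Real.exp g0 * Real.sqrt ((∫ x in S, Real.exp (-b * ‖x - c‖ ^ 2)) *
      ∫ x in S', Real.exp (-b' * ‖x - c‖ ^ 2)) ≤ ∫ x in T, Real.exp (-bh * ‖x - c‖ ^ 2) := by
  have hm : ∀ b : ℝ, Measurable fun x : Eu d => ENNReal.ofReal (Real.exp (-b * ‖x - c‖ ^ 2)) := by
    intro b
    apply ENNReal.measurable_ofReal.comp
    have : Continuous fun x : Eu d => Real.exp (-b * ‖x - c‖ ^ 2) := by fun_prop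
    exact this.measurable
  have key := pl (f := S.indicator fun x => ENNReal.ofReal (Real.exp (-b * ‖x - c‖ ^ 2)))
    (g := S'.indicator fun x => ENNReal.ofReal (Real.exp (-b' * ‖x - c‖ ^ 2)))
    (h := fun z => ENNReal.ofReal (Real.exp (-g0)) *
      T.indicator (fun x => ENNReal.ofReal (Real.exp (-bh * ‖x - c‖ ^ 2))) z)
    ((hm b).indicator hS) ((hm b').indicator hS') (((hm bh).indicator hT).const_mul _)
    (l := 1 / 2) (m := 1 / 2) (by norm_num) (by norm_num) (by norm_num) (by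
      intro x y
      by_cases hx : x ∈ S
      · by_cases hy : y ∈ S'
        · obtain ⟨h1, h2⟩ := H x hx y hy
          rw [indicator_of_mem hx, indicator_of_mem hy, indicator_of_mem h1,
            ENNReal.ofReal_rpow_of_pos (Real.exp_pos _), ENNReal.ofReal_rpow_of_pos (Real.exp_pos _),
            ← ENNReal.ofReal_mul (by positivity), ← ENNReal.ofReal_mul (by positivity)]
          apply ENNReal.ofReal_le_ofReal
          rw [← Real.exp_mul, ← Real.exp_mul, ← Real.exp_add, ← Real.exp_add]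
          apply Real.exp_le_exp.2
          linarith
        · rw [indicator_of_notMem hy]
          simp
      · rw [indicator_of_notMem hx]
        simp)
  rw [lintegral_const_mul _ ((hm bh).indicator hT), lintegral_gauss b hb c hS,
    lintegral_gauss b' hb' c hS', lintegral_gauss bh hbh c hT] at key
  set A := ∫ x in S, Real.exp (-b * ‖x - c‖ ^ 2)
  set B := ∫ x in S', Real.exp (-b' * ‖x - c‖ ^ 2)
  set C := ∫ x in T, Real.exp (-bh * ‖x - c‖ ^ 2)
  have hA : 0 ≤ A := integral_nonneg fun x => (Real.exp_pos _).le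
  have hB : 0 ≤ B := integral_nonneg fun x => (Real.exp_pos _).le
  have hC : 0 ≤ C := integral_nonneg fun x => (Real.exp_pos _).le
  rw [ENNReal.ofReal_rpow_of_nonneg hA (by norm_num), ENNReal.ofReal_rpow_of_nonneg hB (by norm_num),
    ← ENNReal.ofReal_mul (by positivity), ← ENNReal.ofReal_mul (by positivity),
    ENNReal.ofReal_le_ofReal_iff (by positivity), ← Real.mul_rpow hA hB, ← Real.sqrt_eq_rpow] at key
  calc Real.exp g0 * √(A * B) ≤ Real.exp g0 * (Real.exp (-g0) * C) := by gcongr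
    _ = C := by rw [← mul_assoc, ← Real.exp_add]; simp

/-- the quadratic inequality with gain -/
theorem quad {b b' : ℝ} (hb : 0 < b) (hb' : 0 < b') (x y c : Eu d) :
    2 * b * b' / (b + b') * ‖(1 / 2 : ℝ) • x + (1 / 2 : ℝ) • y - c‖ ^ 2 +
      (b * ‖x - c‖ - b' * ‖y - c‖) ^ 2 / (2 * (b + b')) ≤
        (b * ‖x - c‖ ^ 2 + b' * ‖y - c‖ ^ 2) / 2 := by
  have h1 : (1 / 2 : ℝ) • x + (1 / 2 : ℝ) • y - c = (1 / 2 : ℝ) • (x - c) + (1 / 2 : ℝ) • (y - c) := by
    rw [smul_sub, smul_sub]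
    have : c = (1 / 2 : ℝ) • c + (1 / 2 : ℝ) • c := by
      rw [← add_smul]
      norm_num
    conv_lhs => rw [this]
    abel
  have h2 : ‖(1 / 2 : ℝ) • x + (1 / 2 : ℝ) • y - c‖ ≤ (‖x - c‖ + ‖y - c‖) / 2 := by
    rw [h1]
    refine (norm_add_le _ _).trans (le_of_eq ?_)
    rw [norm_smul, norm_smul, Real.norm_eq_abs, abs_of_pos (by norm_num)]
    ring
  have h3 : ‖(1 / 2 : ℝ) • x + (1 / 2 : ℝ) • y - c‖ ^ 2 ≤ ((‖x - c‖ + ‖y - c‖) / 2) ^ 2 :=
    pow_le_pow_left₀ (norm_nonneg _) h2 2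
  have h4 : 0 ≤ 2 * b * b' / (b + b') := by positivity
  have h5 := mul_le_mul_of_nonneg_left h3 h4
  have h6 : 2 * b * b' / (b + b') * ((‖x - c‖ + ‖y - c‖) / 2) ^ 2 +
      (b * ‖x - c‖ - b' * ‖y - c‖) ^ 2 / (2 * (b + b')) =
        (b * ‖x - c‖ ^ 2 + b' * ‖y - c‖ ^ 2) / 2 := by
    have : b + b' ≠ 0 := by positivity
    field_simp
    ring
  linarith

theorem log_ge_of {Z A B g e : ℝ} (hA : 0 < A) (hB : 0 < B)
    (h : Real.exp g * Real.sqrt (A * B) ≤ Z) {A' B' : ℝ} (hA' : Real.log A' - e ≤ Real.log A)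
    (hB' : Real.log B' - e ≤ Real.log B) :
    g - e + (Real.log A' + Real.log B') / 2 ≤ Real.log Z := by
  have h1 : 0 < Real.exp g * Real.sqrt (A * B) := by positivity
  have h2 := Real.log_le_log h1 h
  rw [Real.log_mul (by positivity) (by positivity), Real.log_exp, Real.log_sqrt (by positivity),
    Real.log_mul hA.ne' hB.ne'] at h2
  linarith

theorem log_one_sub {e : ℝ} (h0 : 0 ≤ e) (h1 : e ≤ 1 / 2) : -(2 * e) ≤ Real.log (1 - e) := by
  have h2 : 0 < 1 - e := by linarith
  have h3 := Real.one_sub_inv_le_log_of_pos h2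
  have h4 : (1 - e)⁻¹ ≤ 1 + 2 * e := by
    rw [inv_le_iff_one_le_mul₀ h2]
    nlinarith
  linarith

/-- midpoint concavity of the value, with a gain from the indices that jump -/
theorem mid {b b' x0 ε ε' : ℝ} (hb : 0 < b) (hbb : b ≤ b') (hx0 : 0 < x0)
    (hgap : b' - b ≤ (b + b') * x0 / 2) (hε : 0 ≤ ε) (hε1 : ε ≤ 1 / 2) (hε' : 0 ≤ ε')
    (hε'1 : ε' ≤ 1 / 2) {p : ι → Eu d} {μ : ι → ℝ} (hμ : ∀ i, 0 < μ i) (hμ1 : ∑ i, μ i = 1)
    {w w' : ι → ℝ} (hZ : ∀ i, 0 < Zc b p w i) (hZ' : ∀ i, 0 < Zc b' p w' i) (J : Finset ι)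
    (hJ : ∀ i ∈ J, (1 - ε) * Zc b p w i ≤
      ∫ x in cell p w i ∩ {x | 1 + x0 < ‖x - p i‖}, Real.exp (-b * ‖x - p i‖ ^ 2))
    (hJ' : ∀ i ∈ J, (1 - ε') * Zc b' p w' i ≤
      ∫ x in cell p w' i ∩ {x | ‖x - p i‖ < 1 - x0}, Real.exp (-b' * ‖x - p i‖ ^ 2))
    (wh : ι → ℝ) :
    (Psi b p μ w + Psi b' p μ w') / 2 + (∑ i ∈ J, μ i) * ((b + b') * x0 ^ 2 / 8 - ε - ε') ≤
      Phi (2 * b * b' / (b + b')) p μ wh := by
  have hb' : 0 < b' := hb.trans_le hbb
  set bh := 2 * b * b' / (b + b') with hbh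
  have hbhpos : 0 < bh := by positivity
  set wm : ι → ℝ := fun j => 1 / 2 * w j + 1 / 2 * w' j with hwm
  have hin : ∀ i, ∀ x ∈ cell p w i, ∀ y ∈ cell p w' i,
      (1 / 2 : ℝ) • x + (1 / 2 : ℝ) • y ∈ cell p wm i := fun i x hx y hy =>
    cell_interp hx hy (by norm_num) (by norm_num) (by norm_num)
  have hbase : ∀ i, Real.exp 0 * Real.sqrt (Zc b p w i * Zc b' p w' i) ≤ Zc bh p wm i := by
    intro i
    unfold Zc
    apply pl_half hb hb' hbhpos (p i) (measurableSet_cell _ _ _) (measurableSet_cell _ _ _)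
      (measurableSet_cell _ _ _)
    intro x hx y hy
    refine ⟨hin i x hx y hy, ?_⟩
    have h1 := quad hb hb' x y (p i)
    have h2 : 0 ≤ (b * ‖x - p i‖ - b' * ‖y - p i‖) ^ 2 / (2 * (b + b')) := by positivity
    rw [← hbh] at h1
    linarith
  have hpos : ∀ i, 0 < Zc bh p wm i := by
    intro i
    refine lt_of_lt_of_le ?_ (hbase i)
    have := hZ i
    have := hZ' i
    positivity
  have hall : ∀ i, (Real.log (Zc b p w i) + Real.log (Zc b' p w' i)) / 2 ≤
      Real.log (Zc bh p wm i) := by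
    intro i
    have := log_ge_of (e := 0) (hZ i) (hZ' i) (hbase i) (A' := Zc b p w i) (B' := Zc b' p w' i)
      (by simp) (by simp)
    linarith
  have hgain : ∀ i ∈ J, (b + b') * x0 ^ 2 / 8 - ε - ε' +
      (Real.log (Zc b p w i) + Real.log (Zc b' p w' i)) / 2 ≤ Real.log (Zc bh p wm i) := by
    intro i hi
    have hA := hJ i hi
    have hB := hJ' i hi
    have hA0 : 0 < (1 - ε) * Zc b p w i := mul_pos (by linarith) (hZ i)
    have hB0 : 0 < (1 - ε') * Zc b' p w' i := mul_pos (by linarith) (hZ' i)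
    have mS : MeasurableSet (cell p w i ∩ {x | 1 + x0 < ‖x - p i‖}) :=
      (measurableSet_cell _ _ _).inter (isOpen_lt (by fun_prop) (by fun_prop)).measurableSet
    have mS' : MeasurableSet (cell p w' i ∩ {x | ‖x - p i‖ < 1 - x0}) :=
      (measurableSet_cell _ _ _).inter (isOpen_lt (by fun_prop) (by fun_prop)).measurableSet
    have key := pl_half (g0 := (b + b') * x0 ^ 2 / 8) hb hb' hbhpos (p i) mS mS'
      (measurableSet_cell p wm i) (by
        rintro x ⟨hx, hx1⟩ y ⟨hy, hy1⟩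
        refine ⟨hin i x hx y hy, ?_⟩
        simp only [mem_ofPred_eq] at hx1 hy1
        have h1 := quad hb hb' x y (p i)
        rw [← hbh] at h1
        have h2 : (b + b') * x0 / 2 ≤ b * ‖x - p i‖ - b' * ‖y - p i‖ := by
          have h3 : b * (1 + x0) ≤ b * ‖x - p i‖ := mul_le_mul_of_nonneg_left hx1.le hb.le
          have h4 : b' * ‖y - p i‖ ≤ b' * (1 - x0) := mul_le_mul_of_nonneg_left hy1.le hb'.le
          linarith
        have h3 : ((b + b') * x0 / 2) ^ 2 ≤ (b * ‖x - p i‖ - b' * ‖y - p i‖) ^ 2 :=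
          pow_le_pow_left₀ (by positivity) h2 2
        have h4 : (b + b') * x0 ^ 2 / 8 ≤
            (b * ‖x - p i‖ - b' * ‖y - p i‖) ^ 2 / (2 * (b + b')) := by
          rw [le_div_iff₀ (by positivity)]
          nlinarith
        linarith)
    have h5 := log_ge_of (e := ε + ε') (hA0.trans_le hA) (hB0.trans_le hB) key
      (A' := Zc b p w i * Real.exp (2 * ε' - 2 * ε - (ε' - ε)))
      (B' := Zc b' p w' i * Real.exp (-(2 * ε' - 2 * ε - (ε' - ε))))
      (by
        have h6 := Real.log_le_log hA0 hA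
        rw [Real.log_mul (by linarith) (hZ i).ne'] at h6
        have h7 := log_one_sub hε hε1
        rw [Real.log_mul (hZ i).ne' (Real.exp_pos _).ne', Real.log_exp]
        linarith)
      (by
        have h6 := Real.log_le_log hB0 hB
        rw [Real.log_mul (by linarith) (hZ' i).ne'] at h6
        have h7 := log_one_sub hε' hε'1
        rw [Real.log_mul (hZ' i).ne' (Real.exp_pos _).ne', Real.log_exp]
        linarith)
    rw [Real.log_mul (hZ i).ne' (Real.exp_pos _).ne', Real.log_exp,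
      Real.log_mul (hZ' i).ne' (Real.exp_pos _).ne', Real.log_exp] at h5
    unfold Zc at *
    linarith
  refine le_trans ?_ (weak hbhpos hμ hμ1 (fun i => measurableSet_cell p wm i)
    (fun i j hij => cell_disjoint p wm hij) hpos wh)
  have e1 : ∀ i, Real.log (Zc b p w i / μ i) = Real.log (Zc b p w i) - Real.log (μ i) :=
    fun i => Real.log_div (hZ i).ne' (hμ i).ne'
  have e2 : ∀ i, Real.log (Zc b' p w' i / μ i) = Real.log (Zc b' p w' i) - Real.log (μ i) :=
    fun i => Real.log_div (hZ' i).ne' (hμ i).ne'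
  have e3 : ∀ i, Real.log (Zc bh p wm i / μ i) = Real.log (Zc bh p wm i) - Real.log (μ i) :=
    fun i => Real.log_div (hpos i).ne' (hμ i).ne'
  have e4 : (∑ i ∈ J, μ i) * ((b + b') * x0 ^ 2 / 8 - ε - ε') =
      ∑ i, μ i * (if i ∈ J then (b + b') * x0 ^ 2 / 8 - ε - ε' else 0) := by
    rw [Finset.sum_mul]
    simp_rw [mul_ite, mul_zero]
    rw [Finset.sum_ite_mem, Finset.univ_inter]
  rw [e4]
  unfold Psi
  rw [← Finset.sum_add_distrib, Finset.sum_div, ← Finset.sum_add_distrib]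
  apply Finset.sum_le_sum
  intro i _
  change _ ≤ μ i * Real.log (Zc bh p wm i / μ i)
  rw [e1, e2, e3]
  have hμi := (hμ i).le
  by_cases hi : i ∈ J
  · rw [if_pos hi]
    have h := mul_le_mul_of_nonneg_left (hgain i hi) hμi
    nlinarith
  · rw [if_neg hi]
    have h := mul_le_mul_of_nonneg_left (hall i) hμi
    nlinarith

/-- the value is nonincreasing in `b` -/
theorem Psi_anti {b b' : ℝ} (hb : 0 < b) (hbb : b ≤ b') {p : ι → Eu d} {μ : ι → ℝ}
    (hμ : ∀ i, 0 < μ i) (hμ1 : ∑ i, μ i = 1) {w' : ι → ℝ} (hZ' : ∀ i, 0 < Zc b' p w' i)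
    (w : ι → ℝ) : Psi b' p μ w' ≤ Phi b p μ w := by
  have hb' : 0 < b' := hb.trans_le hbb
  have hle : ∀ i, Zc b' p w' i ≤ Zc b p w' i := by
    intro i
    unfold Zc
    apply setIntegral_mono (integrable_gauss b' hb' (p i)).integrableOn
      (integrable_gauss b hb (p i)).integrableOn
    intro x
    simp only
    apply Real.exp_le_exp.2
    nlinarith [sq_nonneg ‖x - p i‖]
  refine le_trans ?_ (weak hb hμ hμ1 (fun i => measurableSet_cell p w' i)
    (fun i j hij => cell_disjoint p w' hij) (fun i => (hZ' i).trans_le (hle i)) w)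
  unfold Psi
  apply Finset.sum_le_sum
  intro i _
  apply mul_le_mul_of_nonneg_left _ (hμ i).le
  apply Real.log_le_log (div_pos (hZ' i) (hμ i))
  exact div_le_div_of_nonneg_right (hle i) (hμ i).le

/-- the contraction inequality -/
theorem Psi_contract {b b' : ℝ} (hb : 0 < b) (hbb : b < b') {p : ι → Eu d}
    (hp : Function.Injective p) {μ : ι → ℝ} (hμ : ∀ i, 0 < μ i) (hμ1 : ∑ i, μ i = 1)
    {w : ι → ℝ} (hZ : ∀ i, 0 < Zc b p w i) (w' : ι → ℝ) :
    Psi b p μ w - d / 2 * Real.log (b' / b) ≤ Phi b' p μ w' := by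
  have hb' : 0 < b' := hb.trans hbb
  set σ := Real.sqrt (b / b') with hσ
  have hσ0 : 0 < σ := Real.sqrt_pos.2 (by positivity)
  have hσ2 : σ ^ 2 = b / b' := Real.sq_sqrt (by positivity)
  have hσ1 : σ < 1 := by
    have : b / b' < 1 := (div_lt_one hb').2 hbb
    nlinarith
  let T : ι → Eu d → Eu d := fun i x => p i + σ⁻¹ • (x - p i)
  have hT : ∀ i, Continuous (T i) := fun i => by fun_prop
  let R : ι → Set (Eu d) := fun i => T i ⁻¹' cell p w i
  have hR : ∀ i, MeasurableSet (R i) := fun i => (measurableSet_cell p w i).preimage (hT i).measurable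
  have hsub : ∀ i, R i ⊆ cell p (fun j => σ * w j + (1 - σ) * 0) i := by
    intro i x hx
    have hx' : T i x ∈ cell p w i := hx
    have h1 := cell_interp hx' (self_mem_cell hp i) hσ0 (m := 1 - σ) (by linarith) (by ring)
    convert h1 using 1
    simp only [T]
    rw [smul_add, smul_smul, mul_inv_cancel₀ hσ0.ne', one_smul, sub_smul, one_smul]
    abel
  have hdisj : Pairwise (Function.onFun Disjoint R) := fun i j hij =>
    (cell_disjoint p _ hij).mono (hsub i) (hsub j)
  have hint : ∀ i, ∫ x in R i, Real.exp (-b' * ‖x - p i‖ ^ 2) = σ ^ d * Zc b p w i := by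
    intro i
    rw [← integral_indicator (hR i)]
    have h1 : ∫ x, (R i).indicator (fun x => Real.exp (-b' * ‖x - p i‖ ^ 2)) x =
        ∫ z, (cell p w i).indicator (fun y => Real.exp (-b * ‖y - p i‖ ^ 2))
          (p i + σ⁻¹ • z) := by
      rw [← integral_sub_right_eq_self (fun z => (cell p w i).indicator (fun y => Real.exp (-b * ‖y - p i‖ ^ 2)) (p i + σ⁻¹ • z)) (p i)]
      congr 1
      funext x
      have e2 : -b * ‖p i + σ⁻¹ • (x - p i) - p i‖ ^ 2 = -b' * ‖x - p i‖ ^ 2 := by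
        rw [add_sub_cancel_left, norm_smul, mul_pow, Real.norm_eq_abs, sq_abs, inv_pow, hσ2]
        field_simp
      by_cases hx : x ∈ R i
      · have hx' : p i + σ⁻¹ • (x - p i) ∈ cell p w i := hx
        rw [indicator_of_mem hx, indicator_of_mem hx', e2]
      · have hx' : p i + σ⁻¹ • (x - p i) ∉ cell p w i := hx
        rw [indicator_of_notMem hx, indicator_of_notMem hx']
    rw [h1]
    have h2 := Measure.integral_comp_smul (volume : Measure (Eu d))
      (fun z => (cell p w i).indicator (fun y => Real.exp (-b * ‖y - p i‖ ^ 2)) (p i + z)) σ⁻¹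
    rw [h2, integral_add_left_eq_self, integral_indicator (measurableSet_cell p w i),
      finrank_euclideanSpace_fin, inv_pow, inv_inv, abs_of_pos (by positivity), smul_eq_mul]
    rfl
  have hpos : ∀ i, 0 < ∫ x in R i, Real.exp (-b' * ‖x - p i‖ ^ 2) := by
    intro i
    rw [hint i]
    exact mul_pos (by positivity) (hZ i)
  refine le_trans ?_ (weak hb' hμ hμ1 hR hdisj hpos w')
  have e : ∀ i, Real.log ((∫ x in R i, Real.exp (-b' * ‖x - p i‖ ^ 2)) / μ i) =
      Real.log (Zc b p w i / μ i) - d / 2 * Real.log (b' / b) := by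
    intro i
    rw [hint i, mul_div_assoc, Real.log_mul (by positivity) (div_pos (hZ i) (hμ i)).ne',
      Real.log_pow, hσ, Real.log_sqrt (by positivity), Real.log_div hb.ne' hb'.ne',
      Real.log_div hb'.ne' hb.ne']
    ring
  simp_rw [e, mul_sub]
  rw [Finset.sum_sub_distrib, ← Finset.sum_mul, hμ1, one_mul]
  exact le_rfl

/-- few cells are far away when `b` is large -/
theorem top_bound {b : ℝ} (hb : 0 < b) {p : ι → Eu d} {μ : ι → ℝ}
    (hμ : ∀ i, 0 < μ i) (hμ1 : ∑ i, μ i = 1) {w : ι → ℝ} (hZ : ∀ i, 0 < Zc b p w i)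
    (B : Finset ι) (hB : ∀ i ∈ B, Zc b p w i / 2 ≤
      ∫ x in cell p w i ∩ {x | 1 < ‖x - p i‖}, Real.exp (-b * ‖x - p i‖ ^ 2)) (wh : ι → ℝ) :
    Psi b p μ w + (∑ i ∈ B, μ i) * (b / 2 - Real.log 2) ≤ Phi (b / 2) p μ wh := by
  have hb2 : 0 < b / 2 := by positivity
  have hle : ∀ i, Zc b p w i ≤ Zc (b / 2) p w i := by
    intro i
    unfold Zc
    apply setIntegral_mono (integrable_gauss b hb (p i)).integrableOn
      (integrable_gauss _ hb2 (p i)).integrableOn
    intro x
    simp only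
    apply Real.exp_le_exp.2
    nlinarith [sq_nonneg ‖x - p i‖]
  have hge : ∀ i ∈ B, Real.exp (b / 2) * (Zc b p w i / 2) ≤ Zc (b / 2) p w i := by
    intro i hi
    have hm : MeasurableSet (cell p w i ∩ {x | 1 < ‖x - p i‖}) :=
      (measurableSet_cell _ _ _).inter (isOpen_lt (by fun_prop) (by fun_prop)).measurableSet
    calc Real.exp (b / 2) * (Zc b p w i / 2) ≤ Real.exp (b / 2) *
          ∫ x in cell p w i ∩ {x | 1 < ‖x - p i‖}, Real.exp (-b * ‖x - p i‖ ^ 2) := by
          gcongr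
          exact hB i hi
      _ = ∫ x in cell p w i ∩ {x | 1 < ‖x - p i‖},
          Real.exp (b / 2) * Real.exp (-b * ‖x - p i‖ ^ 2) := by rw [integral_const_mul]
      _ ≤ ∫ x in cell p w i ∩ {x | 1 < ‖x - p i‖}, Real.exp (-(b / 2) * ‖x - p i‖ ^ 2) := by
          apply setIntegral_mono_on ((integrable_gauss b hb (p i)).const_mul _).integrableOn
            (integrable_gauss _ hb2 (p i)).integrableOn hm
          rintro x ⟨-, hx⟩
          simp only [mem_ofPred_eq] at hx
          rw [← Real.exp_add]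
          apply Real.exp_le_exp.2
          have : 1 ≤ ‖x - p i‖ ^ 2 := by nlinarith
          nlinarith
      _ ≤ Zc (b / 2) p w i := by
          apply setIntegral_mono_set (integrable_gauss _ hb2 (p i)).integrableOn
          · exact Eventually.of_forall fun x => (Real.exp_pos _).le
          · exact (inter_subset_left).eventuallyLE
  refine le_trans ?_ (weak hb2 hμ hμ1 (fun i => measurableSet_cell p w i)
    (fun i j hij => cell_disjoint p w hij) (fun i => (hZ i).trans_le (hle i)) wh)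
  have e4 : (∑ i ∈ B, μ i) * (b / 2 - Real.log 2) =
      ∑ i, μ i * (if i ∈ B then b / 2 - Real.log 2 else 0) := by
    rw [Finset.sum_mul]
    simp_rw [mul_ite, mul_zero]
    rw [Finset.sum_ite_mem, Finset.univ_inter]
  rw [e4]
  unfold Psi
  rw [← Finset.sum_add_distrib]
  apply Finset.sum_le_sum
  intro i _
  rw [← mul_add]
  apply mul_le_mul_of_nonneg_left _ (hμ i).le
  change _ ≤ Real.log (Zc (b / 2) p w i / μ i)
  by_cases hi : i ∈ B
  · rw [if_pos hi]
    have h1 := Real.log_le_log (by have := hZ i; positivity) (hge i hi)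
    rw [Real.log_mul (Real.exp_pos _).ne' (by have := hZ i; positivity), Real.log_exp,
      Real.log_div (hZ i).ne' (by norm_num)] at h1
    rw [Real.log_div (hZ i).ne' (hμ i).ne', Real.log_div ((hZ i).trans_le (hle i)).ne' (hμ i).ne']
    linarith
  · rw [if_neg hi, add_zero]
    apply Real.log_le_log (div_pos (hZ i) (hμ i))
    exact div_le_div_of_nonneg_right (hle i) (hμ i).le

end Pool.Agent.KneserPoly
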