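import Pool.Agent.KneserPoly.Radii

set_option autoImplicit false
set_option linter.unusedSectionVars false

/-! # From unions to multiplicities: random colourings -/

namespace Pool.Agent.KneserPoly

open MeasureTheory Set Filter Topology Module
open scoped ENNReal InnerProductSpace
open Pool.Agent.KneserMult

variable {ι : Type*} [Fintype ι] [DecidableEq ι] {d : ℕ}

theorem bern (m s : ℕ) (hm : 1 ≤ m) :
    ((min m s : ℕ) : ℝ) / 2 ≤ m * (1 - (1 - 1 / (m : ℝ)) ^ s) := by
  have hm' : (1 : ℝ) ≤ m := by exact_mod_cast hm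
  have hm0 : (0 : ℝ) < m := by linarith
  have h0 : 0 ≤ 1 - 1 / (m : ℝ) := by
    rw [sub_nonneg, div_le_one hm0]
    exact hm'
  have h1 : 1 - 1 / (m : ℝ) ≤ 1 := by
    have : 0 < 1 / (m : ℝ) := by positivity
    linarith
  obtain ⟨k, hk⟩ : ∃ k, k = min m s := ⟨_, rfl⟩
  rw [← hk]
  have hks : k ≤ s := hk ▸ min_le_right m s
  have hkm : k ≤ m := hk ▸ min_le_left m s
  have hkm' : (k : ℝ) ≤ m := by exact_mod_cast hkm
  have h2 : (1 - 1 / (m : ℝ)) ^ s ≤ (1 - 1 / (m : ℝ)) ^ k := pow_le_pow_of_le_one h0 h1 hks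
  have h3 : (1 - 1 / (m : ℝ)) ^ k * (1 + k * (1 / (m : ℝ))) ≤ 1 := by
    calc (1 - 1 / (m : ℝ)) ^ k * (1 + k * (1 / (m : ℝ)))
        ≤ (1 - 1 / (m : ℝ)) ^ k * (1 + 1 / (m : ℝ)) ^ k := by
          gcongr
          apply one_add_mul_le_pow
          have : 0 < 1 / (m : ℝ) := by positivity
          linarith
      _ = (1 - (1 / (m : ℝ)) ^ 2) ^ k := by
          rw [← mul_pow]
          congr 1
          ring
      _ ≤ 1 := by
          apply pow_le_one₀
          · have h4 : (1 / (m : ℝ)) ≤ 1 := by rw [div_le_one hm0]; exact hm'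
            have h5 : 0 < (1 / (m : ℝ)) := by positivity
            nlinarith
          · have : 0 ≤ (1 / (m : ℝ)) ^ 2 := by positivity
            linarith
  obtain ⟨t, ht⟩ : ∃ t : ℝ, t = k * (1 / (m : ℝ)) := ⟨_, rfl⟩
  have ht0 : 0 ≤ t := by rw [ht]; positivity
  have htm : m * t = k := by rw [ht]; field_simp
  have ht1 : t ≤ 1 := by
    rw [ht, mul_one_div, div_le_one hm0]
    exact hkm'
  rw [← ht] at h3
  have h4 : (1 - 1 / (m : ℝ)) ^ k ≤ 1 - t / 2 := by
    have h5 : (1 - t / 2) * (1 + t) ≥ 1 := by nlinarith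
    have h6 : 0 < 1 + t := by linarith
    by_contra hcon
    push Not at hcon
    nlinarith
  rw [← htm]
  have h5 : (1 - 1 / (m : ℝ)) ^ s ≤ 1 - t / 2 := h2.trans h4
  nlinarith

theorem card_avoid (m : ℕ) (S : Finset ι) (c : Fin m) :
    ((Finset.univ.filter fun f : ι → Fin m => c ∉ S.image f).card : ℝ) =
      (m : ℝ) ^ Fintype.card ι * (1 - 1 / (m : ℝ)) ^ S.card := by
  have hm : 1 ≤ m := by
    have := c.isLt
    omega
  have hm0 : (0 : ℝ) < m := by exact_mod_cast hm
  have h1 : (Finset.univ.filter fun f : ι → Fin m => c ∉ S.image f) =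
      Fintype.piFinset fun i => if i ∈ S then Finset.univ.erase c else Finset.univ := by
    ext f
    simp only [Finset.mem_filter, Finset.mem_univ, true_and, Finset.mem_image, not_exists, not_and,
      Fintype.mem_piFinset]
    constructor
    · intro h i
      by_cases hi : i ∈ S
      · rw [if_pos hi, Finset.mem_erase]
        exact ⟨h i hi, Finset.mem_univ _⟩
      · rw [if_neg hi]
        exact Finset.mem_univ _
    · intro h i hi hc
      have := h i
      rw [if_pos hi, Finset.mem_erase] at this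
      exact this.1 hc
  rw [h1, Fintype.card_piFinset]
  push_cast
  have h2 : ∀ i, ((if i ∈ S then Finset.univ.erase c else Finset.univ : Finset (Fin m)).card : ℝ) =
      m * (if i ∈ S then 1 - 1 / (m : ℝ) else 1) := by
    intro i
    by_cases hi : i ∈ S
    · rw [if_pos hi, if_pos hi, Finset.card_erase_of_mem (Finset.mem_univ _), Finset.card_univ,
        Fintype.card_fin, Nat.cast_sub hm]
      push_cast
      field_simp
    · rw [if_neg hi, if_neg hi, Finset.card_univ, Fintype.card_fin, mul_one]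
  simp_rw [h2]
  rw [Finset.prod_mul_distrib, Finset.prod_const, Finset.card_univ, Finset.prod_ite_mem,
    Finset.univ_inter, Finset.prod_const]

theorem color (m : ℕ) (hm : 1 ≤ m) (S : Finset ι) :
    (m : ℝ) ^ Fintype.card ι * ((min m S.card : ℕ) : ℝ) ≤
      2 * ∑ f : ι → Fin m, ((S.image f).card : ℝ) := by
  have h1 : ∀ f : ι → Fin m, ((S.image f).card : ℝ) =
      ∑ c : Fin m, (1 - if c ∉ S.image f then (1 : ℝ) else 0) := by
    intro f
    have : ∀ c : Fin m, (1 - if c ∉ S.image f then (1 : ℝ) else 0) =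
        if c ∈ S.image f then 1 else 0 := by
      intro c
      by_cases hc : c ∈ S.image f <;> simp [hc]
    simp_rw [this]
    rw [Finset.sum_ite_mem, Finset.univ_inter]
    simp
  simp_rw [h1]
  rw [Finset.sum_comm]
  have h2 : ∀ c : Fin m, ∑ f : ι → Fin m, (1 - if c ∉ S.image f then (1 : ℝ) else 0) =
      (m : ℝ) ^ Fintype.card ι * (1 - (1 - 1 / (m : ℝ)) ^ S.card) := by
    intro c
    rw [Finset.sum_sub_distrib, Finset.sum_boole, card_avoid, Finset.sum_const, Finset.card_univ,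
      Fintype.card_pi, Finset.prod_const, Fintype.card_fin, Finset.card_univ]
    simp only [nsmul_eq_mul, mul_one]
    push_cast
    ring
  simp_rw [h2]
  rw [Finset.sum_const, Finset.card_univ, Fintype.card_fin, nsmul_eq_mul]
  have h3 := bern m S.card hm
  have h4 : 0 ≤ (m : ℝ) ^ Fintype.card ι := by positivity
  have h5 := mul_le_mul_of_nonneg_left h3 h4
  linarith

/-- the indices of the balls that contain `z` -/
noncomputable def Sz (x : ι → Eu d) (ρ : ι → ℝ) (z : Eu d) : Finset ι :=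
  Finset.univ.filter fun i => dist z (x i) ≤ ρ i

theorem measurableSet_dist (x : Eu d) (r : ℝ) : MeasurableSet {z : Eu d | dist z x ≤ r} :=
  measurableSet_le (by fun_prop) measurable_const

theorem measurableSet_class (x : ι → Eu d) (ρ : ι → ℝ) {m : ℕ} (f : ι → Fin m) (c : Fin m) :
    MeasurableSet
      (⋃ i ∈ (Finset.univ.filter fun i => f i = c), Metric.closedBall (x i) (ρ i)) :=
  Finset.measurableSet_biUnion _ fun _ _ => Metric.isClosed_closedBall.measurableSet

theorem color_indicator (x : ι → Eu d) (ρ : ι → ℝ) {m : ℕ} (f : ι → Fin m) (z : Eu d) :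
    (((Sz x ρ z).image f).card : ℝ≥0∞) = ∑ c : Fin m,
      (⋃ i ∈ (Finset.univ.filter fun i => f i = c), Metric.closedBall (x i) (ρ i)).indicator
        (1 : Eu d → ℝ≥0∞) z := by
  have h2 : ∀ c : Fin m,
      (⋃ i ∈ (Finset.univ.filter fun i => f i = c), Metric.closedBall (x i) (ρ i)).indicator
        (1 : Eu d → ℝ≥0∞) z = if c ∈ (Sz x ρ z).image f then 1 else 0 := by
    intro c
    by_cases hc : c ∈ (Sz x ρ z).image f
    · rw [if_pos hc]
      obtain ⟨i, hi, rfl⟩ := Finset.mem_image.1 hc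
      have hi' := (Finset.mem_filter.1 hi).2
      rw [indicator_of_mem]
      · rfl
      · simp only [mem_iUnion, Metric.mem_closedBall]
        exact ⟨i, Finset.mem_filter.2 ⟨Finset.mem_univ i, rfl⟩, hi'⟩
    · rw [if_neg hc, indicator_of_notMem]
      intro hz
      simp only [mem_iUnion, Metric.mem_closedBall] at hz
      obtain ⟨i, hi, h⟩ := hz
      apply hc
      exact Finset.mem_image.2 ⟨i, Finset.mem_filter.2 ⟨Finset.mem_univ i, h⟩,
        (Finset.mem_filter.1 hi).2⟩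
  simp_rw [h2]
  rw [Finset.sum_ite_mem, Finset.univ_inter]
  simp

theorem measurable_color (x : ι → Eu d) (ρ : ι → ℝ) {m : ℕ} (f : ι → Fin m) :
    Measurable fun z => (((Sz x ρ z).image f).card : ℝ≥0∞) := by
  simp_rw [color_indicator]
  exact Finset.measurable_fun_sum _ fun c _ => measurable_one.indicator (measurableSet_class x ρ f c)

theorem sum_color (x : ι → Eu d) (ρ : ι → ℝ) (m : ℕ) (f : ι → Fin m) :
    ∑ c : Fin m, Ue x ρ (Finset.univ.filter fun i => f i = c) =
      ∫⁻ z, (((Sz x ρ z).image f).card : ℝ≥0∞) := by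
  simp_rw [color_indicator]
  rw [lintegral_finsetSum _ fun c _ => measurable_one.indicator (measurableSet_class x ρ f c)]
  apply Finset.sum_congr rfl
  intro c _
  rw [lintegral_indicator_one (measurableSet_class x ρ f c)]
  rfl

theorem lint_min (x : ι → Eu d) (ρ : ι → ℝ) (m : ℕ) :
    ∑ k ∈ Finset.range m, volume {z | k + 1 ≤ (Sz x ρ z).card} =
      ∫⁻ z, ((min m (Sz x ρ z).card : ℕ) : ℝ≥0∞) := by
  have hmeas : ∀ k : ℕ, MeasurableSet {z | k + 1 ≤ (Sz x ρ z).card} := fun k =>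
    measurableSet_cc x ρ k
  have h1 : ∀ z, ((min m (Sz x ρ z).card : ℕ) : ℝ≥0∞) = ∑ k ∈ Finset.range m,
      {z | k + 1 ≤ (Sz x ρ z).card}.indicator (1 : Eu d → ℝ≥0∞) z := by
    intro z
    have h2 : ∀ k, {z | k + 1 ≤ (Sz x ρ z).card}.indicator (1 : Eu d → ℝ≥0∞) z =
        if k ∈ Finset.range (Sz x ρ z).card then 1 else 0 := by
      intro k
      by_cases hk : k + 1 ≤ (Sz x ρ z).card
      · rw [indicator_of_mem (by exact hk), if_pos (Finset.mem_range.2 (by omega))]
        rfl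
      · rw [indicator_of_notMem (by exact hk), if_neg]
        rw [Finset.mem_range]
        omega
    simp_rw [h2]
    rw [Finset.sum_ite_mem, Finset.sum_const, nsmul_eq_mul, mul_one]
    congr 1
    have : Finset.range m ∩ Finset.range (Sz x ρ z).card =
        Finset.range (min m (Sz x ρ z).card) := by
      ext k
      simp
    rw [this, Finset.card_range]
  simp_rw [h1]
  rw [lintegral_finsetSum _ fun c _ => measurable_one.indicator (hmeas c)]
  apply Finset.sum_congr rfl
  intro k _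
  rw [lintegral_indicator_one (hmeas k)]

/-- partial sums -/
theorem partial_poly (hd : 1 ≤ d) (p q : ι → Eu d)
    (hpq : ∀ i j, dist (q i) (q j) ≤ dist (p i) (p j)) {ρ : ι → ℝ} (hρ : ∀ i, 0 < ρ i) (m : ℕ) :
    ∑ k ∈ Finset.range m, volume {z | k + 1 ≤ (Sz q ρ z).card} ≤
      ((2 ^ 54 * d ^ 12 : ℕ) : ℝ≥0∞) *
        ∑ k ∈ Finset.range m, volume {z | k + 1 ≤ (Sz p ρ z).card} := by
  rcases Nat.eq_zero_or_pos m with hm | hm
  · subst hm
    simp
  rw [lint_min, lint_min]
  obtain ⟨M, hM⟩ : ∃ M : ℕ, M = m ^ Fintype.card ι := ⟨_, rfl⟩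
  have hMpos : 0 < M := by rw [hM]; positivity
  have h1 : (M : ℝ≥0∞) * ∫⁻ z, ((min m (Sz q ρ z).card : ℕ) : ℝ≥0∞) ≤
      2 * ∑ f : ι → Fin m, ∫⁻ z, (((Sz q ρ z).image f).card : ℝ≥0∞) := by
    rw [← lintegral_finsetSum _ fun f _ => measurable_color q ρ f,
      ← lintegral_const_mul' _ _ (ENNReal.natCast_ne_top M),
      ← lintegral_const_mul' _ _ (by norm_num)]
    apply lintegral_mono
    intro z
    have h2 := color m hm (Sz q ρ z)
    have h3 : M * min m (Sz q ρ z).card ≤ 2 * ∑ f : ι → Fin m, ((Sz q ρ z).image f).card := by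
      have : ((M * min m (Sz q ρ z).card : ℕ) : ℝ) ≤
          ((2 * ∑ f : ι → Fin m, ((Sz q ρ z).image f).card : ℕ) : ℝ) := by
        rw [hM]
        push_cast
        push_cast at h2
        exact h2
      exact_mod_cast this
    simp only
    exact_mod_cast h3
  have h4 : ∀ f : ι → Fin m, ∫⁻ z, (((Sz q ρ z).image f).card : ℝ≥0∞) ≤
      ((2 ^ 53 * d ^ 12 : ℕ) : ℝ≥0∞) * ∫⁻ z, ((min m (Sz p ρ z).card : ℕ) : ℝ≥0∞) := by
    intro f
    rw [← sum_color]
    calc ∑ c : Fin m, Ue q ρ (Finset.univ.filter fun i => f i = c)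
        ≤ ∑ c : Fin m, ((2 ^ 53 * d ^ 12 : ℕ) : ℝ≥0∞) *
          Ue p ρ (Finset.univ.filter fun i => f i = c) :=
          Finset.sum_le_sum fun c _ => union_poly hd p q hpq hρ _
      _ = ((2 ^ 53 * d ^ 12 : ℕ) : ℝ≥0∞) * ∫⁻ z, (((Sz p ρ z).image f).card : ℝ≥0∞) := by
          rw [← Finset.mul_sum, sum_color]
      _ ≤ _ := by
          gcongr with z
          apply le_min
          · refine (Finset.card_le_univ _).trans (le_of_eq (Fintype.card_fin m))
          · exact Finset.card_image_le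
  have h5 : (M : ℝ≥0∞) * ∫⁻ z, ((min m (Sz q ρ z).card : ℕ) : ℝ≥0∞) ≤
      (M : ℝ≥0∞) * (((2 ^ 54 * d ^ 12 : ℕ) : ℝ≥0∞) *
        ∫⁻ z, ((min m (Sz p ρ z).card : ℕ) : ℝ≥0∞)) := by
    refine h1.trans ?_
    calc 2 * ∑ f : ι → Fin m, ∫⁻ z, (((Sz q ρ z).image f).card : ℝ≥0∞)
        ≤ 2 * ∑ _f : ι → Fin m, ((2 ^ 53 * d ^ 12 : ℕ) : ℝ≥0∞) *
          ∫⁻ z, ((min m (Sz p ρ z).card : ℕ) : ℝ≥0∞) := by
          gcongr with f _
          exact h4 f
      _ = (M : ℝ≥0∞) * (((2 ^ 54 * d ^ 12 : ℕ) : ℝ≥0∞) *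
        ∫⁻ z, ((min m (Sz p ρ z).card : ℕ) : ℝ≥0∞)) := by
          rw [Finset.sum_const, Finset.card_univ, Fintype.card_pi, Finset.prod_const,
            Fintype.card_fin, Finset.card_univ, nsmul_eq_mul, ← hM]
          have : ((2 ^ 54 * d ^ 12 : ℕ) : ℝ≥0∞) = 2 * ((2 ^ 53 * d ^ 12 : ℕ) : ℝ≥0∞) := by
            have e : 2 ^ 54 * d ^ 12 = 2 * (2 ^ 53 * d ^ 12) := by ring
            rw [e, Nat.cast_mul]
            rfl
          rw [this]
          ring
  have hM0 : (M : ℝ≥0∞) ≠ 0 := by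
    rw [Nat.cast_ne_zero]
    exact hMpos.ne'
  exact (ENNReal.mul_le_mul_iff_right hM0 (ENNReal.natCast_ne_top M)).1 h5

/-- summation by parts for nonnegative nonincreasing weights -/
theorem abel_nonneg (n : ℕ) (τ c : ℕ → ℝ) (hτ : ∀ k, k + 1 < n → τ (k + 1) ≤ τ k)
    (hτ0 : ∀ k < n, 0 ≤ τ k) (hc : ∀ m, m ≤ n → 0 ≤ ∑ k ∈ Finset.range m, c k) :
    0 ≤ ∑ k ∈ Finset.range n, τ k * c k := by
  rcases n with _ | n
  · simp
  have key : ∀ m, m ≤ n → τ m * ∑ k ∈ Finset.range (m + 1), c k ≤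
      ∑ k ∈ Finset.range (m + 1), τ k * c k := by
    intro m
    induction m with
    | zero => intro _; simp
    | succ m ih =>
      intro hm
      have h1 := ih (by omega)
      have h2 := hτ m (by omega)
      have h3 := hc (m + 1) (by omega)
      rw [Finset.sum_range_succ, Finset.sum_range_succ (fun k => τ k * c k)]
      nlinarith
  have h1 := key n le_rfl
  have h2 := mul_nonneg (hτ0 n (by omega)) (hc (n + 1) le_rfl)
  linarith

/-- Kneser's weighted inequality, up to a polynomial factor. -/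
theorem weighted_poly {n : ℕ} (hd : 1 ≤ d) (p q : Fin n → Eu d)
    (hpq : ∀ i j, dist (q i) (q j) ≤ dist (p i) (p j)) {ρ : Fin n → ℝ} (hρ : ∀ i, 0 < ρ i)
    {τ : Fin n → ℝ} (hτ : Antitone τ) (hτ0 : ∀ i, 0 ≤ τ i) :
    ∑ k : Fin n, τ k * (volume {z | k.val + 1 ≤ (Sz q ρ z).card}).toReal ≤
      2 ^ 54 * (d : ℝ) ^ 12 *
        ∑ k : Fin n, τ k * (volume {z | k.val + 1 ≤ (Sz p ρ z).card}).toReal := by
  have hfin : ∀ (x : Fin n → Eu d) (k : ℕ), volume {z | k + 1 ≤ (Sz x ρ z).card} < ⊤ :=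
    fun x k => volume_cc x ρ k
  let τ' : ℕ → ℝ := fun k => if h : k < n then τ ⟨k, h⟩ else 0
  let c : ℕ → ℝ := fun k =>
    2 ^ 54 * (d : ℝ) ^ 12 * (volume {z | k + 1 ≤ (Sz p ρ z).card}).toReal -
    (volume {z | k + 1 ≤ (Sz q ρ z).card}).toReal
  have hpart : ∀ m, m ≤ n → 0 ≤ ∑ k ∈ Finset.range m, c k := by
    intro m _
    have h := partial_poly hd p q hpq hρ m
    have h1 := ENNReal.toReal_mono (ENNReal.mul_ne_top (ENNReal.natCast_ne_top _)
      (ENNReal.sum_ne_top.2 fun k _ => (hfin p k).ne)) h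
    rw [ENNReal.toReal_mul, ENNReal.toReal_sum fun k _ => (hfin q k).ne,
      ENNReal.toReal_sum fun k _ => (hfin p k).ne, ENNReal.toReal_natCast] at h1
    push_cast at h1
    simp only [c]
    rw [Finset.sum_sub_distrib, ← Finset.mul_sum, sub_nonneg]
    refine h1.trans (le_of_eq ?_)
    norm_num
  have key := abel_nonneg n τ' c (by
      intro k hk
      have h1 : k < n := by omega
      simp only [τ', hk, h1, dif_pos]
      exact hτ (by simp))
    (by
      intro k hk
      simp only [τ', hk, dif_pos]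
      exact hτ0 _)
    hpart
  rw [Finset.sum_range] at key
  have h2 : ∑ i : Fin n, τ' i * c i =
      2 ^ 54 * (d : ℝ) ^ 12 *
        ∑ k : Fin n, τ k * (volume {z | k.val + 1 ≤ (Sz p ρ z).card}).toReal -
      ∑ k : Fin n, τ k * (volume {z | k.val + 1 ≤ (Sz q ρ z).card}).toReal := by
    rw [Finset.mul_sum, ← Finset.sum_sub_distrib]
    apply Finset.sum_congr rfl
    intro k _
    simp only [τ', c, k.isLt, dif_pos]
    ring
  rw [h2] at key
  linarith

end Pool.Agent.KneserPoly
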